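import Pool.Agent.Work.MP_659252_gt.QR.Bas

/-!
# Cut off functions.  Size: M.

PROOF.  `step`: let `θ` be a `ContDiffBump` of centre `s`, `rIn = δ`, `rOut = 2 δ` (smooth, `0 ≤ θ ≤ 1`, `θ = 1` on `[s - δ, s + δ]`, `θ = 0` outside of `(s - 2δ, s + 2δ)`); `ζ y = s + ∫ t in s..y, θ t`, with derivative `θ`:
smooth (`contDiff_infty_iff_deriv` / `contDiff_succ_iff_deriv`), monotone, `ζ y = y` on `[s - δ, s + δ]`, constant for `y ≤ s - 2δ` and for `y ≥ s + 2δ`; `ζ y < s - δ` for `y ≤ s - 2 δ` (the integral of `θ` over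
`[s - 2δ, s - δ]` is positive); so also `y < s - δ → ζ y ≤ s - δ` by monotonicity.
`cut_smooth`: let `x ≠ 0`.  If `f x < s - 2δ + ..`: precisely: if `f x ∉ [s - 2δ, s + 2δ]` then `F ∘ f` (`F` constant on `(-∞, s - 2δ]` and on `[s + 2δ, ∞)`) is constant near `x` by continuity of `f` at `x`; otherwise `0 < f x < T`, `f` is smooth at `x`
(the set `{0 < f < T}` is a neighbourhood of `x`), and `F ∘ f` is smooth at `x`.  The product with `w` smooth on `{0 < f < T}` if `F = θ` (which is `0` outside).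
-/

namespace Pool.Agent.Work.MP_659252_gt.QR

open scoped ContDiff Topology
open Pool.Agent.Work.MP_659252_gt.Z (V Ten val Tan InT IsZoll IsMetric IsGeodesic)

variable {d : ℕ}

theorem step (s δ : ℝ) (hδ : 0 < δ) : ∃ θ ζ : ℝ → ℝ, ContDiff ℝ ∞ θ ∧ ContDiff ℝ ∞ ζ ∧ Monotone ζ ∧
    (∀ y, s - δ ≤ y → y ≤ s + δ → θ y = 1 ∧ ζ y = y) ∧ (∀ y, y ≤ s - 2 * δ → θ y = 0 ∧ ζ y = ζ (s - 2 * δ)) ∧
    (∀ y, s + 2 * δ ≤ y → θ y = 0 ∧ ζ y = ζ (s + 2 * δ)) ∧ ζ (s - 2 * δ) < s - δ := by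
  let φ : ContDiffBump s := ⟨δ, 2 * δ, hδ, by linarith⟩
  have hφ : ContDiff ℝ ∞ φ := φ.contDiff
  have hc : Continuous φ := hφ.continuous
  have hin : ∀ y, s - δ ≤ y → y ≤ s + δ → φ y = 1 := fun y h1 h2 => by
    apply φ.one_of_mem_closedBall
    change y ∈ Metric.closedBall s δ
    rw [Real.closedBall_eq_Icc]
    exact ⟨h1, h2⟩
  have hout : ∀ y, 2 * δ ≤ |y - s| → φ y = 0 := fun y h => by
    apply φ.zero_of_le_dist
    rw [Real.dist_eq]
    exact h
  have hout1 : ∀ y, y ≤ s - 2 * δ → φ y = 0 := fun y h => by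
    apply hout
    rw [abs_of_nonpos (by linarith)]
    linarith
  have hout2 : ∀ y, s + 2 * δ ≤ y → φ y = 0 := fun y h => by
    apply hout
    rw [abs_of_nonneg (by linarith)]
    linarith
  have hpos : ∀ y, s - 2 * δ < y → y < s + 2 * δ → 0 < φ y := fun y h1 h2 => by
    apply φ.pos_of_mem_ball
    change y ∈ Metric.ball s (2 * δ)
    rw [Real.ball_eq_Ioo]
    exact ⟨h1, h2⟩
  have hint : ∀ a b, IntervalIntegrable φ MeasureTheory.volume a b := fun a b => hc.intervalIntegrable a b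
  set ζ : ℝ → ℝ := fun y => s + ∫ t in s..y, φ t with hζ
  have hder : ∀ y, HasDerivAt ζ (φ y) y := fun y =>
    (intervalIntegral.integral_hasDerivAt_right (hint s y) (hc.stronglyMeasurableAtFilter _ _)
      hc.continuousAt).const_add s
  have hdz : deriv ζ = φ := funext fun y => (hder y).deriv
  have hsub : ∀ a b, ζ b = ζ a + ∫ t in a..b, φ t := fun a b => by
    simp only [hζ]
    rw [add_assoc, intervalIntegral.integral_add_adjacent_intervals (hint s a) (hint a b)]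
  have hmid : ∀ y, s - δ ≤ y → y ≤ s + δ → ζ y = y := fun y h1 h2 => by
    have h3 : ∫ t in s..y, φ t = ∫ t in s..y, (1 : ℝ) := by
      apply intervalIntegral.integral_congr
      intro t ht
      rw [Set.mem_uIcc] at ht
      rcases ht with ht | ht
      · exact hin t (by linarith [ht.1]) (by linarith [ht.2])
      · exact hin t (by linarith [ht.1]) (by linarith [ht.2])
    simp only [hζ]
    rw [h3, intervalIntegral.integral_const, smul_eq_mul]
    ring
  refine ⟨φ, ζ, hφ, ?_, ?_, fun y h1 h2 => ⟨hin y h1 h2, hmid y h1 h2⟩, fun y h => ⟨hout1 y h, ?_⟩,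
    fun y h => ⟨hout2 y h, ?_⟩, ?_⟩
  · rw [contDiff_infty_iff_deriv]
    exact ⟨fun y => (hder y).differentiableAt, hdz ▸ hφ⟩
  · apply monotone_of_deriv_nonneg (fun y => (hder y).differentiableAt)
    intro y
    rw [hdz]
    exact φ.nonneg
  · have h3 : ∫ t in (s - 2 * δ)..y, φ t = ∫ t in (s - 2 * δ)..y, (0 : ℝ) := by
      apply intervalIntegral.integral_congr
      intro t ht
      rw [Set.mem_uIcc] at ht
      rcases ht with ht | ht
      · exact hout1 t (by linarith [ht.2])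
      · exact hout1 t ht.2
    rw [hsub (s - 2 * δ) y, h3]
    simp
  · have h3 : ∫ t in (s + 2 * δ)..y, φ t = ∫ t in (s + 2 * δ)..y, (0 : ℝ) := by
      apply intervalIntegral.integral_congr
      intro t ht
      rw [Set.mem_uIcc] at ht
      rcases ht with ht | ht
      · exact hout2 t ht.1
      · exact hout2 t (by linarith [ht.1])
    rw [hsub (s + 2 * δ) y, h3]
    simp
  · have h3 := hsub (s - 2 * δ) (s - δ)
    rw [hmid (s - δ) le_rfl (by linarith)] at h3
    have h4 : 0 < ∫ t in (s - 2 * δ)..(s - δ), φ t :=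
      intervalIntegral.intervalIntegral_pos_of_pos_on (hint _ _)
        (fun t ht => hpos t ht.1 (by linarith [ht.2])) (by linarith)
    linarith

private theorem cut_nhds (f : V d → ℝ) (T : ℝ) (hf : Layered f T) (x : V d) (hx : x ≠ 0) (h0 : 0 < f x)
    (hT : f x < T) : {x | 0 < f x ∧ f x < T} ∈ 𝓝 x := by
  have hc : ContinuousAt f x := hf.cont.continuousAt (isOpen_compl_singleton.mem_nhds hx)
  have := hc.eventually (isOpen_Ioo.mem_nhds (show f x ∈ Set.Ioo 0 T from ⟨h0, hT⟩))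
  filter_upwards [this] with y hy using ⟨hy.1, hy.2⟩

theorem cut_smooth (f : V d → ℝ) (T : ℝ) (hf : Layered f T) (s δ : ℝ) (h0 : 0 < s - 2 * δ) (hT : s + 2 * δ < T)
    (F : ℝ → ℝ) (hF : ContDiff ℝ ∞ F) (c₁ c₂ : ℝ) (h₁ : ∀ y, y ≤ s - 2 * δ → F y = c₁)
    (h₂ : ∀ y, s + 2 * δ ≤ y → F y = c₂) : ContDiffOn ℝ ∞ (fun x => F (f x)) {0}ᶜ := by
  intro x hx
  have hx' : x ≠ 0 := hx
  have hc : ContinuousAt f x := hf.cont.continuousAt (isOpen_compl_singleton.mem_nhds hx')
  apply ContDiffAt.contDiffWithinAt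
  rcases lt_or_ge (f x) (s - 2 * δ) with h3 | h3
  · have : (fun x => F (f x)) =ᶠ[𝓝 x] fun _ => c₁ := by
      filter_upwards [hc.eventually (isOpen_Iio.mem_nhds h3)] with y hy using h₁ _ (le_of_lt hy)
    exact contDiffAt_const.congr_of_eventuallyEq this
  rcases lt_or_ge (s + 2 * δ) (f x) with h4 | h4
  · have : (fun x => F (f x)) =ᶠ[𝓝 x] fun _ => c₂ := by
      filter_upwards [hc.eventually (isOpen_Ioi.mem_nhds h4)] with y hy using h₂ _ (le_of_lt hy)
    exact contDiffAt_const.congr_of_eventuallyEq this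
  · have hn := cut_nhds f T hf x hx' (by linarith) (by linarith)
    exact hF.contDiffAt.comp x (hf.smooth.contDiffAt hn)

theorem cut_smooth_mul (f : V d → ℝ) (T : ℝ) (hf : Layered f T) (s δ : ℝ) (h0 : 0 < s - 2 * δ) (hT : s + 2 * δ < T)
    (F : ℝ → ℝ) (hF : ContDiff ℝ ∞ F) (h₁ : ∀ y, y ≤ s - 2 * δ → F y = 0) (h₂ : ∀ y, s + 2 * δ ≤ y → F y = 0)
    (w : V d → ℝ) (hw : ContDiffOn ℝ ∞ w {x | 0 < f x ∧ f x < T}) :
    ContDiffOn ℝ ∞ (fun x => F (f x) * w x) {0}ᶜ := by
  intro x hx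
  have hx' : x ≠ 0 := hx
  have hc : ContinuousAt f x := hf.cont.continuousAt (isOpen_compl_singleton.mem_nhds hx')
  apply ContDiffAt.contDiffWithinAt
  rcases lt_or_ge (f x) (s - 2 * δ) with h3 | h3
  · have : (fun x => F (f x) * w x) =ᶠ[𝓝 x] fun _ => (0 : ℝ) := by
      filter_upwards [hc.eventually (isOpen_Iio.mem_nhds h3)] with y hy
      rw [h₁ _ (le_of_lt hy), zero_mul]
    exact contDiffAt_const.congr_of_eventuallyEq this
  rcases lt_or_ge (s + 2 * δ) (f x) with h4 | h4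
  · have : (fun x => F (f x) * w x) =ᶠ[𝓝 x] fun _ => (0 : ℝ) := by
      filter_upwards [hc.eventually (isOpen_Ioi.mem_nhds h4)] with y hy
      rw [h₂ _ (le_of_lt hy), zero_mul]
    exact contDiffAt_const.congr_of_eventuallyEq this
  · have hn := cut_nhds f T hf x hx' (by linarith) (by linarith)
    exact (hF.contDiffAt.comp x (hf.smooth.contDiffAt hn)).mul (hw.contDiffAt hn)

end Pool.Agent.Work.MP_659252_gt.QR
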