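import Pool.Agent.Work.MP_659252_gt.QR.Q.Sup
import Pool.Agent.Work.MP_659252_gt.QR.Q.CutA

/-!
# The local data.  Size: M.

PROOF.  Let `0 < δ`, `2 δ < s`, `s + 2 δ < T` (e.g. `δ = min s (T - s)/4`), `θ`, `ζ` from `step`; `g = ζ ∘ f`, `v = θ(f) w`, `m x i j = θ (f x) * k x i j`, `lo = s - δ`, `hi = s + δ`.  If `lo < f x < hi` then `g x = f x`, `v x = w x`, `m x = k x`, and (for `x ≠ 0`) these
equalities hold near `x` (continuity of `f`), so `gr g x = gr f x`, `D2 g x = D2 f x`.  If `f x ≤ lo` then `g x ≤ ζ lo = lo`, and `hi ≤ f x` gives `hi ≤ g x` (monotone).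
`Loc`: `fs`, `ws` from `cut_smooth`, `cut_smooth_mul`; `ks`: `m` smooth componentwise (`contDiffOn_pi`), symmetric, homogeneous (`hom` of `f` and `k`), tangential (`val` is linear in the matrix); `fh`, `wh` clear.  `feq`: `f x = 0`,
`ζ 0 = ζ (s - 2δ) < lo`.  `lo_lt`, `lt_hi`, `P0`, `reg` (`gr g P = gr f P`).  `uniq`: by `uniqL`, `f (P + τ v) < f P`, and `ζ` monotone with `ζ y = y` on `[lo, hi]`: if `f (P + τ v) ≥ lo` then `g (P + τ v) = f (P + τ v) < f P`, otherwise
`g (P + τ v) ≤ lo < f P = g P`.  `curv`: from `Layered.curv` (`v ≠ c P` since `v 0 = 0 < P 0`).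
`zoll`: for `b` a `Bump lo hi`, `dir g v m b = dir f w k b`: at `x` with `lo < f x < hi` all ingredients agree (`x ≠ 0` because `f 0 = 0`); otherwise `g x ∉ (lo, hi)` and `f x ∉ (lo, hi)`, so `b`, `deriv b` vanish at `g x` and at `f x` (`b = 0` outside of
a compact interval inside `(lo, hi)`, so near every point outside of `(lo, hi)`), both sides are `0`.  And `b` is a `Bump 0 T`.
-/

namespace Pool.Agent.Work.MP_659252_gt.QR

open scoped ContDiff Topology
open Pool.Agent.Work.MP_659252_gt.Z (V Ten val Tan InT IsZoll IsMetric IsGeodesic)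

variable {d : ℕ}

private theorem bump_out (lo hi : ℝ) (b : ℝ → ℝ) (hb : Bump lo hi b) (y : ℝ) (hy : y ≤ lo ∨ hi ≤ y) :
    b y = 0 ∧ deriv b y = 0 := by
  obtain ⟨_, a, c, ha, hc, h0⟩ := hb
  have h1 : b =ᶠ[𝓝 y] fun _ => (0 : ℝ) := by
    rcases hy with hy | hy
    · filter_upwards [isOpen_Iio.mem_nhds (show y ∈ Set.Iio a by simp only [Set.mem_Iio]; linarith)] with z hz
      exact h0 z fun h => absurd h.1 (not_le.2 hz)
    · filter_upwards [isOpen_Ioi.mem_nhds (show y ∈ Set.Ioi c by simp only [Set.mem_Ioi]; linarith)] with z hz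
      exact h0 z fun h => absurd h.2 (not_le.2 hz)
  refine ⟨h1.self_of_nhds, ?_⟩
  rw [h1.deriv_eq]
  simp

private theorem gr_congr (f g : V d → ℝ) (x : V d) (h : g =ᶠ[𝓝 x] f) : gr g x = gr f x := by
  funext i
  simp only [gr]
  rw [h.fderiv_eq]

private theorem D2_congr (f g : V d → ℝ) (x v : V d) (h : g =ᶠ[𝓝 x] f) : D2 g x v = D2 f x v := by
  have h1 : (fun t : ℝ => g (x + t • v)) =ᶠ[𝓝 0] fun t : ℝ => f (x + t • v) := by
    have hc : Continuous fun t : ℝ => x + t • v := by fun_prop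
    have h2 : Filter.Tendsto (fun t : ℝ => x + t • v) (𝓝 0) (𝓝 x) := by
      have := hc.tendsto 0
      simpa using this
    exact h2.eventually h
  simp only [D2]
  exact h1.iteratedDeriv_eq 2

theorem cut (f w : V d → ℝ) (k : Ten d) (T : ℝ) (hf : Layered f T) (hk : SymTen k {x | 0 < f x ∧ f x < T})
    (hw : ContDiffOn ℝ ∞ w {x | 0 < f x ∧ f x < T}) (hwh : ∀ (c : ℝ) (x : V d), c ≠ 0 → w (c • x) = c ^ 2 * w x)
    (hz : ∀ b : ℝ → ℝ, Bump 0 T b → InT (dir f w k b)) (s : ℝ) (h0 : 0 < s) (hT : s < T) :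
    ∃ (g v : V d → ℝ) (m : Ten d) (lo hi : ℝ), 0 < lo ∧ lo < s ∧ s < hi ∧ hi < T ∧
      (∀ x, lo < f x → f x < hi → g x = f x ∧ v x = w x ∧ m x = k x) ∧ (∀ x, f x ≤ lo → g x ≤ lo) ∧
      (∀ x, hi ≤ f x → hi ≤ g x) ∧ ∀ P : V d, 0 < P 0 → lo < f P → f P < hi → Loc g v m lo hi P := by
  set δ : ℝ := min s (T - s) / 4 with hδd
  have hm : 0 < min s (T - s) := lt_min h0 (by linarith)
  have hm1 : min s (T - s) ≤ s := min_le_left _ _
  have hm2 : min s (T - s) ≤ T - s := min_le_right _ _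
  have hδ : 0 < δ := by positivity
  have hδ1 : 0 < s - 2 * δ := by rw [hδd]; linarith
  have hδ2 : s + 2 * δ < T := by rw [hδd]; linarith
  clear_value δ
  obtain ⟨θ, ζ, hθ, hζ, hmono, hmid, hlow, hhigh, hlt⟩ := step s δ hδ
  have hclo : ∀ x, f x ≤ s - δ → ζ (f x) ≤ s - δ := fun x hx => by
    have := hmono hx
    rwa [(hmid (s - δ) le_rfl (by linarith)).2] at this
  have hchi : ∀ x, s + δ ≤ f x → s + δ ≤ ζ (f x) := fun x hx => by
    have := hmono hx
    rwa [(hmid (s + δ) (by linarith) le_rfl).2] at this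
  have hin : ∀ x, s - δ < f x → f x < s + δ → ζ (f x) = f x ∧ θ (f x) * w x = w x ∧
      (fun i j => θ (f x) * k x i j) = k x := fun x h1 h2 => by
    obtain ⟨h3, h4⟩ := hmid (f x) h1.le h2.le
    refine ⟨h4, by rw [h3, one_mul], ?_⟩
    funext i j
    rw [h3, one_mul]
  have hne : ∀ x, s - δ < f x → x ≠ 0 := by
    rintro x hx rfl
    have := hf.zero 0 rfl
    linarith
  have hev : ∀ x, s - δ < f x → f x < s + δ → (fun y => ζ (f y)) =ᶠ[𝓝 x] f := fun x h1 h2 => by
    have hc : ContinuousAt f x := hf.cont.continuousAt (isOpen_compl_singleton.mem_nhds (hne x h1))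
    filter_upwards [hc.eventually (isOpen_Ioo.mem_nhds (show f x ∈ Set.Ioo (s - δ) (s + δ) from ⟨h1, h2⟩))]
      with y hy using (hin y hy.1 hy.2).1
  refine ⟨fun x => ζ (f x), fun x => θ (f x) * w x, fun x i j => θ (f x) * k x i j, s - δ, s + δ, by linarith,
    by linarith, by linarith, by linarith, hin, hclo, hchi, ?_⟩
  intro P hP hP1 hP2
  have hgP : ζ (f P) = f P := (hin P hP1 hP2).1
  have hgr : gr (fun x => ζ (f x)) P = gr f P := gr_congr f _ P (hev P hP1 hP2)
  have hP0 : 0 < f P := by linarith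
  have hPT : f P < T := by linarith
  have hk' : ∀ i j, ContDiffOn ℝ ∞ (fun x => k x i j) {x | 0 < f x ∧ f x < T} := fun i j =>
    contDiffOn_pi.1 (contDiffOn_pi.1 hk.smooth i) j
  have hdir : ∀ b : ℝ → ℝ, Bump (s - δ) (s + δ) b →
      dir (fun x => ζ (f x)) (fun x => θ (f x) * w x) (fun x i j => θ (f x) * k x i j) b = dir f w k b := by
    intro b hb
    funext x i j
    simp only [dir]
    by_cases hx : s - δ < f x ∧ f x < s + δ
    · obtain ⟨h1, h2, h3⟩ := hin x hx.1 hx.2
      have h4 := congrFun (congrFun h3 i) j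
      rw [gr_congr f _ x (hev x hx.1 hx.2), h1, h2, h4]
    · have h5 : f x ≤ s - δ ∨ s + δ ≤ f x := by
        rcases le_or_gt (f x) (s - δ) with h | h
        · exact Or.inl h
        · exact Or.inr (not_lt.1 fun h' => hx ⟨h, h'⟩)
      have h6 : ζ (f x) ≤ s - δ ∨ s + δ ≤ ζ (f x) := h5.imp (hclo x) (hchi x)
      obtain ⟨e1, e2⟩ := bump_out _ _ b hb _ h5
      obtain ⟨e3, e4⟩ := bump_out _ _ b hb _ h6
      rw [e1, e2, e3, e4]
      ring
  exact
    { fs := cut_smooth f T hf s δ hδ1 hδ2 ζ hζ _ _ (fun y hy => (hlow y hy).2) (fun y hy => (hhigh y hy).2)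
      ws := cut_smooth_mul f T hf s δ hδ1 hδ2 θ hθ (fun y hy => (hlow y hy).1) (fun y hy => (hhigh y hy).1) w hw
      ks :=
        { smooth := contDiffOn_pi.2 fun i => contDiffOn_pi.2 fun j =>
            cut_smooth_mul f T hf s δ hδ1 hδ2 θ hθ (fun y hy => (hlow y hy).1) (fun y hy => (hhigh y hy).1) _ (hk' i j)
          symm := fun x i j => by rw [hk.symm x i j]
          hom := fun c x hc => by
            funext i j
            rw [hf.hom c x hc, hk.hom c x hc]
          tan := fun x v => by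
            have h1 := hk.tan x v
            rw [val_eq] at h1 ⊢
            rw [bil_smul_mat, h1, mul_zero] }
      fh := fun c x hc => by rw [hf.hom c x hc]
      wh := fun c x hc => by rw [hf.hom c x hc, hwh c x hc]; ring
      feq := fun x _ hx0 => by
        rw [hf.zero x hx0, (hlow 0 hδ1.le).2]
        exact hlt
      lo_lt := by rw [hgP]; exact hP1
      lt_hi := by rw [hgP]; exact hP2
      P0 := hP
      reg := by rw [hgr]; exact hf.reg P hP0 hPT
      uniq := fun u hu hu0 hu' τ hτ => by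
        rw [hgr] at hu
        have h1 := uniqL f T hf P u hP hP0 hPT hu hu0 hu' τ hτ
        rw [hgP]
        rcases lt_or_ge (f (P + τ • u)) (s - δ) with h2 | h2
        · exact lt_of_le_of_lt (hclo _ h2.le) hP1
        · rw [(hmid _ h2 (by linarith)).2]
          exact h1
      curv := fun u hu hu0 hu' => by
        rw [hgr] at hu
        rw [D2_congr f _ P u (hev P hP1 hP2)]
        refine hf.curv P u hP0 hPT hu fun c hc => ?_
        have h1 : u 0 = c * P 0 := by rw [hc]; rfl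
        rw [hu0] at h1
        rcases mul_eq_zero.1 h1.symm with h2 | h2
        · rw [h2, zero_smul] at hc
          exact hu' hc
        · linarith
      zoll := fun b hb => by
        rw [hdir b hb]
        obtain ⟨hb1, a, c, ha, hc, hb0⟩ := hb
        exact hz b ⟨hb1, a, c, by linarith, by linarith, hb0⟩ }

end Pool.Agent.Work.MP_659252_gt.QR
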