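import Pool.Agent.Work.MP_659252_gt.QR.Q.Sup

/-!
# The level set is connected.  Size: M.

PROOF.  If the set is empty there is nothing to prove; let `P` be in it.  `gr f P ≠ 0`, so there are points `x` near `P` with `f x > s`; scaling (`hom`) gives `y` with `y 0 = 1`, `f y > s`.  Let `W = {v | v 0 = 0, v ≠ 0}`, and for `v ∈ W`
`h t = f (y + t v)`, `t ≥ 0`: continuous, `h 0 > s`, `h t = f (t⁻¹ y + v) → f v = 0` as `t → ∞` (`zero`).  So there is `t₁ > 0` with `h t₁ = s`.  At every `t > 0` with `h t = s`: `x = y + t v`, `gr f x ⬝ y > 0` by `sup1` (`f x = s < f y`; `y` is not a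
multiple of `x`), `gr f x ⬝ x = 0` (`hom`), so `h'(t) = gr f x ⬝ v = -(gr f x ⬝ y)/t < 0`.  Hence the zero of `h - s` is unique, `h > s` before and `h < s` after (if `h t ≥ s` for some `t > t₁` then `h ≥ s` on `[0, t]` by quasi-concavity (`conv`)
and `t₁` is a local minimum of `h`, so `h'(t₁) = 0`).  Let `r v` be this zero.  `r` is continuous on `W`: `h > s` at `r v₀ - ε`, `h < s` at `r v₀ + ε` persist for `v` near `v₀`.  The map `v ↦ y + r v • v` is continuous from `W`
onto `{x | x 0 = 1, f x = s}` (for `x` in the set `v = x - y ∈ W`, `r v = 1`).  `W` is preconnected: image of `{0}ᶜ ⊆ Fin d → ℝ` under `Fin.cons 0` (`isPreconnected_compl_singleton_of_one_lt_rank`, `d ≥ 2`).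
-/

namespace Pool.Agent.Work.MP_659252_gt.QR

open scoped ContDiff Topology
open Pool.Agent.Work.MP_659252_gt.Z (V Ten val Tan InT IsZoll IsMetric IsGeodesic)

variable {d : ℕ}

private lemma cn_ne0 {x : V d} (h : x 0 ≠ 0) : x ≠ 0 := by
  rintro rfl; exact h rfl

private lemma cn_diff {f : V d → ℝ} {T : ℝ} (hf : Layered f T) {x : V d} (h0 : 0 < f x) (hT : f x < T) :
    DifferentiableAt ℝ f x := by
  have hx : x ≠ 0 := by
    rintro rfl
    rw [hf.zero 0 rfl] at h0
    exact lt_irrefl _ h0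
  have hc : ContinuousAt f x := hf.cont.continuousAt (isOpen_compl_singleton.mem_nhds hx)
  have hn : {x : V d | 0 < f x ∧ f x < T} ∈ 𝓝 x :=
    Filter.inter_mem (hc.eventually (lt_mem_nhds h0)) (hc.eventually (gt_mem_nhds hT))
  exact (hf.smooth.contDiffAt hn).differentiableAt (by simp)

private lemma cn_gr (f : V d → ℝ) (x v : V d) : gr f x ⬝ᵥ v = fderiv ℝ f x v := by
  have : v = ∑ i, v i • (Pi.single i (1 : ℝ) : V d) := by
    ext j
    simp [Finset.sum_apply, Pi.single_apply]
  conv_rhs => rw [this, map_sum]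
  simp only [dotProduct, gr, map_smul, smul_eq_mul]
  exact Finset.sum_congr rfl fun i _ => mul_comm _ _

private lemma cn_rad {f : V d → ℝ} {T : ℝ} (hf : Layered f T) {x : V d} (h0 : 0 < f x) (hT : f x < T) :
    gr f x ⬝ᵥ x = 0 := by
  rw [cn_gr]
  have hd := cn_diff hf h0 hT
  have h1 : HasDerivAt (fun t : ℝ => x + t • x) x 0 := by
    simpa using ((hasDerivAt_id (0 : ℝ)).smul_const x).const_add x
  have hd' : HasFDerivAt f (fderiv ℝ f x) (x + (0 : ℝ) • x) := by simpa using hd.hasFDerivAt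
  have h2 : HasDerivAt (fun t : ℝ => f (x + t • x)) (fderiv ℝ f x x) 0 :=
    HasFDerivAt.comp_hasDerivAt (0 : ℝ) hd' h1
  have h3 : (fun t : ℝ => f (x + t • x)) =ᶠ[𝓝 0] fun _ => f x := by
    filter_upwards [isOpen_Ioo.mem_nhds (show (0 : ℝ) ∈ Set.Ioo (-1) 1 by simp)] with t ht
    have : x + t • x = (1 + t) • x := by rw [add_smul, one_smul]
    rw [this, hf.hom _ _ (by have := ht.1; intro h; linarith)]
  have h4 : HasDerivAt (fun t : ℝ => f (x + t • x)) 0 0 := (hasDerivAt_const _ _).congr_of_eventuallyEq h3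
  exact h2.unique h4

private lemma cn_line {f : V d → ℝ} {T : ℝ} (hf : Layered f T) {y v : V d} {t : ℝ} (h0 : 0 < f (y + t • v))
    (hT : f (y + t • v) < T) : HasDerivAt (fun t : ℝ => f (y + t • v)) (gr f (y + t • v) ⬝ᵥ v) t := by
  rw [cn_gr]
  have hd := (cn_diff hf h0 hT).hasFDerivAt
  have h1 : HasDerivAt (fun t : ℝ => y + t • v) v t := by
    simpa using ((hasDerivAt_id t).smul_const v).const_add y
  exact HasFDerivAt.comp_hasDerivAt t hd h1

private lemma cn_exists {f : V d → ℝ} {T : ℝ} (hf : Layered f T) {P : V d} {s : ℝ} (h0 : 0 < s) (hT : s < T)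
    (hP : P 0 = 1) (hs : f P = s) : ∃ y : V d, y 0 = 1 ∧ s < f y := by
  have hg := hf.reg P (hs ▸ h0) (hs ▸ hT)
  obtain ⟨i, hi⟩ : ∃ i, gr f P i ≠ 0 := by
    by_contra h
    push Not at h
    exact hg (funext h)
  set v : V d := gr f P with hv
  have hpos : 0 < gr f P ⬝ᵥ v := by
    rw [hv]
    have h1 : 0 ≤ gr f P ⬝ᵥ gr f P := Finset.sum_nonneg fun j _ => mul_self_nonneg _
    have h2 : gr f P ⬝ᵥ gr f P ≠ 0 := by
      intro h
      rw [dotProduct, Finset.sum_eq_zero_iff_of_nonneg (fun j _ => mul_self_nonneg _)] at h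
      exact hi (mul_self_eq_zero.mp (h i (Finset.mem_univ i)))
    exact lt_of_le_of_ne h1 (Ne.symm h2)
  have hd : HasDerivAt (fun t : ℝ => f (P + t • v)) (gr f P ⬝ᵥ v) 0 := by
    have := cn_line hf (y := P) (v := v) (t := 0) (by simpa [hs] using h0) (by simpa [hs] using hT)
    simpa using this
  have hev : ∀ᶠ t : ℝ in 𝓝[>] 0, f P < f (P + t • v) := by
    have h1 := hd.tendsto_slope.mono_left (nhdsWithin_mono (0 : ℝ) (fun t (ht : 0 < t) => (ne_of_gt ht : t ≠ 0)))
    filter_upwards [h1.eventually (lt_mem_nhds hpos), self_mem_nhdsWithin] with t ht ht0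
    have ht0' : (0 : ℝ) < t := ht0
    rw [slope_def_field] at ht
    simp only [zero_smul, add_zero, sub_zero] at ht
    have := (div_pos_iff_of_pos_right ht0').mp ht
    linarith
  have hev2 : ∀ᶠ t : ℝ in 𝓝[>] 0, 0 < (P + t • v) 0 := by
    have hc : ContinuousAt (fun t : ℝ => (P + t • v) 0) 0 := by
      simp only [Pi.add_apply, Pi.smul_apply, smul_eq_mul]
      fun_prop
    exact nhdsWithin_le_nhds (hc.eventually (lt_mem_nhds (by simp [hP])))
  obtain ⟨t, ht1, ht2⟩ := (hev.and hev2).exists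
  refine ⟨((P + t • v) 0)⁻¹ • (P + t • v), ?_, ?_⟩
  · rw [Pi.smul_apply, smul_eq_mul, inv_mul_cancel₀ (ne_of_gt ht2)]
  · rw [hf.hom _ _ (inv_ne_zero (ne_of_gt ht2)), ← hs]
    exact ht1

private lemma cn_root {f : V d → ℝ} {T : ℝ} (hf : Layered f T) {y : V d} {s : ℝ} (h0 : 0 < s) (hT : s < T)
    (hy : y 0 = 1) (hs : s < f y) (v : V d) (hv0 : v 0 = 0) (hv : v ≠ 0) :
    ∃ r : ℝ, 0 < r ∧ f (y + r • v) = s ∧ (∀ t, 0 ≤ t → t < r → s < f (y + t • v)) ∧
      (∀ t, r < t → f (y + t • v) < s) := by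
  have hco : ∀ t : ℝ, (y + t • v) 0 = 1 := fun t => by simp [hy, hv0]
  have hne : ∀ t : ℝ, y + t • v ≠ 0 := fun t => cn_ne0 (by rw [hco]; exact one_ne_zero)
  have hcont : Continuous fun t : ℝ => f (y + t • v) := by
    rw [continuous_iff_continuousAt]
    intro t
    have h1 : ContinuousAt f (y + t • v) := hf.cont.continuousAt (isOpen_compl_singleton.mem_nhds (hne t))
    exact ContinuousAt.comp (f := fun t : ℝ => y + t • v) h1 (by fun_prop)
  -- quasi-concavity
  have hq : ∀ t t' : ℝ, 0 < t' → t' < t → min (f y) (f (y + t • v)) ≤ f (y + t' • v) := by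
    intro t t' h1 h2
    have ht : 0 < t := h1.trans h2
    set σ := t' / t with hσ
    have hσ0 : 0 < σ := div_pos h1 ht
    have hσ1 : σ < 1 := (div_lt_one ht).mpr h2
    have e : y + t' • v = (1 - σ) • y + σ • (y + t • v) := by
      rw [smul_add, smul_smul, hσ, div_mul_cancel₀ _ (ne_of_gt ht)]
      rw [← add_assoc, ← add_smul]; simp
    have h3 := hf.conv ((1 - σ) • y) (σ • (y + t • v)) (by simp [hy, hσ1]) (by
      rw [Pi.smul_apply, hco]; simpa using hσ0)
    rw [← e, hf.hom _ _ (by linarith), hf.hom _ _ (by linarith)] at h3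
    exact h3
  -- negative derivative
  have hneg : ∀ t : ℝ, 0 < t → f (y + t • v) = s → HasDerivAt (fun t : ℝ => f (y + t • v)) (gr f (y + t • v) ⬝ᵥ v) t ∧
      gr f (y + t • v) ⬝ᵥ v < 0 := by
    intro t ht hft
    have ha : 0 < f (y + t • v) := hft ▸ h0
    have hb : f (y + t • v) < T := hft ▸ hT
    refine ⟨cn_line hf ha hb, ?_⟩
    have h1 := sup1 f T hf (y + t • v) y (by rw [hco]; exact one_pos) (by rw [hy]; exact one_pos) ha hb
      (by rw [hft]; exact hs.le) (by
        intro c hc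
        have h2 := congrFun hc 0
        rw [Pi.smul_apply, hco, hy] at h2
        have h3 : c = 1 := by simpa using h2.symm
        rw [h3, one_smul] at hc
        rw [← hc] at hft
        exact (ne_of_gt hs) hft)
    have h2 := cn_rad hf ha hb
    rw [dotProduct_add, dotProduct_smul, smul_eq_mul] at h2
    by_contra h3
    push Not at h3
    have := mul_nonneg ht.le h3
    linarith
  have hnomin : ∀ t : ℝ, 0 < t → f (y + t • v) = s → ¬ ∀ᶠ t' in 𝓝 t, s ≤ f (y + t' • v) := by
    intro t ht hft hmin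
    obtain ⟨h1, h2⟩ := hneg t ht hft
    have h3 : IsLocalMin (fun t : ℝ => f (y + t • v)) t := by
      filter_upwards [hmin] with t' ht'
      rw [hft]; exact ht'
    have := h3.hasDerivAt_eq_zero h1
    linarith
  -- existence of a large t
  have hlarge : ∃ t : ℝ, 0 < t ∧ f (y + t • v) < s := by
    have hc : ContinuousAt f v := hf.cont.continuousAt (isOpen_compl_singleton.mem_nhds hv)
    have h1 : ∀ᶠ z in 𝓝 v, f z < s := hc.eventually (gt_mem_nhds (by rw [hf.zero v hv0]; exact h0))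
    have h2 : Filter.Tendsto (fun t : ℝ => t⁻¹ • y + v) Filter.atTop (𝓝 v) := by
      have := (tendsto_inv_atTop_zero (𝕜 := ℝ)).smul_const y
      simpa using this.add_const v
    obtain ⟨t, ht, ht0⟩ := ((h2.eventually h1).and (Filter.eventually_gt_atTop 0)).exists
    refine ⟨t, ht0, ?_⟩
    have e : y + t • v = t • (t⁻¹ • y + v) := by
      rw [smul_add, smul_smul, mul_inv_cancel₀ (ne_of_gt ht0), one_smul]
    rw [e, hf.hom _ _ (ne_of_gt ht0)]
    exact ht
  obtain ⟨t₂, ht₂, hft₂⟩ := hlarge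
  obtain ⟨r, hr, hfr⟩ : ∃ r ∈ Set.Icc 0 t₂, f (y + r • v) = s := by
    have := intermediate_value_Icc' ht₂.le hcont.continuousOn
    have hmem : s ∈ Set.Icc (f (y + t₂ • v)) (f (y + (0 : ℝ) • v)) := ⟨hft₂.le, by simpa using hs.le⟩
    obtain ⟨r, hr, hr'⟩ := this hmem
    exact ⟨r, hr, hr'⟩
  have hr0 : 0 < r := by
    rcases hr.1.lt_or_eq with h | h
    · exact h
    · rw [← h] at hfr
      simp only [zero_smul, add_zero] at hfr
      exact absurd hfr (ne_of_gt hs)
  refine ⟨r, hr0, hfr, ?_, ?_⟩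
  · intro t ht htr
    rcases ht.lt_or_eq with h | h
    · have h1 : s ≤ f (y + t • v) := by
        have := hq r t h htr
        rw [hfr, min_eq_right hs.le] at this
        exact this
      rcases h1.lt_or_eq with h2 | h2
      · exact h2
      · exfalso
        refine hnomin t h h2.symm ?_
        filter_upwards [isOpen_Ioo.mem_nhds (show t ∈ Set.Ioo 0 r from ⟨h, htr⟩)] with t' ht'
        have := hq r t' ht'.1 ht'.2
        rw [hfr, min_eq_right hs.le] at this
        exact this
    · rw [← h]; simpa using hs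
  · intro t hrt
    by_contra h
    push Not at h
    refine hnomin r hr0 hfr ?_
    filter_upwards [isOpen_Ioo.mem_nhds (show r ∈ Set.Ioo 0 t from ⟨hr0, hrt⟩)] with t' ht'
    exact le_trans (le_min hs.le h) (hq t t' ht'.1 ht'.2)

private lemma cn_W (hd : 2 ≤ d) : IsPreconnected {v : V d | v 0 = 0 ∧ v ≠ 0} := by
  have hr : 1 < Module.rank ℝ (Fin d → ℝ) := by
    rw [rank_fin_fun]
    exact_mod_cast hd
  have h1 : IsPreconnected ({0}ᶜ : Set (Fin d → ℝ)) := (isConnected_compl_singleton_of_one_lt_rank hr 0).isPreconnected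
  have h2 : Continuous fun w : Fin d → ℝ => (Fin.cons 0 w : V d) := by
    refine continuous_pi fun i => ?_
    refine Fin.cases ?_ (fun j => ?_) i
    · simpa using continuous_const
    · simpa using continuous_apply j
  have h3 := h1.image _ h2.continuousOn
  convert h3 using 1
  ext v
  constructor
  · rintro ⟨hv0, hv⟩
    refine ⟨Fin.tail v, ?_, ?_⟩
    · intro h
      refine hv ?_
      have h' : Fin.tail v = 0 := h
      funext i
      refine Fin.cases hv0 (fun j => ?_) i
      exact congrFun h' j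
    · have := Fin.cons_self_tail v
      rw [hv0] at this
      exact this
  · rintro ⟨w, hw, rfl⟩
    refine ⟨by simp, ?_⟩
    intro h
    refine hw ?_
    funext j
    have := congrFun h j.succ
    simpa using this

theorem conn (hd : 2 ≤ d) (f : V d → ℝ) (T : ℝ) (hf : Layered f T) (s : ℝ) (h0 : 0 < s) (hT : s < T) :
    IsPreconnected {x : V d | x 0 = 1 ∧ f x = s} := by
  rcases Set.eq_empty_or_nonempty {x : V d | x 0 = 1 ∧ f x = s} with he | ⟨P, hP⟩
  · rw [he]; exact isPreconnected_empty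
  obtain ⟨y, hy, hys⟩ := cn_exists hf h0 hT hP.1 hP.2
  have key := fun v hv0 hv => cn_root hf h0 hT hy hys v hv0 hv
  classical
  let r : V d → ℝ := fun v => if h : v 0 = 0 ∧ v ≠ 0 then (key v h.1 h.2).choose else 0
  have hr : ∀ v : V d, v 0 = 0 → v ≠ 0 → 0 < r v ∧ f (y + r v • v) = s ∧ (∀ t, 0 ≤ t → t < r v → s < f (y + t • v)) ∧
      (∀ t, r v < t → f (y + t • v) < s) := by
    intro v hv0 hv
    have : r v = (key v hv0 hv).choose := by simp only [r]; rw [dif_pos ⟨hv0, hv⟩]
    rw [this]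
    exact (key v hv0 hv).choose_spec
  have hfc : ∀ v : V d, v 0 = 0 → ∀ t : ℝ, ContinuousAt (fun w : V d => f (y + t • w)) v := by
    intro v hv0 t
    have hne : y + t • v ≠ 0 := cn_ne0 (by simp [hy, hv0])
    have h1 : ContinuousAt f (y + t • v) := hf.cont.continuousAt (isOpen_compl_singleton.mem_nhds hne)
    exact ContinuousAt.comp (f := fun w : V d => y + t • w) h1 (by fun_prop)
  have hrc : ContinuousOn r {v : V d | v 0 = 0 ∧ v ≠ 0} := by
    intro v hv
    obtain ⟨a1, a2, a3, a4⟩ := hr v hv.1 hv.2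
    rw [ContinuousWithinAt, Metric.tendsto_nhds]
    intro ε hε
    set ε' := min (ε / 2) (r v / 2) with hε'
    have b1 : 0 < ε' := lt_min (by linarith) (by linarith)
    have b2 : ε' < ε := lt_of_le_of_lt (min_le_left _ _) (by linarith)
    have b3 : ε' < r v := lt_of_le_of_lt (min_le_right _ _) (by linarith)
    have c1 : ∀ᶠ w in 𝓝 v, s < f (y + (r v - ε') • w) :=
      (hfc v hv.1 _).eventually (lt_mem_nhds (a3 _ (by linarith) (by linarith)))
    have c2 : ∀ᶠ w in 𝓝 v, f (y + (r v + ε') • w) < s :=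
      (hfc v hv.1 _).eventually (gt_mem_nhds (a4 _ (by linarith)))
    filter_upwards [nhdsWithin_le_nhds c1, nhdsWithin_le_nhds c2, self_mem_nhdsWithin] with w d1 d2 d3
    obtain ⟨e1, e2, e3, e4⟩ := hr w d3.1 d3.2
    have f1 : r v - ε' < r w := by
      by_contra h
      push Not at h
      rcases h.lt_or_eq with h | h
      · exact absurd (e4 _ h) (not_lt.mpr d1.le)
      · rw [← h, e2] at d1; exact lt_irrefl _ d1
    have f2 : r w < r v + ε' := by
      by_contra h
      push Not at h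
      rcases h.lt_or_eq with h | h
      · exact absurd (e3 _ (by linarith) h) (not_lt.mpr d2.le)
      · rw [h, e2] at d2; exact lt_irrefl _ d2
    rw [Real.dist_eq, abs_lt]
    constructor <;> linarith
  have hW := (cn_W hd).image (fun v => y + r v • v) (by
    refine continuousOn_const.add (hrc.smul continuousOn_id))
  convert hW using 1
  ext x
  constructor
  · rintro ⟨hx0, hx⟩
    have hv0 : (x - y) 0 = 0 := by simp [hx0, hy]
    have hv : x - y ≠ 0 := by
      intro h
      rw [sub_eq_zero.mp h] at hx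
      exact (ne_of_gt hys) hx
    obtain ⟨e1, e2, e3, e4⟩ := hr (x - y) hv0 hv
    have hone : f (y + (1 : ℝ) • (x - y)) = s := by simpa using hx
    have hr1 : r (x - y) = 1 := by
      rcases lt_trichotomy (r (x - y)) 1 with h | h | h
      · exact absurd hone (ne_of_lt (e4 1 h))
      · exact h
      · exact absurd hone (ne_of_gt (e3 1 zero_le_one h))
    exact ⟨x - y, ⟨hv0, hv⟩, by simp [hr1]⟩
  · rintro ⟨v, ⟨hv0, hv⟩, rfl⟩
    obtain ⟨e1, e2, e3, e4⟩ := hr v hv0 hv
    exact ⟨by simp [hy, hv0], e2⟩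

end Pool.Agent.Work.MP_659252_gt.QR
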