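import Pool.Agent.Work.MP_659252_gt.QR.Q.Uq
import Pool.Agent.Work.MP_659252_gt.QR.Q.Conn

/-!
# From local quadrics to a global one.  Size: M.

PROOF.  `good x A`: `A` symmetric, `mul A x ≠ 0`, and `bil A y y = 0` for `y` near `x` with `f y = s`.  `S = {x | x 0 = 1, f x = s}`, preconnected.  `R x y`: `∀ A A', good x A → good y A' → ∃ c ≠ 0, A = c A'`.
Locally: let `x ∈ S`, `A₀` with `good x A₀` (`hloc`).  For `y` near `x` in `S`: `good y A₀` (`eventually_eventually_nhds`, continuity of `mul A₀`).  If `good x A`, `good y A'`: `uq` at `x`: `A = c A₀`; `uq` at `y`: `A₀ = c' A'`; so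
`A = c c' A'`, and `c c' ≠ 0` since `A ≠ 0`.  So `R x y`; `R` is symmetric and transitive (through an element which has a good matrix, `hloc`).  `IsPreconnected.induction₂` (or `induction₂'`): `R x y` for all `x`, `y ∈ S`.
Let `P` be given, `P₁ = (P 0)⁻¹ P ∈ S`, `good P₁ A` for some `A`.  For `x` with `f x = s`: `x 0 ≠ 0` (`zero`, `s > 0`), `x₁ = (x 0)⁻¹ x ∈ S`, with `good x₁ A'`; `A = c A'`, `bil A' x₁ x₁ = 0`, so `bil A x₁ x₁ = 0`, `bil A x x = 0`.
-/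

namespace Pool.Agent.Work.MP_659252_gt.QR

open scoped ContDiff Topology
open Pool.Agent.Work.MP_659252_gt.Z (V Ten val Tan InT IsZoll IsMetric IsGeodesic)

variable {d : ℕ}

private theorem gl_smul (M : Mat d) (c : ℝ) (x : V d) : bil M (c • x) (c • x) = c ^ 2 * bil M x x := by
  simp only [bil, Finset.mul_sum]
  refine Finset.sum_congr rfl fun i _ => Finset.sum_congr rfl fun j _ => ?_
  simp only [Pi.smul_apply, smul_eq_mul]
  ring

private theorem gl_cmul (A A' : Mat d) (c : ℝ) (h : ∀ i j, A i j = c * A' i j) (x y : V d) :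
    bil A x y = c * bil A' x y := by
  simp only [bil, Finset.mul_sum]
  refine Finset.sum_congr rfl fun i _ => Finset.sum_congr rfl fun j _ => ?_
  rw [h i j]
  ring

private theorem gl_mulc (A A' : Mat d) (c : ℝ) (h : ∀ i j, A i j = c * A' i j) (x : V d) :
    mul A x = c • mul A' x := by
  funext i
  simp only [mul, Pi.smul_apply, smul_eq_mul, Finset.mul_sum]
  refine Finset.sum_congr rfl fun j _ => ?_
  rw [h i j]
  ring

private theorem gl_muls (A : Mat d) (c : ℝ) (x : V d) : mul A (c • x) = c • mul A x := by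
  funext i
  simp only [mul, Pi.smul_apply, smul_eq_mul, Finset.mul_sum]
  refine Finset.sum_congr rfl fun j _ => ?_
  ring

private theorem gl_cont (A : Mat d) : Continuous fun x : V d => mul A x := by
  unfold mul
  fun_prop

/-- `A` is a good matrix at `x`. -/
private def Good (f : V d → ℝ) (s : ℝ) (x : V d) (A : Mat d) : Prop :=
  (∀ i j, A i j = A j i) ∧ mul A x ≠ 0 ∧ ∀ᶠ y in 𝓝 x, f y = s → bil A y y = 0

theorem glob (hd : 2 ≤ d) (f : V d → ℝ) (T : ℝ) (hf : Layered f T) (s : ℝ) (h0 : 0 < s) (hT : s < T)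
    (hloc : ∀ x : V d, 0 < x 0 → f x = s → ∃ A : Mat d, (∀ i j, A i j = A j i) ∧ mul A x ≠ 0 ∧
      ∀ᶠ y in 𝓝 x, f y = s → bil A y y = 0) (P : V d) (P0 : 0 < P 0) (hP : f P = s) :
    ∃ A : Mat d, (∀ i j, A i j = A j i) ∧ mul A P ≠ 0 ∧ ∀ x, f x = s → bil A x x = 0 := by
  -- comparison of two good matrices at one point
  have hcmp : ∀ x : V d, 0 < x 0 → f x = s → ∀ A A' : Mat d, Good f s x A → Good f s x A' →
      ∃ c : ℝ, c ≠ 0 ∧ ∀ i j, A i j = c * A' i j := by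
    intro x hx0 hx A A' hA hA'
    obtain ⟨c, hc⟩ := uq hd f T hf s h0 hT x hx0 hx A A' hA.1 hA'.1 hA.2.2 hA'.2.2 hA'.2.1
    refine ⟨c, ?_, hc⟩
    rintro rfl
    apply hA.2.1
    rw [gl_mulc A A' 0 hc, zero_smul]
  let R : V d → V d → Prop := fun x y => ∀ A A' : Mat d, Good f s x A → Good f s y A' →
    ∃ c : ℝ, c ≠ 0 ∧ ∀ i j, A i j = c * A' i j
  have hR : ∀ x ∈ {x : V d | x 0 = 1 ∧ f x = s}, ∀ y ∈ {x : V d | x 0 = 1 ∧ f x = s}, R x y := by
    intro x hx y hy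
    refine (conn hd f T hf s h0 hT).induction₂ R ?_ ?_ ?_ hx hy
    · rintro x ⟨hx0, hx⟩
      obtain ⟨A₀, hA₀⟩ := hloc x (by rw [hx0]; exact one_pos) hx
      have h1 : ∀ᶠ y in 𝓝 x, ∀ᶠ z in 𝓝 y, f z = s → bil A₀ z z = 0 := hA₀.2.2.eventually_nhds
      have h2 : ∀ᶠ y in 𝓝 x, mul A₀ y ≠ 0 :=
        (gl_cont A₀).continuousAt.eventually_ne hA₀.2.1
      rw [eventually_nhdsWithin_iff]
      filter_upwards [h1, h2] with y h1 h2 hy A A' hA hA'
      obtain ⟨c, hc, hcc⟩ := hcmp x (by rw [hx0]; exact one_pos) hx A A₀ hA hA₀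
      obtain ⟨c', hc', hcc'⟩ := hcmp y (by rw [hy.1]; exact one_pos) hy.2 A₀ A' ⟨hA₀.1, h2, h1⟩ hA'
      refine ⟨c * c', mul_ne_zero hc hc', fun i j => ?_⟩
      rw [hcc, hcc', mul_assoc]
    · intro x y z _ hy _ hxy hyz A A' hA hA'
      obtain ⟨B, hB⟩ := hloc y (by rw [hy.1]; exact one_pos) hy.2
      obtain ⟨c, hc, hcc⟩ := hxy A B hA hB
      obtain ⟨c', hc', hcc'⟩ := hyz B A' hB hA'
      refine ⟨c * c', mul_ne_zero hc hc', fun i j => ?_⟩
      rw [hcc, hcc', mul_assoc]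
    · intro x y _ _ hxy A A' hA hA'
      obtain ⟨c, hc, hcc⟩ := hxy A' A hA' hA
      refine ⟨c⁻¹, inv_ne_zero hc, fun i j => ?_⟩
      rw [hcc, ← mul_assoc, inv_mul_cancel₀ hc, one_mul]
  have hnorm : ∀ x : V d, x 0 ≠ 0 → f x = s → ((x 0)⁻¹ • x) ∈ {x : V d | x 0 = 1 ∧ f x = s} := by
    intro x hx0 hx
    refine ⟨?_, ?_⟩
    · simp [hx0]
    · rw [hf.hom _ _ (inv_ne_zero hx0), hx]
  have hP1 := hnorm P P0.ne' hP
  obtain ⟨A, hA⟩ := hloc _ (by rw [hP1.1]; exact one_pos) hP1.2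
  refine ⟨A, hA.1, ?_, fun x hx => ?_⟩
  · intro h
    apply hA.2.1
    rw [gl_muls, h, smul_zero]
  · have hx0 : x 0 ≠ 0 := by
      intro h
      have := hf.zero x h
      rw [hx] at this
      exact h0.ne' this
    have hx1 := hnorm x hx0 hx
    obtain ⟨A', hA'⟩ := hloc _ (by rw [hx1.1]; exact one_pos) hx1.2
    obtain ⟨c, _, hc⟩ := hR _ hP1 _ hx1 A A' hA hA'
    have h1 : bil A' ((x 0)⁻¹ • x) ((x 0)⁻¹ • x) = 0 := hA'.2.2.self_of_nhds hx1.2
    have h2 : bil A ((x 0)⁻¹ • x) ((x 0)⁻¹ • x) = 0 := by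
      rw [gl_cmul A A' c hc, h1, mul_zero]
    rw [gl_smul] at h2
    exact (mul_eq_zero.mp h2).resolve_left (pow_ne_zero 2 (inv_ne_zero hx0))

end Pool.Agent.Work.MP_659252_gt.QR
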