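import Pool.Agent.Work.MP_659252_gt.QR.Q.Sup

/-!
# The level set is the whole cone of the quadric.  Size: M.

PROOF.  (1) There is `y` with `0 < y 0`, `f y > s`, `bil A y y ≠ 0`: the set `{y | 0 < y 0, f y > s}` is open (`f` continuous away from `0`) and not empty (near `P`, `gr f P ≠ 0`); if the quadratic form `bil A` vanished on a nonempty open set it would
vanish everywhere (`bil A (y + t v) (y + t v) = bil A y y + 2 t bil A y v + t² bil A v v`, all small `t`), and then by polarisation `bil A P v = 0` for all `v`, against `mul A P ≠ 0`.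
(2) Let `v ≠ 0`, `v 0 = 0`.  `h t = f (y + t v)` is continuous on `ℝ` (`(y + t v) 0 = y 0 > 0`), `h 0 > s`, and `h t = f (t⁻¹ y + v) → f v = 0` for `t → ±∞` (`hom`, `zero`, continuity at `v`); so there are `t₁ < 0 < t₂` with `h t₁ = h t₂ = s`.  The
polynomial `α + 2 β t + γ t² = bil A (y + t v) (y + t v)` (`α = bil A y y ≠ 0`, `β = bil A y v`, `γ = bil A v v`) vanishes at `t₁ ≠ t₂`, so `γ ≠ 0` (otherwise `β = 0`, `α = 0`) and its zeros are exactly `t₁`, `t₂`.
(3) Let `x ≠ 0`, `bil A x x = 0`.  If `x 0 = 0`: `v = x` contradicts `γ ≠ 0`.  If `x 0 ≠ 0`: `v = (y 0/x 0) x - y`, `v 0 = 0`; `v = 0` would give `bil A y y = 0`; and `bil A (y + 1 v) (y + 1 v) = 0`, so `1 ∈ {t₁, t₂}` and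
`f (y + v) = s`, `f x = s` by `hom`.
-/

namespace Pool.Agent.Work.MP_659252_gt.QR

open scoped ContDiff Topology
open Pool.Agent.Work.MP_659252_gt.Z (V Ten val Tan InT IsZoll IsMetric IsGeodesic)

variable {d : ℕ}

private theorem bil_line (A : Mat d) (hA : ∀ i j, A i j = A j i) (y v : V d) (t : ℝ) :
    bil A (y + t • v) (y + t • v) = bil A y y + 2 * bil A y v * t + bil A v v * t ^ 2 := by
  rw [bil_add_left, bil_add_right, bil_add_right, bil_smul_left, bil_smul_left, bil_smul_right, bil_smul_right,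
    bil_comm hA v y]
  ring

private theorem line_cont {f : V d → ℝ} {T : ℝ} (hf : Layered f T) (y v : V d) (hy : 0 < y 0) (hv : v 0 = 0) :
    Continuous (fun t : ℝ => f (y + t • v)) := by
  rw [continuous_iff_continuousAt]
  intro t
  have hne : y + t • v ≠ 0 := by
    intro h
    have h1 := congrFun h 0
    simp [hv] at h1
    exact hy.ne' h1
  have h1 : ContinuousAt f (y + t • v) :=
    hf.cont.continuousAt (isOpen_compl_singleton.mem_nhds hne)
  have h2 : ContinuousAt (fun t : ℝ => y + t • v) t := by fun_prop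
  exact ContinuousAt.comp (g := f) (f := fun t : ℝ => y + t • v) h1 h2

private theorem line_zero {f : V d → ℝ} {T : ℝ} (hf : Layered f T) (y v : V d) (hv : v 0 = 0)
    (hv0 : v ≠ 0) (s : ℝ) (hs : 0 < s) : ∃ δ : ℝ, 0 < δ ∧ ∀ c : ℝ, |c| < δ → f (c • y + v) < s := by
  have h1 : ContinuousAt f v := hf.cont.continuousAt (isOpen_compl_singleton.mem_nhds hv0)
  have h2 : ContinuousAt (fun c : ℝ => f (c • y + v)) 0 := by
    have h3 : ContinuousAt (fun c : ℝ => c • y + v) 0 := by fun_prop
    refine ContinuousAt.comp (g := f) (f := fun c : ℝ => c • y + v) ?_ h3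
    simpa using h1
  have h4 : f ((0 : ℝ) • y + v) < s := by
    rw [zero_smul, zero_add, hf.zero v hv]
    exact hs
  have h5 := h2.eventually_lt_const h4
  obtain ⟨δ, hδ, h6⟩ := Metric.eventually_nhds_iff.1 h5
  exact ⟨δ, hδ, fun c hc => h6 (by simpa using hc)⟩

private theorem roots {f : V d → ℝ} {T : ℝ} (hf : Layered f T) (s : ℝ) (h0 : 0 < s) (y v : V d) (hy : 0 < y 0)
    (hys : s < f y) (hv : v 0 = 0) (hv0 : v ≠ 0) : ∃ t₁ t₂ : ℝ, t₁ < 0 ∧ 0 < t₂ ∧ f (y + t₁ • v) = s ∧
      f (y + t₂ • v) = s := by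
  obtain ⟨δ, hδ, hlt⟩ := line_zero hf y v hv hv0 s h0
  have hc := line_cont hf y v hy hv
  have hfar : ∀ t : ℝ, t ≠ 0 → |t⁻¹| < δ → f (y + t • v) < s := by
    intro t ht hlt'
    have h1 := hlt t⁻¹ hlt'
    have h2 : y + t • v = t • (t⁻¹ • y + v) := by
      rw [smul_add, smul_smul, mul_inv_cancel₀ ht, one_smul]
    rw [h2, hf.hom t _ ht]
    exact h1
  have hval0 : s < (fun t : ℝ => f (y + t • v)) 0 := by simpa using hys
  have hb : |((2 / δ : ℝ))⁻¹| < δ := by
    rw [abs_of_pos (by positivity)]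
    rw [inv_div]
    linarith
  have hb' : |((-(2 / δ) : ℝ))⁻¹| < δ := by
    rw [inv_neg, abs_neg]
    exact hb
  have h2pos : 0 < 2 / δ := by positivity
  have hR := hfar (2 / δ) h2pos.ne' hb
  have hL := hfar (-(2 / δ)) (neg_ne_zero.2 h2pos.ne') hb'
  obtain ⟨t₂, ht₂, e₂⟩ := intermediate_value_Icc' h2pos.le hc.continuousOn ⟨hR.le, hval0.le⟩
  obtain ⟨t₁, ht₁, e₁⟩ := intermediate_value_Icc (neg_nonpos.2 h2pos.le) hc.continuousOn ⟨hL.le, hval0.le⟩
  refine ⟨t₁, t₂, ?_, ?_, e₁, e₂⟩
  · rcases ht₁.2.lt_or_eq with h | h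
    · exact h
    · exfalso
      rw [h] at e₁
      exact absurd e₁ hval0.ne'
  · rcases ht₂.1.lt_or_eq with h | h
    · exact h
    · exfalso
      rw [← h] at e₂
      exact absurd e₂ hval0.ne'

private theorem exists_y {f : V d → ℝ} {T : ℝ} (hf : Layered f T) (s : ℝ) (h0 : 0 < s) (hT : s < T) (P : V d)
    (P0 : 0 < P 0) (hP : f P = s) (A : Mat d) (hA : ∀ i j, A i j = A j i) (hAP : mul A P ≠ 0) :
    ∃ y : V d, 0 < y 0 ∧ s < f y ∧ bil A y y ≠ 0 := by
  have hP0 : P ≠ 0 := by
    rintro rfl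
    simp at P0
  -- a direction in which f increases
  have hsm : ∀ z : V d, 0 < f z → f z < T → z ≠ 0 → DifferentiableAt ℝ f z := by
    intro z hz1 hz2 hz3
    have hopen : {x | 0 < f x ∧ f x < T} ∈ 𝓝 z := by
      have h1 : ContinuousAt f z := hf.cont.continuousAt (isOpen_compl_singleton.mem_nhds hz3)
      exact (h1.eventually_const_lt hz1).and (h1.eventually_lt_const hz2)
    exact (hf.smooth.contDiffAt hopen).differentiableAt (by simp)
  have hgr : gr f P ≠ 0 := hf.reg P (by rw [hP]; exact h0) (by rw [hP]; exact hT)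
  have hdf : DifferentiableAt ℝ f P := hsm P (by rw [hP]; exact h0) (by rw [hP]; exact hT) hP0
  obtain ⟨i, hi⟩ : ∃ i, gr f P i ≠ 0 := by
    by_contra hcon
    push Not at hcon
    exact hgr (funext hcon)
  -- the sign
  let e : V d := gr f P i • (Pi.single i 1 : V d)
  have he : 0 < fderiv ℝ f P e := by
    have : fderiv ℝ f P e = gr f P i * gr f P i := by
      simp only [e, map_smul, smul_eq_mul]
      rfl
    rw [this]
    exact mul_self_pos.2 hi
  have hline : HasDerivAt (fun t : ℝ => f (P + t • e)) (fderiv ℝ f P e) 0 := by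
    have h1 : HasDerivAt (fun t : ℝ => P + t • e) e 0 := by
      simpa using ((hasDerivAt_id (0 : ℝ)).smul_const e).const_add P
    have h2 : HasFDerivAt f (fderiv ℝ f P) (P + (0 : ℝ) • e) := by
      simpa using hdf.hasFDerivAt
    exact h2.comp_hasDerivAt (0 : ℝ) h1
  have hev : ∀ᶠ t : ℝ in 𝓝[>] 0, s < f (P + t • e) := by
    have h1 := hline.tendsto_slope_zero_right
    have h2 := h1.eventually_const_lt he
    filter_upwards [h2, self_mem_nhdsWithin] with t ht ht0
    rw [zero_add, zero_smul, add_zero, hP, smul_eq_mul] at ht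
    have ht0' : (0 : ℝ) < t := ht0
    have h3 : 0 < f (P + t • e) - s := by
      by_contra hcon
      push Not at hcon
      have : t⁻¹ * (f (P + t • e) - s) ≤ 0 := mul_nonpos_of_nonneg_of_nonpos (inv_nonneg.2 ht0'.le) hcon
      linarith
    linarith
  have hev0 : ∀ᶠ t : ℝ in 𝓝[>] 0, 0 < (P + t • e) 0 := by
    have h1 : ContinuousAt (fun t : ℝ => (P + t • e) 0) 0 := by
      have : (fun t : ℝ => (P + t • e) 0) = fun t : ℝ => P 0 + t * e 0 := by
        funext t
        simp
      rw [this]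
      fun_prop
    have h2 : 0 < (P + (0 : ℝ) • e) 0 := by simpa using P0
    exact (h1.eventually_const_lt h2).filter_mono nhdsWithin_le_nhds
  obtain ⟨t, ht1, ht2⟩ := (hev.and hev0).exists
  set z : V d := P + t • e with hz
  have hz0 : z ≠ 0 := by
    intro h
    rw [h] at ht2
    simp at ht2
  have hzc : ContinuousAt f z := hf.cont.continuousAt (isOpen_compl_singleton.mem_nhds hz0)
  by_contra hcon
  push Not at hcon
  -- the form vanishes near z
  have hzero : ∀ v : V d, bil A z v = 0 ∧ bil A v v = 0 := by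
    intro v
    have h1 : ContinuousAt (fun t : ℝ => f (z + t • v)) 0 := by
      have h3 : ContinuousAt (fun t : ℝ => z + t • v) 0 := by fun_prop
      refine ContinuousAt.comp (g := f) (f := fun t : ℝ => z + t • v) ?_ h3
      simpa using hzc
    have h2 : s < f (z + (0 : ℝ) • v) := by simpa using ht1
    have h3 : ContinuousAt (fun t : ℝ => (z + t • v) 0) 0 := by
      have : (fun t : ℝ => (z + t • v) 0) = fun t : ℝ => z 0 + t * v 0 := by
        funext t
        simp
      rw [this]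
      fun_prop
    have h4 : 0 < (z + (0 : ℝ) • v) 0 := by simpa using ht2
    have h5 := (h1.eventually_const_lt h2).and (h3.eventually_const_lt h4)
    obtain ⟨δ, hδ, h6⟩ := Metric.eventually_nhds_iff.1 h5
    have h7 : ∀ t : ℝ, |t| < δ → bil A z z + 2 * bil A z v * t + bil A v v * t ^ 2 = 0 := by
      intro t ht
      obtain ⟨h8, h9⟩ := h6 (y := t) (by simpa using ht)
      rw [← bil_line A hA z v t]
      exact hcon _ h9 h8
    have c0 := h7 0 (by simpa using hδ)
    have c1 := h7 (δ / 2) (by rw [abs_of_pos (by positivity)]; linarith)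
    have c2 := h7 (-(δ / 2)) (by rw [abs_neg, abs_of_pos (by positivity)]; linarith)
    have d1 : bil A v v * (δ / 2) ^ 2 = 0 := by linarith
    have d2 : bil A z v * (δ / 2) = 0 := by linarith
    exact ⟨(mul_eq_zero.1 d2).resolve_right (by positivity), (mul_eq_zero.1 d1).resolve_right (by positivity)⟩
  apply hAP
  refine vec_ext fun v => ?_
  have e1 := (hzero (P + v)).2
  rw [bil_add_left, bil_add_right, bil_add_right, bil_comm hA v P, (hzero P).2, (hzero v).2] at e1
  have e2 : bil A P v = 0 := by linarith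
  rw [bil_comm hA, bil_eq_dot] at e2
  rw [dotProduct_comm, e2]
  simp

theorem iffQ (f : V d → ℝ) (T : ℝ) (hf : Layered f T) (s : ℝ) (h0 : 0 < s) (hT : s < T) (P : V d) (P0 : 0 < P 0)
    (hP : f P = s) (A : Mat d) (hA : ∀ i j, A i j = A j i) (hAP : mul A P ≠ 0) (h : ∀ x, f x = s → bil A x x = 0)
    (x : V d) (hx : x ≠ 0) : f x = s ↔ bil A x x = 0 := by
  obtain ⟨y, hy0, hys, hyA⟩ := exists_y hf s h0 hT P P0 hP A hA hAP
  refine ⟨h x, fun hxA => ?_⟩
  -- the polynomial on lines
  have hγ : ∀ v : V d, v 0 = 0 → v ≠ 0 → ∃ t₁ t₂ : ℝ, f (y + t₁ • v) = s ∧ f (y + t₂ • v) = s ∧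
      bil A v v ≠ 0 ∧ ∀ t : ℝ, bil A (y + t • v) (y + t • v) = 0 → t = t₁ ∨ t = t₂ := by
    intro v hv hv0
    obtain ⟨t₁, t₂, ht₁, ht₂, e₁, e₂⟩ := roots hf s h0 y v hy0 hys hv hv0
    have q₁ := h _ e₁
    have q₂ := h _ e₂
    rw [bil_line A hA y v] at q₁ q₂
    have hne : t₁ ≠ t₂ := by linarith
    have hsum : 2 * bil A y v + bil A v v * (t₁ + t₂) = 0 := by
      have h3 : (t₁ - t₂) * (2 * bil A y v + bil A v v * (t₁ + t₂)) = 0 := by linear_combination q₁ - q₂
      exact (mul_eq_zero.1 h3).resolve_left (sub_ne_zero.2 hne)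
    have hprod : bil A y y = bil A v v * (t₁ * t₂) := by linear_combination q₁ - t₁ * hsum
    have hg : bil A v v ≠ 0 := by
      intro h3
      rw [h3, zero_mul] at hprod
      exact hyA hprod
    refine ⟨t₁, t₂, e₁, e₂, hg, fun t ht => ?_⟩
    rw [bil_line A hA y v] at ht
    have h4 : bil A v v * ((t - t₁) * (t - t₂)) = 0 := by
      linear_combination ht - hprod - t * hsum
    rcases mul_eq_zero.1 h4 with h5 | h5
    · exact absurd h5 hg
    · rcases mul_eq_zero.1 h5 with h6 | h6
      · left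
        linarith
      · right
        linarith
  by_cases hx0 : x 0 = 0
  · obtain ⟨t₁, t₂, -, -, hg, -⟩ := hγ x hx0 hx
    exact absurd hxA hg
  · set c : ℝ := y 0 / x 0 with hc
    have hc0 : c ≠ 0 := div_ne_zero hy0.ne' hx0
    set v : V d := c • x - y with hv
    have hv0 : v 0 = 0 := by
      simp only [hv, Pi.sub_apply, Pi.smul_apply, smul_eq_mul, hc]
      field_simp
      ring
    have hcx : bil A (c • x) (c • x) = 0 := by
      rw [bil_smul_left, bil_smul_right, hxA]
      ring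
    have hvne : v ≠ 0 := by
      intro h3
      have h4 : c • x = y := sub_eq_zero.1 h3
      rw [h4] at hcx
      exact hyA hcx
    obtain ⟨t₁, t₂, e₁, e₂, -, hroot⟩ := hγ v hv0 hvne
    have h5 : y + (1 : ℝ) • v = c • x := by
      rw [one_smul, hv]
      abel
    have h6 : f (c • x) = s := by
      rcases hroot 1 (by rw [h5]; exact hcx) with h7 | h7
      · rw [← h7, h5] at e₁
        exact e₁
      · rw [← h7, h5] at e₂
        exact e₂
    rw [hf.hom c x hc0] at h6
    exact h6

end Pool.Agent.Work.MP_659252_gt.QR
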