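import Pool.Agent.Work.MP_659252_gt.QR.Bas

/-!
# The level set is a graph.  Size: M.

PROOF.  `Φ (y, t) = (y, f (P + y + t n))` from `V d × ℝ` to itself, smooth near `(0, 0)` (`P ≠ 0`), with strict derivative at `(0, 0)`: `(h, τ) ↦ (h, fderiv f P h + τ fderiv f P n)`, which is invertible because `fderiv f P n ≠ 0`
(give the `ContinuousLinearEquiv` explicitly, inverse `(h, σ) ↦ (h, (σ - fderiv f P h)/fderiv f P n)`).  The inverse function theorem (`ContDiffAt.toOpenPartialHomeomorph` (or `toPartialHomeomorph`), `ContDiffAt.to_localInverse`) gives a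
local inverse `Ψ`, smooth near `(0, f P)`; put `u y = (Ψ (y, f P)).2`.  Then `(Ψ (y, f P)).1 = y` and `f (P + y + u y n) = f P` for `y` near `0`, `u 0 = 0`, and for `z = (y, t)` near `(0, 0)` with `f (P + y + t n) = f P`:
`Φ z = (y, f P)`, so `z = Ψ (y, f P)`, `t = u y`.  (Alternatively `HasStrictFDerivAt.implicitFunction` with smoothness.)  Smoothness of `u` on a ball: `ContDiffAt ℝ ∞` at `0` gives only finite orders near `0` in general, so use that `Φ` is
smooth at every point near `(0, 0)` with invertible derivative, and `OpenPartialHomeomorph.contDiffAt_symm` at every point; or shrink the ball so that `fderiv f (..) n ≠ 0` on it and apply `contDiffAt_symm` at each point.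
The inequalities `0 < (P + y + u y n) 0` and `fderiv f (P + y + u y n) n ≠ 0` hold near `y = 0` by continuity (`n 0 = 0` is not needed).
-/

namespace Pool.Agent.Work.MP_659252_gt.QR

open scoped ContDiff Topology
open Pool.Agent.Work.MP_659252_gt.Z (V Ten val Tan InT IsZoll IsMetric IsGeodesic)

variable {d : ℕ}

/-- The linear equivalence `(h, τ) ↦ (h, L h + τ L n)`. -/
private noncomputable def eqv (L : V d →L[ℝ] ℝ) (n : V d) (hn : L n ≠ 0) : (V d × ℝ) ≃L[ℝ] (V d × ℝ) :=
  ContinuousLinearEquiv.equivOfInverse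
    ((ContinuousLinearMap.fst ℝ (V d) ℝ).prod
      (L.comp (ContinuousLinearMap.fst ℝ (V d) ℝ + (ContinuousLinearMap.snd ℝ (V d) ℝ).smulRight n)))
    ((ContinuousLinearMap.fst ℝ (V d) ℝ).prod
      ((L n)⁻¹ • (ContinuousLinearMap.snd ℝ (V d) ℝ - L.comp (ContinuousLinearMap.fst ℝ (V d) ℝ))))
    (by
      rintro ⟨h, τ⟩
      simp only [ContinuousLinearMap.prod_apply, ContinuousLinearMap.coe_fst', ContinuousLinearMap.coe_comp',
        Function.comp_apply, ContinuousLinearMap.add_apply, ContinuousLinearMap.smulRight_apply,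
        ContinuousLinearMap.coe_snd', map_add, map_smul, smul_eq_mul, ContinuousLinearMap.smul_apply,
        ContinuousLinearMap.sub_apply]
      refine Prod.ext rfl ?_
      simp only
      field_simp
      ring)
    (by
      rintro ⟨h, τ⟩
      simp only [ContinuousLinearMap.prod_apply, ContinuousLinearMap.coe_fst', ContinuousLinearMap.coe_comp',
        Function.comp_apply, ContinuousLinearMap.add_apply, ContinuousLinearMap.smulRight_apply,
        ContinuousLinearMap.coe_snd', map_add, map_smul, smul_eq_mul, ContinuousLinearMap.smul_apply,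
        ContinuousLinearMap.sub_apply]
      refine Prod.ext rfl ?_
      simp only
      field_simp
      ring)

private lemma strict (f : V d → ℝ) (fs : ContDiffOn ℝ ∞ f {0}ᶜ) (P : V d) (n : V d) (z : V d × ℝ)
    (hz : P + z.1 + z.2 • n ≠ 0) (hn : fderiv ℝ f (P + z.1 + z.2 • n) n ≠ 0) :
    HasStrictFDerivAt (fun z : V d × ℝ => (z.1, f (P + z.1 + z.2 • n)))
      ((eqv (fderiv ℝ f (P + z.1 + z.2 • n)) n hn : (V d × ℝ) ≃L[ℝ] (V d × ℝ)) : (V d × ℝ) →L[ℝ] (V d × ℝ)) z := by
  have h1 : ContDiffAt ℝ ∞ f (P + z.1 + z.2 • n) :=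
    (fs _ hz).contDiffAt (isOpen_compl_singleton.mem_nhds hz)
  have h2 : HasStrictFDerivAt f (fderiv ℝ f (P + z.1 + z.2 • n)) (P + z.1 + z.2 • n) :=
    h1.hasStrictFDerivAt (by simp)
  have h3 : HasStrictFDerivAt (fun z : V d × ℝ => P + z.1 + z.2 • n)
      (ContinuousLinearMap.fst ℝ (V d) ℝ + (ContinuousLinearMap.snd ℝ (V d) ℝ).smulRight n) z := by
    have ha : HasStrictFDerivAt (fun z : V d × ℝ => P + z.1) (ContinuousLinearMap.fst ℝ (V d) ℝ) z :=
      (ContinuousLinearMap.fst ℝ (V d) ℝ).hasStrictFDerivAt.const_add P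
    have hb : HasStrictFDerivAt (fun z : V d × ℝ => z.2 • n)
        ((ContinuousLinearMap.snd ℝ (V d) ℝ).smulRight n) z :=
      ((ContinuousLinearMap.snd ℝ (V d) ℝ).smulRight n).hasStrictFDerivAt
    exact ha.add hb
  have h4 := h2.comp z h3
  exact (ContinuousLinearMap.fst ℝ (V d) ℝ).hasStrictFDerivAt.prodMk h4

private lemma smooth (f : V d → ℝ) (fs : ContDiffOn ℝ ∞ f {0}ᶜ) (P : V d) (n : V d) (z : V d × ℝ)
    (hz : P + z.1 + z.2 • n ≠ 0) :
    ContDiffAt ℝ ∞ (fun z : V d × ℝ => (z.1, f (P + z.1 + z.2 • n))) z := by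
  have h1 : ContDiffAt ℝ ∞ f (P + z.1 + z.2 • n) :=
    (fs _ hz).contDiffAt (isOpen_compl_singleton.mem_nhds hz)
  have h3 : ContDiffAt ℝ ∞ (fun z : V d × ℝ => P + z.1 + z.2 • n) z := by
    fun_prop
  exact contDiffAt_fst.prodMk (h1.comp z h3)

theorem graph (f : V d → ℝ) (fs : ContDiffOn ℝ ∞ f {0}ᶜ) (P : V d) (P0 : 0 < P 0) (n : V d)
    (hn : fderiv ℝ f P n ≠ 0) : ∃ (u : V d → ℝ) (r : ℝ), 0 < r ∧ ContDiffOn ℝ ∞ u (Metric.ball 0 r) ∧ u 0 = 0 ∧
      (∀ y ∈ Metric.ball (0 : V d) r, 0 < (P + y + u y • n) 0 ∧ f (P + y + u y • n) = f P ∧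
        fderiv ℝ f (P + y + u y • n) n ≠ 0) ∧
      ∀ᶠ z : V d × ℝ in 𝓝 (0, 0), f (P + z.1 + z.2 • n) = f P → z.2 = u z.1 := by
  classical
  set Φ : V d × ℝ → V d × ℝ := fun z => (z.1, f (P + z.1 + z.2 • n)) with hΦ
  have P00 : P ≠ 0 := by
    intro h
    rw [h] at P0
    simp at P0
  have a0 : P + (0 : V d) + (0 : ℝ) • n = P := by simp
  have hz0 : P + ((0, 0) : V d × ℝ).1 + ((0, 0) : V d × ℝ).2 • n ≠ 0 := by
    simpa using P00
  have hn0 : fderiv ℝ f (P + ((0, 0) : V d × ℝ).1 + ((0, 0) : V d × ℝ).2 • n) n ≠ 0 := by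
    simpa using hn
  have hst := strict f fs P n (0, 0) hz0 hn0
  set H : OpenPartialHomeomorph (V d × ℝ) (V d × ℝ) := hst.toOpenPartialHomeomorph Φ with hH
  have Hc : ∀ z, H z = Φ z := fun z => rfl
  have Hs : ((0, 0) : V d × ℝ) ∈ H.source := hst.mem_toOpenPartialHomeomorph_source
  have H0 : H (0, 0) = (0, f P) := by
    rw [Hc]
    simp [hΦ]
  have Ht : ((0, f P) : V d × ℝ) ∈ H.target := by
    rw [← H0]
    exact H.map_source Hs
  have Hi : H.symm (0, f P) = (0, 0) := by
    rw [← H0]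
    exact H.left_inv Hs
  have cs : ContinuousAt (fun y : V d => H.symm (y, f P)) 0 := by
    have h1 : ContinuousAt H.symm (0, f P) := H.continuousAt_symm Ht
    have h2 : ContinuousAt (fun y : V d => (y, f P)) 0 := by fun_prop
    exact ContinuousAt.comp (f := fun y : V d => (y, f P)) (x := (0 : V d)) h1 h2
  have cA : Continuous (fun z : V d × ℝ => P + z.1 + z.2 • n) := by fun_prop
  have cB : ContinuousAt (fun y : V d => P + (H.symm (y, f P)).1 + (H.symm (y, f P)).2 • n) 0 :=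
    ContinuousAt.comp (f := fun y : V d => H.symm (y, f P)) (x := (0 : V d)) cA.continuousAt cs
  have B0 : P + (H.symm ((0 : V d), f P)).1 + (H.symm ((0 : V d), f P)).2 • n = P := by
    rw [Hi]; simp
  have E1 : ∀ᶠ y : V d in 𝓝 0, (y, f P) ∈ H.target := by
    have h2 : ContinuousAt (fun y : V d => (y, f P)) 0 := by fun_prop
    exact h2.eventually (H.open_target.mem_nhds Ht)
  have E2 : ∀ᶠ y : V d in 𝓝 0, 0 < (P + (H.symm (y, f P)).1 + (H.symm (y, f P)).2 • n) 0 := by
    have h3 : ContinuousAt (fun y : V d => (P + (H.symm (y, f P)).1 + (H.symm (y, f P)).2 • n) 0) 0 :=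
      ContinuousAt.comp (g := fun v : V d => v 0)
        (f := fun y : V d => P + (H.symm (y, f P)).1 + (H.symm (y, f P)).2 • n) (x := (0 : V d))
        (continuous_apply 0).continuousAt cB
    have h4 : 0 < (P + (H.symm ((0 : V d), f P)).1 + (H.symm ((0 : V d), f P)).2 • n) 0 := by
      rw [B0]; exact P0
    exact h3.eventually (lt_mem_nhds h4)
  have E3 : ∀ᶠ y : V d in 𝓝 0,
      fderiv ℝ f (P + (H.symm (y, f P)).1 + (H.symm (y, f P)).2 • n) n ≠ 0 := by
    have h1 : ContDiffAt ℝ ∞ f P := (fs _ P00).contDiffAt (isOpen_compl_singleton.mem_nhds P00)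
    have h5 : ContinuousAt (fun x => fderiv ℝ f x) P :=
      (h1.fderiv_right (m := 0) (by simp)).continuousAt
    have h6 : ContinuousAt (fun x => fderiv ℝ f x n) P := h5.clm_apply continuousAt_const
    rw [← B0] at h6
    have h7 := ContinuousAt.comp (g := fun x => fderiv ℝ f x n)
        (f := fun y : V d => P + (H.symm (y, f P)).1 + (H.symm (y, f P)).2 • n) (x := (0 : V d)) h6 cB
    have h8 : fderiv ℝ f (P + (H.symm ((0 : V d), f P)).1 + (H.symm ((0 : V d), f P)).2 • n) n ≠ 0 := by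
      rw [B0]; exact hn
    exact h7.eventually_ne h8
  obtain ⟨r, r0, hr⟩ := Metric.eventually_nhds_iff_ball.1 (E1.and (E2.and E3))
  have key : ∀ y ∈ Metric.ball (0 : V d) r, (H.symm (y, f P)).1 = y ∧
      f (P + y + (H.symm (y, f P)).2 • n) = f P := by
    intro y hy
    obtain ⟨h1, -, -⟩ := hr y hy
    have h2 : H (H.symm (y, f P)) = (y, f P) := H.right_inv h1
    rw [Hc] at h2
    have h3 : (H.symm (y, f P)).1 = y := congrArg Prod.fst h2
    have h4 : f (P + (H.symm (y, f P)).1 + (H.symm (y, f P)).2 • n) = f P := congrArg Prod.snd h2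
    exact ⟨h3, by rw [h3] at h4; exact h4⟩
  refine ⟨fun y => (H.symm (y, f P)).2, r, r0, ?_, ?_, ?_, ?_⟩
  · intro y hy
    obtain ⟨h1, h2, h3⟩ := hr y hy
    have hz : P + (H.symm (y, f P)).1 + (H.symm (y, f P)).2 • n ≠ 0 := by
      intro h
      rw [h] at h2
      simp at h2
    have h4 : HasFDerivAt H ((eqv (fderiv ℝ f (P + (H.symm (y, f P)).1 + (H.symm (y, f P)).2 • n)) n h3 :
        (V d × ℝ) ≃L[ℝ] (V d × ℝ)) : (V d × ℝ) →L[ℝ] (V d × ℝ)) (H.symm (y, f P)) :=
      (strict f fs P n (H.symm (y, f P)) hz h3).hasFDerivAt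
    have h5 : ContDiffAt ℝ ∞ H (H.symm (y, f P)) := smooth f fs P n (H.symm (y, f P)) hz
    have h6 : ContDiffAt ℝ ∞ H.symm (y, f P) := H.contDiffAt_symm h1 h4 h5
    have h7 : ContDiffAt ℝ ∞ (fun y : V d => (y, f P)) y := by fun_prop
    have h8 : ContDiffAt ℝ ∞ (fun y : V d => H.symm (y, f P)) y :=
      ContDiffAt.comp (f := fun y : V d => (y, f P)) y h6 h7
    exact (contDiffAt_snd.comp y h8).contDiffWithinAt
  · show (H.symm ((0 : V d), f P)).2 = 0
    rw [Hi]
  · intro y hy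
    obtain ⟨h1, h2, h3⟩ := hr y hy
    obtain ⟨k1, k2⟩ := key y hy
    rw [k1] at h2 h3
    exact ⟨h2, k2, h3⟩
  · filter_upwards [H.open_source.mem_nhds Hs] with z hz hfz
    have h1 : H z = (z.1, f P) := by
      rw [Hc]
      show (z.1, f (P + z.1 + z.2 • n)) = (z.1, f P)
      rw [hfz]
    have h2 : H.symm (z.1, f P) = z := by
      rw [← h1]
      exact H.left_inv hz
    show z.2 = (H.symm (z.1, f P)).2
    rw [h2]

end Pool.Agent.Work.MP_659252_gt.QR
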