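import Pool.Agent.Work.MP_659252_gt.QR.Q.GrB
import Pool.Agent.Work.MP_659252_gt.QR.Q.Graph
import Pool.Agent.Work.MP_659252_gt.QR.L.BilB

/-!
# From the apolarity condition of the level set to the graph.  Size: M.

PROOF.  Fix `y` in the ball with `y ∈ SP f P`, `a`, `b ∈ SP f P` independent, `Q = P + y + u y n`, `E a = a + (fderiv u y a) n`.  `Q 0 > 0`, `f Q = f P`, `Tg f Q (E a)` (coordinate `0`: `n 0 = 0`; `grB` (i)); `Ind (E a) (E b)`: apply `fderiv f P` to
`s E a + t E b = 0` to see that the coefficient of `n` is `0`.  Write `g = fderiv f Q n ≠ 0`, `A, B, C = DD f Q (E a) (E a), (E a) (E b), (E b) (E b)`, `c0, .., c3 = D3 f Q` of `(aaa), (aab), (abb), (bbb)`, `m_a = DD f Q n (E a)`, `m_b`.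
`A < 0`, `C < 0`, `A C - B² > 0` (`hcv` for the vectors `s E a + t E b`, `DD_exp`, as in `L/Dich`).  `det`: `DD u = -DD f/g`, so the determinant is `(A C - B²)/g² > 0`.
`Pk` says `c0 C² - 3 A C c2 + 2 A B c3 = 0` and `3 c1 C² - A C c3 - 6 B C c2 + 4 B² c3 = 0`.  Put `μ_b = c3/(3 C)`, `μ_a = (c2 - 2 μ_b B)/C`: then `c3 = 3 μ_b C`, `c2 = 2 μ_b B + μ_a C`, `c0 = 3 μ_a A`, `c1 = μ_b A + 2 μ_a B`.
By `grB` (iii) (with `DD u a a = -A/g` etc.): `D3 u a a a = 3 (μ_a - m_a/g) DD u a a`, `D3 u b b b = 3 (μ_b - m_b/g) DD u b b`, `D3 u a a b = (μ_b - m_b/g) DD u a a + 2 (μ_a - m_a/g) DD u a b`.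
So `lam u y a = μ_a - m_a/g`, `lam u y b = μ_b - m_b/g` and `rel` follows.  `dzero`: (i) at `y = 0`: `fderiv f P (a + (fderiv u 0 a) n) = (fderiv u 0 a) * fderiv f P n = 0` (`fderiv f (P + 0 + u 0 n) n ≠ 0`, `u 0 = 0`).
-/

namespace Pool.Agent.Work.MP_659252_gt.QR

open scoped ContDiff Topology
open Pool.Agent.Work.MP_659252_gt.Z (V Ten val Tan InT IsZoll IsMetric IsGeodesic)

variable {d : ℕ}

/-- The algebra of the relation. -/
private theorem rel_alg {A B C c0 c1 c2 c3 g Uaa Uab Ubb X Z T ma mb : ℝ} (hg : g ≠ 0) (hA : A < 0)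
    (hC : C < 0) (eA : A + g * Uaa = 0) (eB : B + g * Uab = 0) (eC : C + g * Ubb = 0)
    (p1 : c0 * C ^ 2 - 3 * A * C * c2 + 2 * A * B * c3 = 0)
    (p2 : 3 * c1 * C ^ 2 - A * C * c3 - 6 * B * C * c2 + 4 * B ^ 2 * c3 = 0)
    (eX : c0 + Uaa * ma + Uaa * ma + Uaa * ma + g * X = 0)
    (eZ : c3 + Ubb * mb + Ubb * mb + Ubb * mb + g * Z = 0)
    (eT : c1 + Uab * ma + Uab * ma + Uaa * mb + g * T = 0) :
    T = 2 * (X / (3 * Uaa)) * Uab + Z / (3 * Ubb) * Uaa := by
  have hUaa : Uaa ≠ 0 := by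
    rintro rfl
    rw [mul_zero, add_zero] at eA
    exact hA.ne eA
  have hUbb : Ubb ≠ 0 := by
    rintro rfl
    rw [mul_zero, add_zero] at eC
    exact hC.ne eC
  have hstar : 3 * A * C * c1 - 2 * B * C * c0 - A ^ 2 * c3 = 0 := by
    have h1 : C * (3 * A * C * c1 - 2 * B * C * c0 - A ^ 2 * c3) = 0 := by
      linear_combination A * p2 - 2 * B * p1
    exact (mul_eq_zero.1 h1).resolve_left hC.ne
  have eA' : A = -(g * Uaa) := by linarith
  have eB' : B = -(g * Uab) := by linarith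
  have eC' : C = -(g * Ubb) := by linarith
  have hs2 : 3 * Uaa * Ubb * c1 - 2 * Uab * Ubb * c0 - Uaa ^ 2 * c3 = 0 := by
    have h1 : g ^ 2 * (3 * Uaa * Ubb * c1 - 2 * Uab * Ubb * c0 - Uaa ^ 2 * c3) = 0 := by
      rw [eA', eB', eC'] at hstar
      linear_combination hstar
    exact (mul_eq_zero.1 h1).resolve_left (pow_ne_zero 2 hg)
  have hs3 : 3 * Uaa * Ubb * T - 2 * X * Uab * Ubb - Z * Uaa ^ 2 = 0 := by
    have h1 : g * (3 * Uaa * Ubb * T - 2 * X * Uab * Ubb - Z * Uaa ^ 2) = 0 := by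
      linear_combination 3 * Uaa * Ubb * eT - 2 * Uab * Ubb * eX - Uaa ^ 2 * eZ - hs2
    exact (mul_eq_zero.1 h1).resolve_left hg
  field_simp
  linear_combination hs3

theorem apo (f : V d → ℝ) (fs : ContDiffOn ℝ ∞ f {0}ᶜ) (P : V d) (P0 : 0 < P 0) (n : V d) (n0 : n 0 = 0)
    (hcv : ∀ Q : V d, 0 < Q 0 → f Q = f P → ∀ v, Tg f Q v → v ≠ 0 → DD f Q v v < 0)
    (hpk : ∀ Q : V d, 0 < Q 0 → f Q = f P → ∀ a b, Tg f Q a → Tg f Q b → Ind a b → Pk f Q a b)
    (u : V d → ℝ) (r : ℝ) (hr : 0 < r) (us : ContDiffOn ℝ ∞ u (Metric.ball 0 r)) (u0 : u 0 = 0)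
    (hu : ∀ y ∈ Metric.ball (0 : V d) r, 0 < (P + y + u y • n) 0 ∧ f (P + y + u y • n) = f P ∧
      fderiv ℝ f (P + y + u y • n) n ≠ 0) : Apo u r (SP f P) := by
  have hne : ∀ y ∈ Metric.ball (0 : V d) r, P + y + u y • n ≠ 0 := by
    intro y hy h
    have h1 := (hu y hy).1
    rw [h] at h1
    exact lt_irrefl _ h1
  have hG := fun (y : V d) (hy : y ∈ Metric.ball (0 : V d) r) (a b c : V d) =>
    grB f fs P n u (Metric.ball 0 r) Metric.isOpen_ball us (f P) hne (fun y hy => (hu y hy).2.1) y hy a b c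
  have h0 : (0 : V d) ∈ Metric.ball (0 : V d) r := Metric.mem_ball_self hr
  have eP : P + 0 + u 0 • n = P := by rw [u0, zero_smul, add_zero, add_zero]
  have hPn : fderiv ℝ f P n ≠ 0 := by
    have h1 := (hu 0 h0).2.2
    rwa [eP] at h1
  -- the frame at a point of the graph
  have key : ∀ y ∈ Metric.ball (0 : V d) r, ∀ a ∈ SP f P, ∀ b ∈ SP f P, Ind a b →
      DD f (P + y + u y • n) (a + fderiv ℝ u y a • n) (a + fderiv ℝ u y a • n) < 0 ∧
      DD f (P + y + u y • n) (b + fderiv ℝ u y b • n) (b + fderiv ℝ u y b • n) < 0 ∧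
      0 < DD f (P + y + u y • n) (a + fderiv ℝ u y a • n) (a + fderiv ℝ u y a • n) *
        DD f (P + y + u y • n) (b + fderiv ℝ u y b • n) (b + fderiv ℝ u y b • n) -
        DD f (P + y + u y • n) (a + fderiv ℝ u y a • n) (b + fderiv ℝ u y b • n) ^ 2 ∧
      Pk f (P + y + u y • n) (a + fderiv ℝ u y a • n) (b + fderiv ℝ u y b • n) := by
    intro y hy a ha b hb hab
    obtain ⟨hQ0, hQf, hQn⟩ := hu y hy
    have hQ := hne y hy
    have hT : ∀ v ∈ SP f P, Tg f (P + y + u y • n) (v + fderiv ℝ u y v • n) := by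
      intro v hv
      refine ⟨?_, (hG y hy v v v).1⟩
      have hv0 : v 0 = 0 := hv.1
      simp [hv0, n0]
    have hind : Ind (a + fderiv ℝ u y a • n) (b + fderiv ℝ u y b • n) := by
      intro s t hst
      have e1 : (s • a + t • b) + (s * fderiv ℝ u y a + t * fderiv ℝ u y b) • n = 0 := by
        rw [← hst, smul_add, smul_add, smul_smul, smul_smul, add_smul]
        abel
      have h2 := congrArg (fderiv ℝ f P) e1
      rw [map_add, map_add, map_smul, map_smul, map_smul, map_zero, ha.2, hb.2, smul_zero, smul_zero,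
        add_zero, zero_add, smul_eq_mul] at h2
      have h3 : s * fderiv ℝ u y a + t * fderiv ℝ u y b = 0 := (mul_eq_zero.1 h2).resolve_right hPn
      rw [h3, zero_smul, add_zero] at e1
      exact hab s t e1
    have hEa : a + fderiv ℝ u y a • n ≠ 0 := by
      intro h
      have h1 := hind 1 0 (by rw [h]; simp)
      exact one_ne_zero h1.1
    have hEb : b + fderiv ℝ u y b • n ≠ 0 := by
      intro h
      have h1 := hind 0 1 (by rw [h]; simp)
      exact one_ne_zero h1.2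
    have hA := hcv _ hQ0 hQf _ (hT a ha) hEa
    have hC := hcv _ hQ0 hQf _ (hT b hb) hEb
    refine ⟨hA, hC, ?_, hpk _ hQ0 hQf _ _ (hT a ha) (hT b hb) hind⟩
    set Ea := a + fderiv ℝ u y a • n with hEa'
    set Eb := b + fderiv ℝ u y b • n with hEb'
    set Q := P + y + u y • n with hQ'
    set s : ℝ := -DD f Q Ea Eb / DD f Q Eb Eb with hs
    have hsC : s * DD f Q Eb Eb = -DD f Q Ea Eb := div_mul_cancel₀ _ hC.ne
    have hTa : Tg f Q Ea := hT a ha
    have hTb : Tg f Q Eb := hT b hb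
    have hv : Tg f Q (Ea + s • Eb) := by
      obtain ⟨h1, h2⟩ := hTa
      obtain ⟨h3, h4⟩ := hTb
      refine ⟨?_, ?_⟩
      · rw [Pi.add_apply, Pi.smul_apply, h1, h3, smul_zero, add_zero]
      · rw [map_add, map_smul, h2, h4, smul_zero, add_zero]
    have hv0 : Ea + s • Eb ≠ 0 := by
      intro h
      have h1 := hind 1 s (by rw [one_smul]; exact h)
      exact one_ne_zero h1.1
    have h1 := hcv _ hQ0 hQf _ hv hv0
    rw [DD_exp f fs Q hQ Ea Eb s] at h1
    have h3 : 0 < (DD f Q Ea Ea + 2 * DD f Q Ea Eb * s + DD f Q Eb Eb * s ^ 2) * DD f Q Eb Eb :=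
      mul_pos_of_neg_of_neg h1 hC
    have h4 : (DD f Q Ea Ea + 2 * DD f Q Ea Eb * s + DD f Q Eb Eb * s ^ 2) * DD f Q Eb Eb =
        DD f Q Ea Ea * DD f Q Eb Eb + 2 * DD f Q Ea Eb * (s * DD f Q Eb Eb) +
          (s * DD f Q Eb Eb) ^ 2 := by
      ring
    rw [h4, hsC] at h3
    nlinarith
  refine ⟨hr, us, u0, ?_, ?_, ?_⟩
  · intro a ha
    have h1 := (hG 0 h0 a a a).1
    rw [eP, map_add, map_smul, ha.2, zero_add, smul_eq_mul] at h1
    exact (mul_eq_zero.1 h1).resolve_right hPn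
  · intro y hy hyS a ha b hb hab
    obtain ⟨hA, hC, -, p1, p2⟩ := key y hy a ha b hb hab
    have hQn := (hu y hy).2.2
    exact rel_alg hQn hA hC (hG y hy a a a).2.1 (hG y hy a b b).2.1 (hG y hy b b b).2.1 p1 p2
      (hG y hy a a a).2.2 (hG y hy b b b).2.2 (hG y hy a a b).2.2
  · intro y hy hyS a ha b hb hab
    obtain ⟨hA, hC, hdet, -⟩ := key y hy a ha b hb hab
    have hQn := (hu y hy).2.2
    have eA := (hG y hy a a a).2.1
    have eB := (hG y hy a b b).2.1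
    have eC := (hG y hy b b b).2.1
    have hg2 : 0 < fderiv ℝ f (P + y + u y • n) n ^ 2 := by positivity
    have h1 : fderiv ℝ f (P + y + u y • n) n ^ 2 *
        (DD u y a a * DD u y b b - DD u y a b ^ 2) =
        DD f (P + y + u y • n) (a + fderiv ℝ u y a • n) (a + fderiv ℝ u y a • n) *
        DD f (P + y + u y • n) (b + fderiv ℝ u y b • n) (b + fderiv ℝ u y b • n) -
        DD f (P + y + u y • n) (a + fderiv ℝ u y a • n) (b + fderiv ℝ u y b • n) ^ 2 := by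
      have eA' := eq_neg_of_add_eq_zero_left eA
      have eB' := eq_neg_of_add_eq_zero_left eB
      have eC' := eq_neg_of_add_eq_zero_left eC
      rw [eA', eB', eC']
      ring
    rw [← h1] at hdet
    exact (mul_pos_iff_of_pos_left hg2).1 hdet

end Pool.Agent.Work.MP_659252_gt.QR
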