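import Pool.Agent.Work.MP_659252_gt.QR.Q.LocA
import Pool.Agent.Work.MP_659252_gt.QR.Q.Rel
import Pool.Agent.Work.MP_659252_gt.QR.L.BilB

/-!
# The local quadric.  Size: M.

PROOF.  `n = gr f P - (gr f P 0/P 0) P`: `n 0 = 0`, `fderiv f P n = gr f P ⬝ gr f P =: G > 0` (`gr_dot`, `euler1`).  `graph` gives `u`, `r`; `apo` gives `Apo u r (SP f P)`.  `h2` of `locA`: `SP f P` has dimension `≥ d - 1 ≥ 2`: for `a ≠ 0` in it there is
`b ∈ SP f P` not a multiple of `a` (e.g. the map `v ↦ (v 0, fderiv f P v, v ⬝ a)` from `ℝ^{d+1}` to `ℝ³` has a nonzero kernel vector `b`, because `d + 1 > 3`; `b ⬝ a = 0` gives independence; `LinearMap.exists_ne_zero_of_finrank_lt`-style lemma, or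
`Matrix.exists_mulVec_eq_zero_iff`, or `Module.exists_ne_zero..`).  Get `χ`, `m`.
Linear functions: `t x = fderiv f P x/G`, `e x = x 0/P 0`, `y x = x - e x P - t x n`; `y x ∈ SP f P` (`fderiv f P P = 0`), `x = e x P + y x + t x n`.  Put
`B x x' = (1/2) χ t x t x' + (1/2) (e x t x' + e x' t x) - (1/2) (m ⬝ y x * t x' + m ⬝ y x' * t x) - (1/2) DD u 0 (y x) (y x')`, bilinear and symmetric (`DDo_comm` etc.), and `A i j = B (ee i) (ee j)`; `bil A x x' = B x x'` (expand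
`x = ∑ x i • ee i`).  `mul A P ≠ 0`: `bil A P n = B P n = 1/2` (`t P = 0`, `e P = 1`, `y P = 0`, `t n = 1`, `e n = 0`).
For `x` near `P` with `f x = f P`: `e x ≠ 0` near `1`; `z = (e x)⁻¹ (y x)`, `t' = (e x)⁻¹ t x` are near `0`, `f (P + z + t' n) = f ((e x)⁻¹ x) = f x = f P` (`fh`), so `t' = u z` by the uniqueness in `graph`, `z ∈ SP f P`, `‖z‖ < r`; the identity
`(1/2) χ t'² + (1 - m ⬝ z) t' = (1/2) DD u 0 z z` times `(e x)²` is `B x x = 0`.
-/

namespace Pool.Agent.Work.MP_659252_gt.QR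

open scoped ContDiff Topology
open Pool.Agent.Work.MP_659252_gt.Z (V Ten val Tan InT IsZoll IsMetric IsGeodesic)

variable {d : ℕ}

private theorem lq_sum (x : V d) : x = ∑ i, x i • ee i := by
  funext j
  simp [ee, Finset.sum_apply, Pi.single_apply]

private theorem lq_rep (B : V d →ₗ[ℝ] V d →ₗ[ℝ] ℝ) (x x' : V d) :
    bil (fun i j => B (ee i) (ee j)) x x' = B x x' := by
  have h1 : B x x' = B (∑ i, x i • ee i) (∑ j, x' j • ee j) := by
    rw [← lq_sum x, ← lq_sum x']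
  have h2 : B (∑ i, x i • ee i) = ∑ i, x i • B (ee i) := by
    rw [map_sum]
    exact Finset.sum_congr rfl fun i _ => by rw [map_smul]
  rw [h1, h2, LinearMap.sum_apply, bil]
  refine Finset.sum_congr rfl fun i _ => ?_
  rw [LinearMap.smul_apply, map_sum, Finset.smul_sum]
  refine Finset.sum_congr rfl fun j _ => ?_
  rw [map_smul, smul_eq_mul, smul_eq_mul]
  ring

/-- a second vector of the slice -/
private theorem lq_two (hd : 3 ≤ d) (f : V d → ℝ) (P : V d) (a : V d) (ha : a ≠ 0) :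
    ∃ b ∈ SP f P, Ind a b := by
  let L : V d →ₗ[ℝ] ℝ × ℝ × ℝ :=
    (LinearMap.proj 0 : V d →ₗ[ℝ] ℝ).prod ((fderiv ℝ f P).toLinearMap.prod (dotProductBilin ℝ ℝ a))
  have hlt : Module.finrank ℝ (ℝ × ℝ × ℝ) < Module.finrank ℝ (V d) := by
    rw [Module.finrank_prod, Module.finrank_prod, Module.finrank_self, Module.finrank_pi,
      Fintype.card_fin]
    omega
  obtain ⟨b, hb, hb0⟩ := Submodule.exists_mem_ne_zero_of_ne_bot (LinearMap.ker_ne_bot_of_finrank_lt (f := L) hlt)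
  have hb1 : L b = 0 := hb
  have h1 : b 0 = 0 := congrArg Prod.fst hb1
  have h2 : fderiv ℝ f P b = 0 := congrArg (fun p => p.2.1) hb1
  have h3 : a ⬝ᵥ b = 0 := congrArg (fun p => p.2.2) hb1
  refine ⟨b, ⟨h1, h2⟩, ?_⟩
  intro s t hst
  have h4 : a ⬝ᵥ (s • a + t • b) = 0 := by rw [hst, dotProduct_zero]
  rw [dotProduct_add, dotProduct_smul, dotProduct_smul, h3, smul_eq_mul, smul_zero, add_zero] at h4
  have h5 : s = 0 := by
    rcases mul_eq_zero.1 h4 with h | h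
    · exact h
    · exact absurd (dotProduct_self_eq_zero.1 h) ha
  refine ⟨h5, ?_⟩
  rw [h5, zero_smul, zero_add] at hst
  exact (smul_eq_zero.1 hst).resolve_right hb0

theorem locQ (hd : 3 ≤ d) (f : V d → ℝ) (fs : ContDiffOn ℝ ∞ f {0}ᶜ)
    (fh : ∀ (c : ℝ) (x : V d), c ≠ 0 → f (c • x) = f x) (P : V d) (P0 : 0 < P 0) (hg : gr f P ≠ 0)
    (hcv : ∀ Q : V d, 0 < Q 0 → f Q = f P → ∀ v, Tg f Q v → v ≠ 0 → DD f Q v v < 0)
    (hpk : ∀ Q : V d, 0 < Q 0 → f Q = f P → ∀ a b, Tg f Q a → Tg f Q b → Ind a b → Pk f Q a b) :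
    ∃ A : Mat d, (∀ i j, A i j = A j i) ∧ mul A P ≠ 0 ∧ ∀ᶠ x in 𝓝 P, f x = f P → bil A x x = 0 := by
  have hP : P ≠ 0 := by
    rintro rfl
    exact absurd P0 (by simp)
  have hP0 : P 0 ≠ 0 := P0.ne'
  obtain ⟨G, hG⟩ : ∃ G : ℝ, G = gr f P ⬝ᵥ gr f P := ⟨_, rfl⟩
  have hG0 : G ≠ 0 := by
    rw [hG]
    intro h
    exact hg (dotProduct_self_eq_zero.1 h)
  have hfP : fderiv ℝ f P P = 0 := euler1 f fs fh P hP
  obtain ⟨n, hn⟩ : ∃ n : V d, n = gr f P - (gr f P 0 / P 0) • P := ⟨_, rfl⟩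
  have n0 : n 0 = 0 := by
    rw [hn]
    simp only [Pi.sub_apply, Pi.smul_apply, smul_eq_mul]
    field_simp
    ring
  have hfn : fderiv ℝ f P n = G := by
    rw [hn, map_sub, map_smul, hfP, ← gr_dot, hG, smul_zero, sub_zero]
  obtain ⟨u, r, hr, us, u0, hu, hev⟩ := graph f fs P P0 n (by rw [hfn]; exact hG0)
  have hA := apo f fs P P0 n n0 hcv hpk u r hr us u0 hu
  obtain ⟨χ, m, hloc⟩ := locA u r (SP f P) hA fun a _ ha => lq_two hd f P a ha
  have h0 : (0 : V d) ∈ Metric.ball (0 : V d) r := Metric.mem_ball_self hr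
  have dar : ∀ a b c, DD u 0 a (b + c) = DD u 0 a b + DD u 0 a c := fun a b c => DD_add_right u 0 a b c
  have dsr : ∀ a b s, DD u 0 a (s • b) = s * DD u 0 a b := fun a b s => DD_smul_right u 0 a b s
  have dal := fun a b c => DDo_add_left u _ Metric.isOpen_ball us 0 h0 a b c
  have dsl := fun a b s => DDo_smul_left u _ Metric.isOpen_ball us 0 h0 a b s
  have dcm := fun a b => DDo_comm u _ Metric.isOpen_ball us 0 h0 a b
  have dz : DD u 0 0 0 = 0 := by
    have := dsr 0 0 0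
    rwa [zero_smul, zero_mul] at this
  -- the linear functions
  obtain ⟨t, ht⟩ : ∃ t : V d → ℝ, t = fun x => fderiv ℝ f P x / G := ⟨_, rfl⟩
  obtain ⟨e, he⟩ : ∃ e : V d → ℝ, e = fun x => x 0 / P 0 := ⟨_, rfl⟩
  obtain ⟨y, hy⟩ : ∃ y : V d → V d, y = fun x => x - e x • P - t x • n := ⟨_, rfl⟩
  have ta : ∀ x x', t (x + x') = t x + t x' := fun x x' => by
    rw [ht]; dsimp only; rw [map_add, add_div]
  have ts : ∀ (c : ℝ) x, t (c • x) = c * t x := fun c x => by
    rw [ht]; dsimp only; rw [map_smul, smul_eq_mul, mul_div_assoc]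
  have ea : ∀ x x', e (x + x') = e x + e x' := fun x x' => by
    rw [he]; dsimp only; rw [Pi.add_apply, add_div]
  have es : ∀ (c : ℝ) x, e (c • x) = c * e x := fun c x => by
    rw [he]; dsimp only; rw [Pi.smul_apply, smul_eq_mul, mul_div_assoc]
  have ya : ∀ x x', y (x + x') = y x + y x' := fun x x' => by
    rw [hy]; dsimp only; rw [ta, ea]; module
  have ys : ∀ (c : ℝ) x, y (c • x) = c • y x := fun c x => by
    rw [hy]; dsimp only; rw [ts, es]; module
  have yS : ∀ x, y x ∈ SP f P := by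
    intro x
    refine ⟨?_, ?_⟩
    · rw [hy, he]
      simp only [Pi.sub_apply, Pi.smul_apply, smul_eq_mul, n0, mul_zero, sub_zero]
      field_simp
      ring
    · rw [hy, ht]
      simp only [map_sub, map_smul, smul_eq_mul, hfP, hfn, mul_zero, sub_zero]
      field_simp
      ring
  have hdec : ∀ x, e x • P + y x + t x • n = x := fun x => by
    rw [hy]; dsimp only; module
  let B : V d →ₗ[ℝ] V d →ₗ[ℝ] ℝ := LinearMap.mk₂ ℝ
    (fun x x' => (1 / 2) * χ * (t x * t x') + (1 / 2) * (e x * t x' + e x' * t x) -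
      (1 / 2) * (m ⬝ᵥ y x * t x' + m ⬝ᵥ y x' * t x) - (1 / 2) * DD u 0 (y x) (y x'))
    (by
      intro x₁ x₂ x'
      rw [ta, ea, ya, dal, dotProduct_add]
      ring)
    (by
      intro c x x'
      rw [ts, es, ys, dsl, dotProduct_smul]
      simp only [smul_eq_mul]
      ring)
    (by
      intro x x₁ x₂
      rw [ta, ea, ya, dar, dotProduct_add]
      ring)
    (by
      intro c x x'
      rw [ts, es, ys, dsr, dotProduct_smul]
      simp only [smul_eq_mul]
      ring)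
  have hB : ∀ x x', B x x' = (1 / 2) * χ * (t x * t x') + (1 / 2) * (e x * t x' + e x' * t x) -
      (1 / 2) * (m ⬝ᵥ y x * t x' + m ⬝ᵥ y x' * t x) - (1 / 2) * DD u 0 (y x) (y x') := fun _ _ => rfl
  have tP : t P = 0 := by rw [ht]; dsimp only; rw [hfP, zero_div]
  have tn : t n = 1 := by rw [ht]; dsimp only; rw [hfn, div_self hG0]
  have eP : e P = 1 := by rw [he]; exact div_self hP0
  have en : e n = 0 := by rw [he]; dsimp only; rw [n0, zero_div]
  have yP : y P = 0 := by rw [hy]; dsimp only; rw [tP, eP]; module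
  have yn : y n = 0 := by rw [hy]; dsimp only; rw [tn, en]; module
  refine ⟨fun i j => B (ee i) (ee j), ?_, ?_, ?_⟩
  · intro i j
    show B (ee i) (ee j) = B (ee j) (ee i)
    rw [hB, hB, dcm]
    ring
  · intro h
    have h1 := lq_rep B n P
    rw [bil_eq_dot, h, dotProduct_zero, hB, tP, tn, eP, en, yP, yn, dz, dotProduct_zero] at h1
    norm_num at h1
  · have ec : Continuous e := by rw [he]; fun_prop
    have tc : Continuous t := by
      rw [ht]
      exact (fderiv ℝ f P).continuous.div_const _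
    have yc : Continuous y := by
      rw [hy]
      exact (continuous_id.sub (ec.smul continuous_const)).sub (tc.smul continuous_const)
    have e1 : ∀ᶠ x in 𝓝 P, e x ≠ 0 := ec.continuousAt.eventually_ne (by rw [eP]; exact one_ne_zero)
    have eic : ContinuousAt (fun x => (e x)⁻¹) P := ec.continuousAt.inv₀ (by rw [eP]; exact one_ne_zero)
    have zc : ContinuousAt (fun x => (((e x)⁻¹ • y x, (e x)⁻¹ * t x) : V d × ℝ)) P :=
      (eic.smul yc.continuousAt).prodMk (eic.mul tc.continuousAt)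
    have z0 : (((e P)⁻¹ • y P, (e P)⁻¹ * t P) : V d × ℝ) = (0, 0) := by
      rw [yP, tP, smul_zero, mul_zero]
    have e2 : ∀ᶠ x in 𝓝 P, f (P + (e x)⁻¹ • y x + ((e x)⁻¹ * t x) • n) = f P →
        (e x)⁻¹ * t x = u ((e x)⁻¹ • y x) := by
      have := zc.tendsto
      rw [z0] at this
      exact this.eventually hev
    have e3 : ∀ᶠ x in 𝓝 P, ‖(e x)⁻¹ • y x‖ < r := by
      have h1 : ContinuousAt (fun x => ‖(e x)⁻¹ • y x‖) P := (eic.smul yc.continuousAt).norm
      have h2 := h1.tendsto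
      rw [yP, smul_zero, norm_zero] at h2
      exact h2.eventually (gt_mem_nhds hr)
    filter_upwards [e1, e2, e3] with x x1 x2 x3 hfx
    rw [lq_rep, hB]
    have h3 : P + (e x)⁻¹ • y x + ((e x)⁻¹ * t x) • n = (e x)⁻¹ • x := by
      have h8 : (e x)⁻¹ • (e x • P + y x + t x • n) = (e x)⁻¹ • x := by rw [hdec x]
      rw [← h8, smul_add, smul_add, smul_smul, inv_mul_cancel₀ x1, one_smul, smul_smul]
    have h4 := x2 (by rw [h3, fh _ _ (inv_ne_zero x1), hfx])
    have h5 := hloc _ ((SP f P).smul_mem (e x)⁻¹ (yS x)) x3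
    rw [← h4, dsr, dsl, dotProduct_smul, smul_eq_mul] at h5
    have h6 : (e x) ^ 2 * ((1 / 2) * χ * ((e x)⁻¹ * t x) ^ 2 + (1 - (e x)⁻¹ * (m ⬝ᵥ y x)) * ((e x)⁻¹ * t x)) =
        (e x) ^ 2 * ((1 / 2) * ((e x)⁻¹ * ((e x)⁻¹ * DD u 0 (y x) (y x)))) := by rw [h5]
    have h7 : (1 / 2) * χ * t x ^ 2 + (e x - m ⬝ᵥ y x) * t x = (1 / 2) * DD u 0 (y x) (y x) := by
      have h8 : (e x) ^ 2 * ((1 / 2) * χ * ((e x)⁻¹ * t x) ^ 2 +
          (1 - (e x)⁻¹ * (m ⬝ᵥ y x)) * ((e x)⁻¹ * t x)) =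
          (1 / 2) * χ * t x ^ 2 + (e x - m ⬝ᵥ y x) * t x := by
        field_simp
      have h9 : (e x) ^ 2 * ((1 / 2) * ((e x)⁻¹ * ((e x)⁻¹ * DD u 0 (y x) (y x)))) =
          (1 / 2) * DD u 0 (y x) (y x) := by
        field_simp
      rw [← h8, ← h9, h6]
    linear_combination h7

end Pool.Agent.Work.MP_659252_gt.QR
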