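import Pool.Agent.Work.MP_659252_gt.QR.Q.Defs

/-!
# Second and third derivatives of a function on an open set.  Size: S-M (copy of L/BilA).

PROOF.  As in `L/BilA`, with the open set `O` instead of `{0}ᶜ`.  `lam_smul`: `D3 u y (c a) (c a) (c a) = c³ D3 u y a a a`, `DD u y (c a) (c a) = c² DD u y a a` (if `c = 0` or `DD u y a a = 0` both sides are `0`, as
`x/0 = 0`).  `lam_smooth`: quotient of smooth functions with nonzero denominator.
-/

namespace Pool.Agent.Work.MP_659252_gt.QR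

open scoped ContDiff Topology
open Pool.Agent.Work.MP_659252_gt.Z (V Ten val Tan InT IsZoll IsMetric IsGeodesic)

variable {d : ℕ}

private theorem bilo_fd {f : V d → ℝ} {O : Set (V d)} (hO : IsOpen O) (fs : ContDiffOn ℝ ∞ f O) :
    ContDiffOn ℝ ∞ (fderiv ℝ f) O :=
  fs.fderiv_of_isOpen hO (by norm_cast)

private theorem bilo_fda {f : V d → ℝ} {O : Set (V d)} (hO : IsOpen O) (fs : ContDiffOn ℝ ∞ f O) (a : V d) :
    ContDiffOn ℝ ∞ (fun y => fderiv ℝ f y a) O :=
  (bilo_fd hO fs).clm_apply contDiffOn_const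

private theorem bilo_DD {f : V d → ℝ} {O : Set (V d)} (hO : IsOpen O) (fs : ContDiffOn ℝ ∞ f O) {x : V d} (hx : x ∈ O)
    (a b : V d) : DD f x a b = fderiv ℝ (fderiv ℝ f) x b a := by
  unfold DD
  have h : DifferentiableAt ℝ (fderiv ℝ f) x :=
    ((bilo_fd hO fs).contDiffAt (hO.mem_nhds hx)).differentiableAt (by simp)
  have h2 := (h.hasFDerivAt.clm_apply (hasFDerivAt_const a x)).fderiv
  rw [h2]
  simp

private theorem bilo_D3r (f : V d → ℝ) (x a b c : V d) (s : ℝ) : D3 f x a b (s • c) = s * D3 f x a b c := by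
  unfold D3
  rw [map_smul, smul_eq_mul]

private theorem bilo_DDr (f : V d → ℝ) (x a b : V d) (s : ℝ) : DD f x a (s • b) = s * DD f x a b := by
  unfold DD
  rw [map_smul, smul_eq_mul]

theorem DDo_comm (f : V d → ℝ) (O : Set (V d)) (hO : IsOpen O) (fs : ContDiffOn ℝ ∞ f O) (x : V d) (hx : x ∈ O)
    (a b : V d) : DD f x a b = DD f x b a := by
  have h : ContDiffAt ℝ ∞ f x := fs.contDiffAt (hO.mem_nhds hx)
  have h2 : IsSymmSndFDerivAt ℝ f x := h.isSymmSndFDerivAt (by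
    rw [minSmoothness_of_isRCLikeNormedField]
    norm_cast)
  rw [bilo_DD hO fs hx, bilo_DD hO fs hx]
  exact h2.eq b a

theorem DDo_add_left (f : V d → ℝ) (O : Set (V d)) (hO : IsOpen O) (fs : ContDiffOn ℝ ∞ f O) (x : V d) (hx : x ∈ O)
    (a b c : V d) : DD f x (a + b) c = DD f x a c + DD f x b c := by
  rw [bilo_DD hO fs hx, bilo_DD hO fs hx, bilo_DD hO fs hx, map_add]

theorem DDo_smul_left (f : V d → ℝ) (O : Set (V d)) (hO : IsOpen O) (fs : ContDiffOn ℝ ∞ f O) (x : V d) (hx : x ∈ O)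
    (a b : V d) (s : ℝ) : DD f x (s • a) b = s * DD f x a b := by
  rw [bilo_DD hO fs hx, bilo_DD hO fs hx, map_smul, smul_eq_mul]

theorem D3o_comm12 (f : V d → ℝ) (O : Set (V d)) (hO : IsOpen O) (fs : ContDiffOn ℝ ∞ f O) (x : V d) (hx : x ∈ O)
    (a b c : V d) : D3 f x a b c = D3 f x b a c := by
  unfold D3
  have h : (fun y => DD f y a b) =ᶠ[𝓝 x] fun y => DD f y b a := by
    filter_upwards [hO.mem_nhds hx] with y hy
    exact DDo_comm f O hO fs y hy a b
  rw [h.fderiv_eq]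

theorem D3o_comm23 (f : V d → ℝ) (O : Set (V d)) (hO : IsOpen O) (fs : ContDiffOn ℝ ∞ f O) (x : V d) (hx : x ∈ O)
    (a b c : V d) : D3 f x a b c = D3 f x a c b := by
  have h := DDo_comm (fun y => fderiv ℝ f y a) O hO (bilo_fda hO fs a) x hx b c
  exact h

theorem DDo_smooth (f : V d → ℝ) (O : Set (V d)) (hO : IsOpen O) (fs : ContDiffOn ℝ ∞ f O) (a b : V d) :
    ContDiffOn ℝ ∞ (fun y => DD f y a b) O := by
  exact bilo_fda hO (bilo_fda hO fs a) b

theorem D3o_smooth (f : V d → ℝ) (O : Set (V d)) (hO : IsOpen O) (fs : ContDiffOn ℝ ∞ f O) (a b c : V d) :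
    ContDiffOn ℝ ∞ (fun y => D3 f y a b c) O := by
  exact bilo_fda hO (DDo_smooth f O hO fs a b) c

theorem lam_smul (u : V d → ℝ) (O : Set (V d)) (hO : IsOpen O) (us : ContDiffOn ℝ ∞ u O) (y : V d) (hy : y ∈ O)
    (a : V d) (c : ℝ) : lam u y (c • a) = c * lam u y a := by
  have h1 : DD u y (c • a) (c • a) = c * (c * DD u y a a) := by
    rw [bilo_DDr, DDo_comm u O hO us y hy, bilo_DDr]
  have h2 : D3 u y (c • a) (c • a) (c • a) = c * (c * (c * D3 u y a a a)) := by
    rw [bilo_D3r, D3o_comm23 u O hO us y hy, bilo_D3r, D3o_comm12 u O hO us y hy,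
      D3o_comm23 u O hO us y hy, bilo_D3r]
  unfold lam
  rw [h1, h2]
  by_cases hc : c = 0
  · simp [hc]
  by_cases hQ : DD u y a a = 0
  · simp [hQ]
  field_simp

theorem lam_smooth (u : V d → ℝ) (O : Set (V d)) (hO : IsOpen O) (us : ContDiffOn ℝ ∞ u O) (a : V d) :
    ContDiffOn ℝ ∞ (fun y => lam u y a) (O ∩ {y | DD u y a a ≠ 0}) := by
  unfold lam
  refine ContDiffOn.div ((D3o_smooth u O hO us a a a).mono Set.inter_subset_left)
    (contDiffOn_const.mul ((DDo_smooth u O hO us a a).mono Set.inter_subset_left)) ?_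
  rintro y ⟨-, hy⟩
  exact mul_ne_zero three_ne_zero hy

end Pool.Agent.Work.MP_659252_gt.QR
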