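import Pool.Agent.Work.MP_659252_gt.QR.L.Defs

/-!
# Group Q: partial derivatives in the plane, graphs
-/

namespace Pool.Agent.Work.MP_659252_gt.QR

open scoped ContDiff Topology
open Pool.Agent.Work.MP_659252_gt.Z (V Ten val Tan InT IsZoll IsMetric IsGeodesic)

variable {d : ℕ}

/-- First partial derivative in the plane. -/
noncomputable def p1 (F : ℝ × ℝ → ℝ) (z : ℝ × ℝ) : ℝ := fderiv ℝ F z (1, 0)

/-- Second partial derivative in the plane. -/
noncomputable def p2 (F : ℝ × ℝ → ℝ) (z : ℝ × ℝ) : ℝ := fderiv ℝ F z (0, 1)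

/-- The linear form `λ` of the relation `D3 u a b c = λ a DD b c + λ b DD a c + λ c DD a b`. -/
noncomputable def lam (u : V d → ℝ) (y a : V d) : ℝ := D3 u y a a a / (3 * DD u y a a)

/-- The constant `χ`. -/
noncomputable def chi (u : V d → ℝ) (a : V d) : ℝ :=
  (lam u 0 a ^ 2 - fderiv ℝ (fun y => lam u y a) 0 a) / DD u 0 a a

/-- The tangent vectors in the slice, as a subspace. -/
def SP (f : V d → ℝ) (x : V d) : Submodule ℝ (V d) where
  carrier := {v | Tg f x v}
  add_mem' := by
    rintro a b ⟨ha, ha'⟩ ⟨hb, hb'⟩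
    exact ⟨by simp [ha, hb], by rw [map_add, ha', hb', add_zero]⟩
  zero_mem' := ⟨rfl, map_zero _⟩
  smul_mem' := by
    rintro c a ⟨ha, ha'⟩
    exact ⟨by simp [ha], by rw [map_smul, ha', smul_zero]⟩

/-- A function on a ball whose third derivative is the symmetric product of its second derivative with a linear form, in
the directions of the subspace `S` and at points of `S`; critical at `0`. -/
structure Apo (u : V d → ℝ) (r : ℝ) (S : Submodule ℝ (V d)) : Prop where
  rpos : 0 < r
  smooth : ContDiffOn ℝ ∞ u (Metric.ball 0 r)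
  zero : u 0 = 0
  dzero : ∀ a ∈ S, fderiv ℝ u 0 a = 0
  rel : ∀ y ∈ Metric.ball (0 : V d) r, y ∈ S → ∀ a ∈ S, ∀ b ∈ S, Ind a b →
    D3 u y a a b = 2 * lam u y a * DD u y a b + lam u y b * DD u y a a
  det : ∀ y ∈ Metric.ball (0 : V d) r, y ∈ S → ∀ a ∈ S, ∀ b ∈ S, Ind a b →
    0 < DD u y a a * DD u y b b - DD u y a b ^ 2

end Pool.Agent.Work.MP_659252_gt.QR
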