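import Pool.Agent.Work.MP_659252_gt.QR.Q.BilO
import Pool.Agent.Work.MP_659252_gt.QR.L.BilA

/-!
# Derivatives of a graph.  Size: M.

PROOF.  Write `Q y = P + y + u y n`, with derivative `h ↦ h + (fderiv u y h) n = E h`.  Differentiate the constant function `y ↦ f (Q y)` in the direction `a`, at all points of `O`: `fderiv f (Q y) (E_a y) = 0`, i.e.
`fderiv f (Q y) a + fderiv u y a * fderiv f (Q y) n = 0` (1).  Differentiate (1) in the direction `b` (`a` fixed; the derivative of `y ↦ fderiv f (Q y) a` in the direction `b` is `DD f (Q y) a (E b)`):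
`DD f Q a (E b) + DD u a b * fderiv f Q n + fderiv u a * DD f Q n (E b) = 0`, which is `DD f Q (E a) (E b) + fderiv f Q n * DD u a b = 0` (2).
Differentiate (2), written as `DD f Q a b + (u_b) DD f Q a n + (u_a) DD f Q n b + u_a u_b DD f Q n n + fderiv f Q n * DD u a b = 0` (`u_a = fderiv u y a`), in the direction `c`: the terms with third derivatives of `f` give `D3 f Q (E a) (E b) (E c)`,
the derivatives of `u_a`, `u_b` give `DD u a c * DD f Q n (E b) + DD u b c * DD f Q n (E a)` (symmetry of `DD f`), and the last term gives `DD f Q n (E c) * DD u a b + fderiv f Q n * D3 u a b c`.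
-/

namespace Pool.Agent.Work.MP_659252_gt.QR

open scoped ContDiff Topology
open Pool.Agent.Work.MP_659252_gt.Z (V Ten val Tan InT IsZoll IsMetric IsGeodesic)

variable {d : ℕ}

private theorem op0 : IsOpen ({0}ᶜ : Set (V d)) := isOpen_compl_singleton

private theorem lineD (ψ : V d → ℝ) (y c : V d) (h : DifferentiableAt ℝ ψ y) :
    HasDerivAt (fun t : ℝ => ψ (y + t • c)) (fderiv ℝ ψ y c) 0 := by
  have h1 : HasDerivAt (fun t : ℝ => y + t • c) c 0 := by
    have h3 := ((hasDerivAt_id (0 : ℝ)).smul_const c).const_add y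
    simpa using h3
  have h2 : HasFDerivAt ψ (fderiv ℝ ψ y) (y + (0 : ℝ) • c) := by
    rw [zero_smul, add_zero]
    exact h.hasFDerivAt
  exact HasFDerivAt.comp_hasDerivAt (f := fun t : ℝ => y + t • c) (0 : ℝ) h2 h1

private theorem lineQ (P n : V d) (u : V d → ℝ) (y c : V d) (hu : DifferentiableAt ℝ u y) (φ : V d → ℝ)
    (h : DifferentiableAt ℝ φ (P + y + u y • n)) :
    HasDerivAt (fun t : ℝ => φ (P + (y + t • c) + u (y + t • c) • n))
      (fderiv ℝ φ (P + y + u y • n) (c + fderiv ℝ u y c • n)) 0 := by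
  have h1 : HasDerivAt (fun t : ℝ => y + t • c) c 0 := by
    have h3 := ((hasDerivAt_id (0 : ℝ)).smul_const c).const_add y
    simpa using h3
  have h2 := (h1.const_add P).add ((lineD u y c hu).smul_const n)
  have h3 : HasFDerivAt φ (fderiv ℝ φ (P + y + u y • n))
      (P + (y + (0 : ℝ) • c) + u (y + (0 : ℝ) • c) • n) := by
    rw [zero_smul, add_zero]
    exact h.hasFDerivAt
  exact HasFDerivAt.comp_hasDerivAt (f := fun t : ℝ => P + (y + t • c) + u (y + t • c) • n) (0 : ℝ) h3 h2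

private theorem dzero (O : Set (V d)) (hO : IsOpen O) (y c : V d) (hy : y ∈ O) (ψ : V d → ℝ) (c₀ : ℝ)
    (h0 : ∀ y ∈ O, ψ y = c₀) (L : ℝ) (h : HasDerivAt (fun t : ℝ => ψ (y + t • c)) L 0) : L = 0 := by
  have h1 : (fun t : ℝ => ψ (y + t • c)) =ᶠ[𝓝 0] fun _ => c₀ := by
    have hc : Continuous fun t : ℝ => y + t • c := by fun_prop
    have hm : y + (0 : ℝ) • c ∈ O := by simpa using hy
    filter_upwards [hc.continuousAt.preimage_mem_nhds (hO.mem_nhds hm)] with t ht
    exact h0 _ ht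
  exact h.unique ((hasDerivAt_const (0 : ℝ) c₀).congr_of_eventuallyEq h1)

private theorem diff1 (f : V d → ℝ) (O : Set (V d)) (hO : IsOpen O) (fs : ContDiffOn ℝ ∞ f O) (x : V d)
    (hx : x ∈ O) (a : V d) : DifferentiableAt ℝ (fun y => fderiv ℝ f y a) x := by
  have df : ContDiffOn ℝ ∞ (fderiv ℝ f) O := fs.fderiv_of_isOpen hO (by simp)
  exact ((df.clm_apply contDiffOn_const).contDiffAt (hO.mem_nhds hx)).differentiableAt (by simp)

private theorem diff2 (f : V d → ℝ) (O : Set (V d)) (hO : IsOpen O) (fs : ContDiffOn ℝ ∞ f O) (x : V d)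
    (hx : x ∈ O) (a b : V d) : DifferentiableAt ℝ (fun y => DD f y a b) x := by
  have df : ContDiffOn ℝ ∞ (fderiv ℝ f) O := fs.fderiv_of_isOpen hO (by simp)
  have dg : ContDiffOn ℝ ∞ (fun y => fderiv ℝ f y a) O := df.clm_apply contDiffOn_const
  exact diff1 _ O hO dg x hx b

private theorem D3_add_mid (f : V d → ℝ) (fs : ContDiffOn ℝ ∞ f {0}ᶜ) (x : V d) (hx : x ≠ 0) (a b e c : V d) :
    D3 f x a (b + e) c = D3 f x a b c + D3 f x a e c := by
  rw [D3_comm23 f fs x hx, D3_add_right, D3_comm23 f fs x hx a c b, D3_comm23 f fs x hx a c e]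

private theorem D3_smul_mid (f : V d → ℝ) (fs : ContDiffOn ℝ ∞ f {0}ᶜ) (x : V d) (hx : x ≠ 0) (a b c : V d)
    (s : ℝ) : D3 f x a (s • b) c = s * D3 f x a b c := by
  rw [D3_comm23 f fs x hx, D3_smul_right, D3_comm23 f fs x hx a c b]

private theorem D3_add_left (f : V d → ℝ) (fs : ContDiffOn ℝ ∞ f {0}ᶜ) (x : V d) (hx : x ≠ 0) (a e b c : V d) :
    D3 f x (a + e) b c = D3 f x a b c + D3 f x e b c := by
  rw [D3_comm12 f fs x hx, D3_add_mid f fs x hx, D3_comm12 f fs x hx b a, D3_comm12 f fs x hx b e]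

private theorem D3_smul_left (f : V d → ℝ) (fs : ContDiffOn ℝ ∞ f {0}ᶜ) (x : V d) (hx : x ≠ 0) (a b c : V d)
    (s : ℝ) : D3 f x (s • a) b c = s * D3 f x a b c := by
  rw [D3_comm12 f fs x hx, D3_smul_mid f fs x hx, D3_comm12 f fs x hx b a]

theorem grB (f : V d → ℝ) (fs : ContDiffOn ℝ ∞ f {0}ᶜ) (P n : V d) (u : V d → ℝ) (O : Set (V d)) (hO : IsOpen O)
    (us : ContDiffOn ℝ ∞ u O) (c₀ : ℝ) (hne : ∀ y ∈ O, P + y + u y • n ≠ 0) (hc : ∀ y ∈ O, f (P + y + u y • n) = c₀)
    (y : V d) (hy : y ∈ O) (a b c : V d) :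
    fderiv ℝ f (P + y + u y • n) (a + fderiv ℝ u y a • n) = 0 ∧
      DD f (P + y + u y • n) (a + fderiv ℝ u y a • n) (b + fderiv ℝ u y b • n) +
        fderiv ℝ f (P + y + u y • n) n * DD u y a b = 0 ∧
      D3 f (P + y + u y • n) (a + fderiv ℝ u y a • n) (b + fderiv ℝ u y b • n) (c + fderiv ℝ u y c • n) +
        DD u y a c * DD f (P + y + u y • n) n (b + fderiv ℝ u y b • n) +
        DD u y b c * DD f (P + y + u y • n) n (a + fderiv ℝ u y a • n) +
        DD u y a b * DD f (P + y + u y • n) n (c + fderiv ℝ u y c • n) +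
        fderiv ℝ f (P + y + u y • n) n * D3 u y a b c = 0 := by
  have dQ : ∀ y ∈ O, P + y + u y • n ∈ ({0}ᶜ : Set (V d)) := fun y hy => hne y hy
  have du : ∀ y ∈ O, DifferentiableAt ℝ u y := fun y hy =>
    (us.contDiffAt (hO.mem_nhds hy)).differentiableAt (by simp)
  have df : ∀ y ∈ O, DifferentiableAt ℝ f (P + y + u y • n) := fun y hy =>
    (fs.contDiffAt (op0.mem_nhds (hne y hy))).differentiableAt (by simp)
  have s1 : ∀ y ∈ O, ∀ a : V d, fderiv ℝ f (P + y + u y • n) (a + fderiv ℝ u y a • n) = 0 := by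
    intro y hy a
    exact dzero O hO y a hy (fun y => f (P + y + u y • n)) c₀ hc _ (lineQ P n u y a (du y hy) f (df y hy))
  have s1' : ∀ (a y : V d), y ∈ O → fderiv ℝ f (P + y + u y • n) a +
      fderiv ℝ u y a * fderiv ℝ f (P + y + u y • n) n = 0 := by
    intro a y hy
    have := s1 y hy a
    rwa [map_add, map_smul, smul_eq_mul] at this
  have s2 : ∀ y ∈ O, ∀ a b : V d, DD f (P + y + u y • n) (a + fderiv ℝ u y a • n) (b + fderiv ℝ u y b • n) +
        fderiv ℝ f (P + y + u y • n) n * DD u y a b = 0 := by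
    intro y hy a b
    have h1 := lineQ P n u y b (du y hy) (fun x => fderiv ℝ f x a) (diff1 f _ op0 fs _ (hne y hy) a)
    have h2 := lineQ P n u y b (du y hy) (fun x => fderiv ℝ f x n) (diff1 f _ op0 fs _ (hne y hy) n)
    have h3 := lineD (fun y => fderiv ℝ u y a) y b (diff1 u O hO us y hy a)
    have h4 := h1.add (h3.mul h2)
    have h5 := dzero O hO y b hy (fun y => fderiv ℝ f (P + y + u y • n) a +
      fderiv ℝ u y a * fderiv ℝ f (P + y + u y • n) n) 0 (s1' a) _ h4
    simp only [zero_smul, add_zero] at h5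
    change DD f (P + y + u y • n) a (b + fderiv ℝ u y b • n) + (DD u y a b *
      fderiv ℝ f (P + y + u y • n) n + fderiv ℝ u y a * DD f (P + y + u y • n) n (b + fderiv ℝ u y b • n)) = 0
      at h5
    rw [DD_add_left f fs _ (hne y hy), DD_smul_left f fs _ (hne y hy)]
    linarith
  have s2' : ∀ (a b y : V d), y ∈ O → DD f (P + y + u y • n) a b +
      fderiv ℝ u y b * DD f (P + y + u y • n) a n + fderiv ℝ u y a * DD f (P + y + u y • n) n b +
      fderiv ℝ u y a * fderiv ℝ u y b * DD f (P + y + u y • n) n n +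
      fderiv ℝ f (P + y + u y • n) n * DD u y a b = 0 := by
    intro a b y hy
    have := s2 y hy a b
    rw [DD_add_left f fs _ (hne y hy), DD_smul_left f fs _ (hne y hy), DD_add_right, DD_smul_right,
      DD_add_right, DD_smul_right] at this
    linarith
  refine ⟨s1 y hy a, s2 y hy a b, ?_⟩
  have hQ := hne y hy
  have g1 := lineQ P n u y c (du y hy) (fun x => DD f x a b) (diff2 f _ op0 fs _ hQ a b)
  have g2 := lineQ P n u y c (du y hy) (fun x => DD f x a n) (diff2 f _ op0 fs _ hQ a n)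
  have g3 := lineQ P n u y c (du y hy) (fun x => DD f x n b) (diff2 f _ op0 fs _ hQ n b)
  have g4 := lineQ P n u y c (du y hy) (fun x => DD f x n n) (diff2 f _ op0 fs _ hQ n n)
  have g5 := lineQ P n u y c (du y hy) (fun x => fderiv ℝ f x n) (diff1 f _ op0 fs _ hQ n)
  have ka := lineD (fun y => fderiv ℝ u y a) y c (diff1 u O hO us y hy a)
  have kb := lineD (fun y => fderiv ℝ u y b) y c (diff1 u O hO us y hy b)
  have kk := lineD (fun y => DD u y a b) y c (diff2 u O hO us y hy a b)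
  have g6 := (((g1.add (kb.mul g2)).add (ka.mul g3)).add ((ka.mul kb).mul g4)).add (g5.mul kk)
  have h5 := dzero O hO y c hy (fun y => DD f (P + y + u y • n) a b +
      fderiv ℝ u y b * DD f (P + y + u y • n) a n + fderiv ℝ u y a * DD f (P + y + u y • n) n b +
      fderiv ℝ u y a * fderiv ℝ u y b * DD f (P + y + u y • n) n n +
      fderiv ℝ f (P + y + u y • n) n * DD u y a b) 0 (s2' a b) _ g6
  simp only [Pi.mul_apply, zero_smul, add_zero] at h5
  set Q : V d := P + y + u y • n with hQd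
  set C : V d := c + fderiv ℝ u y c • n with hC
  have h6 : D3 f Q a b C + (DD u y b c * DD f Q a n + fderiv ℝ u y b * D3 f Q a n C) +
      (DD u y a c * DD f Q n b + fderiv ℝ u y a * D3 f Q n b C) +
      ((DD u y a c * fderiv ℝ u y b + fderiv ℝ u y a * DD u y b c) * DD f Q n n +
        fderiv ℝ u y a * fderiv ℝ u y b * D3 f Q n n C) +
      (DD f Q n C * DD u y a b + fderiv ℝ f Q n * D3 u y a b c) = 0 := h5
  rw [D3_add_left f fs Q hQ, D3_smul_left f fs Q hQ, D3_add_mid f fs Q hQ, D3_smul_mid f fs Q hQ,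
    D3_add_mid f fs Q hQ, D3_smul_mid f fs Q hQ, DD_add_right f Q n b, DD_smul_right f Q n n,
    DD_add_right f Q n a, DD_smul_right f Q n n, DD_comm f fs Q hQ n a]
  linarith

end Pool.Agent.Work.MP_659252_gt.QR
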