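import Pool.Agent.Work.MP_659252_gt.QR.Q.Pln

/-!
# The local equation of a quadric.  Size: M.

PROOF.  `lam u 0` is linear on `S`: homogeneous by `lam_smul`; additive for independent `a`, `b`: `D3 u 0 (a+b) (a+b) (a+b) = 3 (lam a + lam b) DD u 0 (a+b) (a+b)` by expanding and `rel` for `(a, b)` and `(b, a)` (`D3 aab = 2 λ_a DD ab + λ_b DD aa`,
`D3 abb = 2 λ_b DD ab + λ_a DD bb`), and `DD u 0 (a+b) (a+b) ≠ 0` (`det` for `a + b`, `b`); for dependent `a`, `b` by homogeneity.  So it is a linear map on `S`; extend it (`LinearMap.exists_extend`) and let `m i` be its value at `Pi.single i 1`.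
`chi u a` does not depend on `a ∈ S`, `a ≠ 0`: for independent `a`, `b` by `pln`; if `b = c a`, take `e ∈ S` independent of `a` (`h2`), then also of `b`.  If `S = 0`... excluded: (`h2` with `a ≠ 0`); if `S` has no nonzero vector take `χ = 0`.
For `a = 0` the identity reads `0 = 0` (`u 0 = 0`, `DD u 0 0 0 = 0`).
-/

namespace Pool.Agent.Work.MP_659252_gt.QR

open scoped ContDiff Topology
open Pool.Agent.Work.MP_659252_gt.Z (V Ten val Tan InT IsZoll IsMetric IsGeodesic)

variable {d : ℕ}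

private theorem ind_swap {a b : V d} (h : Ind a b) : Ind b a := by
  intro s t hst
  have h1 := h t s (by rw [add_comm]; exact hst)
  exact ⟨h1.2, h1.1⟩

private theorem ind_add {a b : V d} (h : Ind a b) : Ind (a + b) b := by
  intro s t hst
  have h1 := h s (s + t) (by rw [← hst]; module)
  exact ⟨h1.1, by linarith [h1.1, h1.2]⟩

private theorem not_ind {a b : V d} (ha : a ≠ 0) (h : ¬ Ind a b) : ∃ c : ℝ, b = c • a := by
  unfold Ind at h
  push Not at h
  obtain ⟨s, t, hst, hne⟩ := h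
  have ht : t ≠ 0 := by
    rintro rfl
    rw [zero_smul, add_zero] at hst
    have hs : s = 0 := (smul_eq_zero.1 hst).resolve_right ha
    exact hne hs rfl
  refine ⟨-s / t, ?_⟩
  have h1 : t • b = -(s • a) := by
    rw [eq_neg_iff_add_eq_zero, add_comm]
    exact hst
  have h2 : b = t⁻¹ • (t • b) := by rw [inv_smul_smul₀ ht]
  rw [h2, h1, smul_neg, smul_smul, ← neg_smul]
  congr 1
  field_simp

private theorem DD_ne {u : V d → ℝ} {r : ℝ} {S : Submodule ℝ (V d)} (h : Apo u r S) {a b : V d} (ha : a ∈ S)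
    (hb : b ∈ S) (hab : Ind a b) : DD u 0 a a ≠ 0 := by
  intro h0
  have h1 := h.det 0 (Metric.mem_ball_self h.rpos) S.zero_mem a ha b hb hab
  rw [h0, zero_mul] at h1
  nlinarith [sq_nonneg (DD u 0 a b)]

private theorem lam_add_ind {u : V d → ℝ} {r : ℝ} {S : Submodule ℝ (V d)} (h : Apo u r S) {a b : V d} (ha : a ∈ S)
    (hb : b ∈ S) (hab : Ind a b) : lam u 0 (a + b) = lam u 0 a + lam u 0 b := by
  have hO : IsOpen (Metric.ball (0 : V d) r) := Metric.isOpen_ball
  have h0 : (0 : V d) ∈ Metric.ball (0 : V d) r := Metric.mem_ball_self h.rpos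
  have hs := h.smooth
  have nA := DD_ne h ha hb hab
  have nB := DD_ne h hb ha (ind_swap hab)
  have nS := DD_ne h (S.add_mem ha hb) hb (ind_add hab)
  have eA : D3 u 0 a a a = 3 * lam u 0 a * DD u 0 a a := by
    unfold lam
    field_simp
  have eB : D3 u 0 b b b = 3 * lam u 0 b * DD u 0 b b := by
    unfold lam
    field_simp
  have r1 := h.rel 0 h0 S.zero_mem a ha b hb hab
  have r2 := h.rel 0 h0 S.zero_mem b hb a ha (ind_swap hab)
  have dc : DD u 0 b a = DD u 0 a b := DDo_comm u _ hO hs 0 h0 b a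
  have dadd : DD u 0 (a + b) (a + b) = DD u 0 a a + 2 * DD u 0 a b + DD u 0 b b := by
    rw [DDo_add_left u _ hO hs 0 h0 a b (a + b), DDo_comm u _ hO hs 0 h0 a (a + b),
      DDo_comm u _ hO hs 0 h0 b (a + b), DDo_add_left u _ hO hs 0 h0 a b a,
      DDo_add_left u _ hO hs 0 h0 a b b, dc]
    ring
  have c12 := D3o_comm12 u _ hO hs 0 h0
  have c23 := D3o_comm23 u _ hO hs 0 h0
  have add3 : ∀ x y p q : V d, D3 u 0 x y (p + q) = D3 u 0 x y p + D3 u 0 x y q := by
    intro x y p q
    unfold D3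
    rw [map_add]
  have add2 : ∀ x y p q : V d, D3 u 0 x (p + q) y = D3 u 0 x p y + D3 u 0 x q y := by
    intro x y p q
    rw [c23 x (p + q) y, add3, c23 x p y, c23 x q y]
  have add1 : ∀ x y p q : V d, D3 u 0 (p + q) x y = D3 u 0 p x y + D3 u 0 q x y := by
    intro x y p q
    rw [c12 (p + q) x y, add2, c12 p x y, c12 q x y]
  have e3 : D3 u 0 (a + b) (a + b) (a + b) =
      D3 u 0 a a a + 3 * D3 u 0 a a b + 3 * D3 u 0 b b a + D3 u 0 b b b := by
    have q1 : D3 u 0 a b a = D3 u 0 a a b := c23 a b a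
    have q2 : D3 u 0 b a a = D3 u 0 a a b := by rw [c12 b a a, q1]
    have q3 : D3 u 0 b a b = D3 u 0 b b a := c23 b a b
    have q4 : D3 u 0 a b b = D3 u 0 b b a := by rw [c12 a b b, q3]
    simp only [add1, add2, add3, q1, q2, q3, q4]
    ring
  have key : D3 u 0 (a + b) (a + b) (a + b) =
      3 * (lam u 0 a + lam u 0 b) * DD u 0 (a + b) (a + b) := by
    rw [e3, eA, eB, r1, r2, dc, dadd]
    ring
  have : lam u 0 (a + b) = D3 u 0 (a + b) (a + b) (a + b) / (3 * DD u 0 (a + b) (a + b)) := rfl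
  rw [this, key]
  field_simp

private theorem lam_add {u : V d → ℝ} {r : ℝ} {S : Submodule ℝ (V d)} (h : Apo u r S) {a b : V d} (ha : a ∈ S)
    (hb : b ∈ S) : lam u 0 (a + b) = lam u 0 a + lam u 0 b := by
  have hO : IsOpen (Metric.ball (0 : V d) r) := Metric.isOpen_ball
  have h0 : (0 : V d) ∈ Metric.ball (0 : V d) r := Metric.mem_ball_self h.rpos
  have hsm := lam_smul u _ hO h.smooth 0 h0
  by_cases ha0 : a = 0
  · have h1 := hsm (0 : V d) 0
    rw [zero_smul, zero_mul] at h1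
    rw [ha0, h1, zero_add, zero_add]
  · by_cases hab : Ind a b
    · exact lam_add_ind h ha hb hab
    · obtain ⟨c, rfl⟩ := not_ind ha0 hab
      have e : a + c • a = (1 + c) • a := by module
      rw [e, hsm, hsm]
      ring

theorem locA (u : V d → ℝ) (r : ℝ) (S : Submodule ℝ (V d)) (h : Apo u r S)
    (h2 : ∀ a ∈ S, a ≠ 0 → ∃ b ∈ S, Ind a b) : ∃ (χ : ℝ) (m : V d), ∀ a ∈ S, ‖a‖ < r →
      (1 / 2) * χ * u a ^ 2 + (1 - m ⬝ᵥ a) * u a = (1 / 2) * DD u 0 a a := by
  have hO : IsOpen (Metric.ball (0 : V d) r) := Metric.isOpen_ball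
  have h0 : (0 : V d) ∈ Metric.ball (0 : V d) r := Metric.mem_ball_self h.rpos
  have hsm := lam_smul u _ hO h.smooth 0 h0
  -- the linear form
  let ℓ : S →ₗ[ℝ] ℝ :=
    { toFun := fun v => lam u 0 v
      map_add' := fun v w => lam_add h v.2 w.2
      map_smul' := fun c v => by
        show lam u 0 ((c • v : S) : V d) = c * lam u 0 v
        rw [Submodule.coe_smul]
        exact hsm v c }
  obtain ⟨g, hg⟩ := LinearMap.exists_extend ℓ
  have hgS : ∀ a ∈ S, g a = lam u 0 a := by
    intro a ha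
    have := congrArg (fun φ : S →ₗ[ℝ] ℝ => φ ⟨a, ha⟩) hg
    exact this
  let m : V d := fun i => g (Pi.single i 1)
  have hm : ∀ a : V d, m ⬝ᵥ a = g a := by
    intro a
    have e : a = ∑ i, a i • (Pi.single i (1 : ℝ) : V d) := by
      funext j
      simp [Finset.sum_apply, Pi.single_apply]
    calc m ⬝ᵥ a = ∑ i, a i * g (Pi.single i 1) := by
          unfold dotProduct
          exact Finset.sum_congr rfl fun i _ => mul_comm _ _
      _ = g (∑ i, a i • (Pi.single i (1 : ℝ) : V d)) := by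
          rw [map_sum]
          exact Finset.sum_congr rfl fun i _ => by rw [map_smul, smul_eq_mul]
      _ = g a := by rw [← e]
  -- the constant
  obtain ⟨χ, hχ⟩ : ∃ χ : ℝ, ∀ a ∈ S, a ≠ 0 → chi u a = χ := by
    by_cases hne : ∃ a₀ ∈ S, a₀ ≠ 0
    · obtain ⟨a₀, ha₀, ha₀0⟩ := hne
      refine ⟨chi u a₀, fun a ha ha0 => ?_⟩
      by_cases hi : Ind a a₀
      · exact (pln u r S h a a₀ ha ha₀ hi).1
      · obtain ⟨c, hc⟩ := not_ind ha0 hi
        obtain ⟨e, he, hae⟩ := h2 a ha ha0
        have hc0 : c ≠ 0 := by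
          rintro rfl
          rw [zero_smul] at hc
          exact ha₀0 hc
        have hi2 : Ind a₀ e := by
          intro s t hst
          rw [hc, smul_smul] at hst
          have h3 := hae _ _ hst
          exact ⟨(mul_eq_zero.1 h3.1).resolve_right hc0, h3.2⟩
        rw [(pln u r S h a e ha he hae).1, (pln u r S h a₀ e ha₀ he hi2).1]
    · push Not at hne
      exact ⟨0, fun a ha ha0 => absurd (hne a ha) ha0⟩
  refine ⟨χ, m, fun a ha har => ?_⟩
  by_cases ha0 : a = 0
  · rw [ha0, h.zero]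
    have : DD u 0 0 0 = 0 := by
      unfold DD
      rw [map_zero]
    rw [this]
    ring
  · obtain ⟨b, hb, hab⟩ := h2 a ha ha0
    have h3 := (pln u r S h a b ha hb hab).2 har
    rw [hχ a ha ha0] at h3
    rw [hm a, hgS a ha]
    exact h3

end Pool.Agent.Work.MP_659252_gt.QR
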