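import Mathlib

/-!
# The ordinary differential equation along a ray.  Size: S-M.

PROOF.  `p` is continuous on `(α, β)`; `s x = exp (-∫ t in 0..x, p t)`: `s 0 = 1`, `s' = -p s`.  `(ρ s)' = ρ p s - ρ p s = 0`, so `ρ s = ρ 0`.  `(s')' = (-p' + p²) s = -ρ U'' s = -ρ 0 U''`, so `s' + ρ 0 U'` is constant `= -p 0`
(`U' 0 = 0`), and `s = 1 - p 0 x - ρ 0 U` (`U 0 = 0`).  Let `F = -(1/2) ρ 0 U² + (1 - p 0 x) U`.  `F' = -p 0 U + s U'`.  `F'' = -p 0 U' + s' U' + s U'' = -2 p 0 U' - ρ 0 U'² + s U''`.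
`F^(3) = -2 p 0 U'' - 2 ρ 0 U' U'' + s' U'' + s U^(3) = 2 s' U'' + s' U'' + 3 p s U'' = 0`.  So `F'' = F''(0) = U''(0)`, `F' = U''(0) x`, `F = (1/2) U''(0) x²`.
(Functions with zero derivative on the interval are constant: `is_const_of_deriv_eq_zero` is for `ℝ`; use `IsOpen.is_const_of_deriv_eq_zero` / `Convex.is_const_of_fderivWithin_eq_zero`.)
-/

namespace Pool.Agent.Work.MP_659252_gt.QR

open scoped ContDiff Topology

private theorem ray_cd {f : ℝ → ℝ} {a b x : ℝ} (h : HasDerivAt f a x) (e : a = b) :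
    HasDerivAt f b x := e ▸ h

private theorem ray_itd {α β : ℝ} {U : ℝ → ℝ} (hU : ContDiffOn ℝ ∞ U (Set.Ioo α β)) (n : ℕ) :
    ContDiffOn ℝ ∞ (iteratedDeriv n U) (Set.Ioo α β) := by
  induction n with
  | zero => rw [iteratedDeriv_zero]; exact hU
  | succ n ih =>
    rw [iteratedDeriv_succ]
    exact ih.deriv_of_isOpen isOpen_Ioo (by simp)

private theorem ray_hd {α β : ℝ} {U : ℝ → ℝ} (hU : ContDiffOn ℝ ∞ U (Set.Ioo α β)) (n : ℕ) {x : ℝ}
    (hx : x ∈ Set.Ioo α β) : HasDerivAt (iteratedDeriv n U) (iteratedDeriv (n + 1) U x) x := by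
  rw [iteratedDeriv_succ]
  have h1 := (ray_itd hU n).contDiffAt (isOpen_Ioo.mem_nhds hx)
  exact (h1.differentiableAt (by simp)).hasDerivAt

private theorem ray_const {α β : ℝ} (hα : α < 0) (hβ : 0 < β) {g : ℝ → ℝ}
    (hg : ∀ x ∈ Set.Ioo α β, HasDerivAt g 0 x) {x : ℝ} (hx : x ∈ Set.Ioo α β) : g x = g 0 := by
  refine isOpen_Ioo.is_const_of_deriv_eq_zero (convex_Ioo α β).isPreconnected
    (fun y hy => (hg y hy).differentiableAt.differentiableWithinAt) (fun y hy => (hg y hy).deriv) hx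
    ⟨hα, hβ⟩

theorem ray (α β : ℝ) (hα : α < 0) (hβ : 0 < β) (U p ρ : ℝ → ℝ) (hU : ContDiffOn ℝ ∞ U (Set.Ioo α β))
    (h3 : ∀ x ∈ Set.Ioo α β, iteratedDeriv 3 U x = 3 * p x * iteratedDeriv 2 U x)
    (hp : ∀ x ∈ Set.Ioo α β, HasDerivAt p (p x ^ 2 + ρ x * iteratedDeriv 2 U x) x)
    (hρ : ∀ x ∈ Set.Ioo α β, HasDerivAt ρ (ρ x * p x) x) (U0 : U 0 = 0) (U1 : deriv U 0 = 0) (x : ℝ)
    (hx : x ∈ Set.Ioo α β) :
    -(1 / 2) * ρ 0 * U x ^ 2 + (1 - p 0 * x) * U x = (1 / 2) * iteratedDeriv 2 U 0 * x ^ 2 := by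
  have h0J : (0 : ℝ) ∈ Set.Ioo α β := ⟨hα, hβ⟩
  have hpc : ContinuousOn p (Set.Ioo α β) := fun y hy => (hp y hy).continuousAt.continuousWithinAt
  have dU : ∀ y ∈ Set.Ioo α β, HasDerivAt U (deriv U y) y := by
    intro y hy
    have h := ray_hd hU 0 hy
    rw [iteratedDeriv_zero, zero_add, iteratedDeriv_one] at h
    exact h
  have dU1 : ∀ y ∈ Set.Ioo α β, HasDerivAt (deriv U) (iteratedDeriv 2 U y) y := by
    intro y hy
    have h := ray_hd hU 1 hy
    rw [iteratedDeriv_one] at h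
    exact h
  have dU2 : ∀ y ∈ Set.Ioo α β,
      HasDerivAt (iteratedDeriv 2 U) (3 * p y * iteratedDeriv 2 U y) y := by
    intro y hy
    have h := ray_hd hU 2 hy
    rw [← h3 y hy]
    exact h
  -- the integral of `p`
  have dP : ∀ y ∈ Set.Ioo α β, HasDerivAt (fun z => ∫ t in (0:ℝ)..z, p t) (p y) y := by
    intro y hy
    apply intervalIntegral.integral_hasDerivAt_right
    · apply ContinuousOn.intervalIntegrable
      apply hpc.mono
      have : Set.OrdConnected (Set.Ioo α β) := Set.ordConnected_Ioo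
      exact this.uIcc_subset h0J hy
    · exact hpc.stronglyMeasurableAtFilter isOpen_Ioo y hy
    · exact (hp y hy).continuousAt
  obtain ⟨s, hs0, ds⟩ : ∃ s : ℝ → ℝ, s 0 = 1 ∧ ∀ y ∈ Set.Ioo α β, HasDerivAt s (-(p y) * s y) y := by
    refine ⟨fun z => Real.exp (-∫ t in (0:ℝ)..z, p t), by simp, fun y hy => ?_⟩
    have h := ((dP y hy).neg).exp
    refine ray_cd h ?_
    simp only [Pi.neg_apply]
    ring
  have c1 : ∀ y ∈ Set.Ioo α β, ρ y * s y = ρ 0 := by
    intro y hy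
    have h := ray_const hα hβ (g := fun z => ρ z * s z) (fun z hz => by
      have h1 := (hρ z hz).mul (ds z hz)
      refine ray_cd h1 ?_
      ring) hy
    simpa [hs0] using h
  have c2 : ∀ y ∈ Set.Ioo α β, -(p y) * s y + ρ 0 * deriv U y = -p 0 := by
    intro y hy
    have h := ray_const hα hβ (g := fun z => -(p z) * s z + ρ 0 * deriv U z) (fun z hz => by
      have h1 := (((hp z hz).neg).mul (ds z hz)).add ((dU1 z hz).const_mul (ρ 0))
      refine ray_cd h1 ?_
      rw [← c1 z hz]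
      simp only [Pi.neg_apply]
      ring) hy
    simpa [hs0, U1] using h
  have c3 : ∀ y ∈ Set.Ioo α β, s y = 1 - p 0 * y - ρ 0 * U y := by
    intro y hy
    have h := ray_const hα hβ (g := fun z => s z + ρ 0 * U z + p 0 * z) (fun z hz => by
      have h1 := ((ds z hz).add ((dU z hz).const_mul (ρ 0))).add ((hasDerivAt_id z).const_mul (p 0))
      refine ray_cd h1 ?_
      linarith [c2 z hz]) hy
    simp only [hs0, U0, mul_zero, add_zero] at h
    linarith
  -- the function F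
  have dF : ∀ y ∈ Set.Ioo α β, HasDerivAt (fun z => -(1 / 2) * ρ 0 * U z ^ 2 + (1 - p 0 * z) * U z)
      (s y * deriv U y - p 0 * U y) y := by
    intro y hy
    have h1 := (((dU y hy).pow 2).const_mul (-(1 / 2) * ρ 0)).add
      ((((hasDerivAt_id y).const_mul (p 0)).const_sub 1).mul (dU y hy))
    have h2 : HasDerivAt (fun z => -(1 / 2) * ρ 0 * U z ^ 2 + (1 - p 0 * z) * U z)
        (-(1 / 2) * ρ 0 * (((2 : ℕ) : ℝ) * U y ^ (2 - 1) * deriv U y) +
          (-(p 0 * 1) * U y + (1 - p 0 * y) * deriv U y)) y := h1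
    refine ray_cd h2 ?_
    rw [c3 y hy]
    push_cast
    ring
  have dF1 : ∀ y ∈ Set.Ioo α β, HasDerivAt (fun z => s z * deriv U z - p 0 * U z)
      (-(p y) * s y * deriv U y + s y * iteratedDeriv 2 U y - p 0 * deriv U y) y := by
    intro y hy
    exact ((ds y hy).mul (dU1 y hy)).sub ((dU y hy).const_mul (p 0))
  have c4 : ∀ y ∈ Set.Ioo α β,
      -(p y) * s y * deriv U y + s y * iteratedDeriv 2 U y - p 0 * deriv U y = iteratedDeriv 2 U 0 := by
    intro y hy
    have h := ray_const hα hβ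
      (g := fun z => (-p 0 - ρ 0 * deriv U z) * deriv U z + s z * iteratedDeriv 2 U z - p 0 * deriv U z)
      (fun z hz => by
        have h1 := ((((((dU1 z hz).const_mul (ρ 0)).const_sub (-p 0)).mul (dU1 z hz))).add
          ((ds z hz).mul (dU2 z hz))).sub ((dU1 z hz).const_mul (p 0))
        refine ray_cd h1 ?_
        have h2 := c2 z hz
        have h3 : ρ 0 * deriv U z = -p 0 + p z * s z := by linarith
        linear_combination (-2 * iteratedDeriv 2 U z) * h3) hy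
    simp only [hs0, U1, mul_zero, one_mul, sub_zero, zero_add] at h
    have h2 := c2 y hy
    have h3 : -(p y) * s y = -p 0 - ρ 0 * deriv U y := by linarith
    rw [h3]
    exact h
  have c5 : ∀ y ∈ Set.Ioo α β, s y * deriv U y - p 0 * U y = iteratedDeriv 2 U 0 * y := by
    intro y hy
    have h := ray_const hα hβ (g := fun z => s z * deriv U z - p 0 * U z - iteratedDeriv 2 U 0 * z)
      (fun z hz => by
        have h1 := (dF1 z hz).sub ((hasDerivAt_id z).const_mul (iteratedDeriv 2 U 0))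
        refine ray_cd h1 ?_
        rw [c4 z hz]
        ring) hy
    simp only [hs0, U1, U0, mul_zero, sub_zero] at h
    linarith
  have h := ray_const hα hβ (g := fun z => (-(1 / 2) * ρ 0 * U z ^ 2 + (1 - p 0 * z) * U z) -
      (1 / 2) * iteratedDeriv 2 U 0 * z ^ 2) (fun z hz => by
        have h1 := (dF z hz).sub (((hasDerivAt_id z).pow 2).const_mul ((1 / 2) * iteratedDeriv 2 U 0))
        have h2 : HasDerivAt (fun z => (-(1 / 2) * ρ 0 * U z ^ 2 + (1 - p 0 * z) * U z) -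
          (1 / 2) * iteratedDeriv 2 U 0 * z ^ 2) ((s z * deriv U z - p 0 * U z) -
            (1 / 2) * iteratedDeriv 2 U 0 * (((2 : ℕ) : ℝ) * z ^ (2 - 1) * 1)) z := h1
        refine ray_cd h2 ?_
        rw [c5 z hz]
        push_cast
        ring) hx
  simp only [U0, mul_zero, ne_eq, OfNat.ofNat_ne_zero, not_false_eq_true, zero_pow, sub_zero,
    add_zero] at h
  linarith

end Pool.Agent.Work.MP_659252_gt.QR
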