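import Pool.Agent.Work.MP_659252_gt.QR.Q.Defs

/-!
# The integrability conditions, first part.  Size: M.

Write `w11 = p1 (p1 w)`, `w12 = p2 (p1 w)`, `w22 = p2 (p2 w)`, `w111 = p1 w11`, `w112 = p2 w11`, `w122 = p2 w12`, `w222 = p2 w22`; all are smooth on the open set `O`, and partial derivatives commute:
`p1 w12 = w112`, `p1 w22 = w122` (`p1 (p2 F) = p2 (p1 F)` on `O` for smooth `F`: symmetry of the second derivative; equalities on `O` may be differentiated).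
Let `M11 = p1 p - p²`, `M12 = p2 p - p q`, `M21 = p1 q - p q`, `M22 = p2 q - q²`.
(A) `p2` of `h1` and `p1` of `h2` are both `p2 (p1 w11) = p1 (p2 w11)`: `3 p_2 w11 + 3 p w112 = 2 p_1 w12 + 2 p w112 + q_1 w11 + q w111`; insert `h1`, `h2`: `3 M12 w11 - M21 w11 - 2 M11 w12 = 0`.
(B) `p2` of `h3` and `p1` of `h4` (`p1 w222 = p2 (p1 w22) = p2 w122`): `2 q_2 w12 + 2 q w122 + p_2 w22 + p w222 = 3 q_1 w22 + 3 q w122`: `2 M22 w12 + M12 w22 - 3 M21 w22 = 0`.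
(C) `p2` of `h2` and `p1` of `h3` (both are the derivative of `w` of order `1122`): `2 p_2 w12 + 2 p w122 + q_2 w11 + q w112 = 2 q_1 w12 + 2 q w112 + p_1 w22 + p w122`: `2 (M12 - M21) w12 + M22 w11 - M11 w22 = 0`.
With `D = M12 - M21`, `S = M12 + M21`: (A) `(S + 2 D) w11 = 2 M11 w12`, (B) `(S - 2 D) w22 = 2 M22 w12`, (C) `2 D w12 = M11 w22 - M22 w11`.  `w22 (A) - w11 (B)`: `4 D w11 w22 = 2 w12 (M11 w22 - M22 w11) = 4 D w12²`, so `D (w11 w22 - w12²) = 0`, `D = 0`.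
Since `w11 w22 > w12² ≥ 0`, `w11 ≠ 0`: put `ρ = M11/w11` (smooth on `O`).  Then `M22 = ρ w22`, `M12 = M21 = S/2 = M11 w12/w11 = ρ w12`.
-/

namespace Pool.Agent.Work.MP_659252_gt.QR

open scoped ContDiff Topology
open Pool.Agent.Work.MP_659252_gt.Z (V Ten val Tan InT IsZoll IsMetric IsGeodesic)

variable {d : ℕ}

private lemma sm1 {O : Set (ℝ × ℝ)} (hO : IsOpen O) {F : ℝ × ℝ → ℝ} (hF : ContDiffOn ℝ ∞ F O) :
    ContDiffOn ℝ ∞ (p1 F) O := by
  have h : ContDiffOn ℝ ∞ (fderiv ℝ F) O := hF.fderiv_of_isOpen hO (by simp)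
  exact h.clm_apply contDiffOn_const

private lemma sm2 {O : Set (ℝ × ℝ)} (hO : IsOpen O) {F : ℝ × ℝ → ℝ} (hF : ContDiffOn ℝ ∞ F O) :
    ContDiffOn ℝ ∞ (p2 F) O := by
  have h : ContDiffOn ℝ ∞ (fderiv ℝ F) O := hF.fderiv_of_isOpen hO (by simp)
  exact h.clm_apply contDiffOn_const

private lemma df {O : Set (ℝ × ℝ)} (hO : IsOpen O) {F : ℝ × ℝ → ℝ} (hF : ContDiffOn ℝ ∞ F O) {z : ℝ × ℝ}
    (hz : z ∈ O) : DifferentiableAt ℝ F z :=
  (hF.contDiffAt (hO.mem_nhds hz)).differentiableAt (by simp)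

private lemma cg {O : Set (ℝ × ℝ)} (hO : IsOpen O) {F G : ℝ × ℝ → ℝ} (h : ∀ z ∈ O, F z = G z) {z : ℝ × ℝ}
    (hz : z ∈ O) : fderiv ℝ F z = fderiv ℝ G z := by
  apply Filter.EventuallyEq.fderiv_eq
  filter_upwards [hO.mem_nhds hz] with y hy using h y hy

private lemma symm12 {O : Set (ℝ × ℝ)} (hO : IsOpen O) {F : ℝ × ℝ → ℝ} (hF : ContDiffOn ℝ ∞ F O) {z : ℝ × ℝ}
    (hz : z ∈ O) : p1 (p2 F) z = p2 (p1 F) z := by
  have hc : ContDiffAt ℝ ∞ F z := hF.contDiffAt (hO.mem_nhds hz)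
  have hs : IsSymmSndFDerivAt ℝ F z := hc.isSymmSndFDerivAt (by
    simp only [minSmoothness_of_isRCLikeNormedField]
    exact WithTop.coe_le_coe.2 le_top)
  have hd : DifferentiableAt ℝ (fderiv ℝ F) z := by
    have h : ContDiffOn ℝ ∞ (fderiv ℝ F) O := hF.fderiv_of_isOpen hO (by simp)
    exact (h.contDiffAt (hO.mem_nhds hz)).differentiableAt (by simp)
  have e1 : p1 (p2 F) z = fderiv ℝ (fderiv ℝ F) z (1, 0) (0, 1) := by
    show fderiv ℝ (fun y => fderiv ℝ F y (0, 1)) z (1, 0) = _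
    rw [fderiv_clm_apply hd (differentiableAt_const _)]
    simp
  have e2 : p2 (p1 F) z = fderiv ℝ (fderiv ℝ F) z (0, 1) (1, 0) := by
    show fderiv ℝ (fun y => fderiv ℝ F y (1, 0)) z (0, 1) = _
    rw [fderiv_clm_apply hd (differentiableAt_const _)]
    simp
  rw [e1, e2]
  exact hs.eq _ _

private lemma ml {F G : ℝ × ℝ → ℝ} {z : ℝ × ℝ} (hF : DifferentiableAt ℝ F z) (hG : DifferentiableAt ℝ G z)
    (v : ℝ × ℝ) : fderiv ℝ (fun y => F y * G y) z v = fderiv ℝ F z v * G z + F z * fderiv ℝ G z v := by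
  rw [fderiv_fun_mul hF hG]
  simp only [_root_.add_apply, _root_.smul_apply, smul_eq_mul]
  ring

private lemma ad {F G : ℝ × ℝ → ℝ} {z : ℝ × ℝ} (hF : DifferentiableAt ℝ F z) (hG : DifferentiableAt ℝ G z)
    (v : ℝ × ℝ) : fderiv ℝ (fun y => F y + G y) z v = fderiv ℝ F z v + fderiv ℝ G z v := by
  rw [fderiv_fun_add hF hG]
  rfl

private lemma cm {F : ℝ × ℝ → ℝ} {z : ℝ × ℝ} (hF : DifferentiableAt ℝ F z) (c : ℝ)
    (v : ℝ × ℝ) : fderiv ℝ (fun y => c * F y) z v = c * fderiv ℝ F z v := by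
  rw [fderiv_const_mul hF]
  rfl

theorem twoA (O : Set (ℝ × ℝ)) (hO : IsOpen O) (w p q : ℝ × ℝ → ℝ) (hw : ContDiffOn ℝ ∞ w O)
    (hp : ContDiffOn ℝ ∞ p O) (hq : ContDiffOn ℝ ∞ q O)
    (h1 : ∀ z ∈ O, p1 (p1 (p1 w)) z = 3 * p z * p1 (p1 w) z)
    (h2 : ∀ z ∈ O, p2 (p1 (p1 w)) z = 2 * p z * p2 (p1 w) z + q z * p1 (p1 w) z)
    (h3 : ∀ z ∈ O, p2 (p2 (p1 w)) z = 2 * q z * p2 (p1 w) z + p z * p2 (p2 w) z)
    (h4 : ∀ z ∈ O, p2 (p2 (p2 w)) z = 3 * q z * p2 (p2 w) z)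
    (hdet : ∀ z ∈ O, 0 < p1 (p1 w) z * p2 (p2 w) z - p2 (p1 w) z ^ 2) :
    ∃ ρ : ℝ × ℝ → ℝ, ContDiffOn ℝ ∞ ρ O ∧ ∀ z ∈ O, p1 p z = p z ^ 2 + ρ z * p1 (p1 w) z ∧
      p2 p z = p z * q z + ρ z * p2 (p1 w) z ∧ p1 q z = p z * q z + ρ z * p2 (p1 w) z ∧
      p2 q z = q z ^ 2 + ρ z * p2 (p2 w) z := by
  have s1 := sm1 hO hw
  have s2 := sm2 hO hw
  have s11 := sm1 hO s1
  have s12 := sm2 hO s1
  have s22 := sm2 hO s2
  have hne : ∀ z ∈ O, p1 (p1 w) z ≠ 0 := by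
    intro z hz h0
    have := hdet z hz
    rw [h0] at this
    nlinarith [sq_nonneg (p2 (p1 w) z)]
  -- the third derivatives
  have e12 : ∀ z ∈ O, p1 (p2 w) z = p2 (p1 w) z := fun z hz => symm12 hO hw hz
  have t112 : ∀ z ∈ O, p1 (p2 (p1 w)) z = p2 (p1 (p1 w)) z := fun z hz => symm12 hO s1 hz
  have t122 : ∀ z ∈ O, p1 (p2 (p2 w)) z = p2 (p2 (p1 w)) z := by
    intro z hz
    rw [symm12 hO s2 hz]
    show fderiv ℝ (p1 (p2 w)) z (0, 1) = fderiv ℝ (p2 (p1 w)) z (0, 1)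
    rw [cg hO e12 hz]
  -- derivatives of the four relations
  have key : ∀ z ∈ O, p1 p z * p1 (p1 w) z - p z ^ 2 * p1 (p1 w) z = (p1 p z - p z ^ 2) * p1 (p1 w) z ∧
      3 * (p2 p z - p z * q z) * p1 (p1 w) z - (p1 q z - p z * q z) * p1 (p1 w) z -
        2 * (p1 p z - p z ^ 2) * p2 (p1 w) z = 0 ∧
      2 * (p2 q z - q z ^ 2) * p2 (p1 w) z + (p2 p z - p z * q z) * p2 (p2 w) z -
        3 * (p1 q z - p z * q z) * p2 (p2 w) z = 0 ∧
      2 * ((p2 p z - p z * q z) - (p1 q z - p z * q z)) * p2 (p1 w) z + (p2 q z - q z ^ 2) * p1 (p1 w) z -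
        (p1 p z - p z ^ 2) * p2 (p2 w) z = 0 := by
    intro z hz
    have dp := df hO hp hz
    have dq := df hO hq hz
    have d11 := df hO s11 hz
    have d12 := df hO s12 hz
    have d22 := df hO s22 hz
    refine ⟨by ring, ?_, ?_, ?_⟩
    · -- (A)
      have a1 : p2 (p1 (p1 (p1 w))) z = p1 (p2 (p1 (p1 w))) z := (symm12 hO s11 hz).symm
      have a2 : p2 (p1 (p1 (p1 w))) z = 3 * (p2 p z * p1 (p1 w) z + p z * p2 (p1 (p1 w)) z) := by
        show fderiv ℝ (p1 (p1 (p1 w))) z (0, 1) = _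
        rw [cg hO (G := fun z => 3 * (p z * p1 (p1 w) z)) (fun z hz => by rw [h1 z hz]; ring) hz, cm (dp.fun_mul d11), ml dp d11]
        rfl
      have a3 : p1 (p2 (p1 (p1 w))) z = 2 * (p1 p z * p2 (p1 w) z + p z * p1 (p2 (p1 w)) z) +
          (p1 q z * p1 (p1 w) z + q z * p1 (p1 (p1 w)) z) := by
        show fderiv ℝ (p2 (p1 (p1 w))) z (1, 0) = _
        rw [cg hO (G := fun z => 2 * (p z * p2 (p1 w) z) + q z * p1 (p1 w) z) (fun z hz => by rw [h2 z hz]; ring) hz,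
          ad ((dp.fun_mul d12).const_mul 2) (dq.fun_mul d11), cm (dp.fun_mul d12), ml dp d12, ml dq d11]
        rfl
      rw [a2, a3, t112 z hz, h1 z hz, h2 z hz] at a1
      linear_combination a1
    · -- (B)
      have a1 : p1 (p2 (p2 (p2 w))) z = p2 (p1 (p2 (p2 w))) z := symm12 hO s22 hz
      have a1' : p2 (p1 (p2 (p2 w))) z = p2 (p2 (p2 (p1 w))) z := by
        show fderiv ℝ (p1 (p2 (p2 w))) z (0, 1) = fderiv ℝ (p2 (p2 (p1 w))) z (0, 1)
        rw [cg hO t122 hz]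
      have a2 : p1 (p2 (p2 (p2 w))) z = 3 * (p1 q z * p2 (p2 w) z + q z * p1 (p2 (p2 w)) z) := by
        show fderiv ℝ (p2 (p2 (p2 w))) z (1, 0) = _
        rw [cg hO (G := fun z => 3 * (q z * p2 (p2 w) z)) (fun z hz => by rw [h4 z hz]; ring) hz, cm (dq.fun_mul d22), ml dq d22]
        rfl
      have a3 : p2 (p2 (p2 (p1 w))) z = 2 * (p2 q z * p2 (p1 w) z + q z * p2 (p2 (p1 w)) z) +
          (p2 p z * p2 (p2 w) z + p z * p2 (p2 (p2 w)) z) := by
        show fderiv ℝ (p2 (p2 (p1 w))) z (0, 1) = _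
        rw [cg hO (G := fun z => 2 * (q z * p2 (p1 w) z) + p z * p2 (p2 w) z) (fun z hz => by rw [h3 z hz]; ring) hz,
          ad ((dq.fun_mul d12).const_mul 2) (dp.fun_mul d22), cm (dq.fun_mul d12), ml dq d12, ml dp d22]
        rfl
      rw [a1', a2, a3, t122 z hz, h3 z hz, h4 z hz] at a1
      linear_combination -a1
    · -- (C)
      have a1 : p2 (p2 (p1 (p1 w))) z = p1 (p2 (p2 (p1 w))) z := by
        rw [symm12 hO s12 hz]
        show fderiv ℝ (p2 (p1 (p1 w))) z (0, 1) = fderiv ℝ (p1 (p2 (p1 w))) z (0, 1)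
        rw [cg hO t112 hz]
      have a2 : p2 (p2 (p1 (p1 w))) z = 2 * (p2 p z * p2 (p1 w) z + p z * p2 (p2 (p1 w)) z) +
          (p2 q z * p1 (p1 w) z + q z * p2 (p1 (p1 w)) z) := by
        show fderiv ℝ (p2 (p1 (p1 w))) z (0, 1) = _
        rw [cg hO (G := fun z => 2 * (p z * p2 (p1 w) z) + q z * p1 (p1 w) z) (fun z hz => by rw [h2 z hz]; ring) hz,
          ad ((dp.fun_mul d12).const_mul 2) (dq.fun_mul d11), cm (dp.fun_mul d12), ml dp d12, ml dq d11]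
        rfl
      have a3 : p1 (p2 (p2 (p1 w))) z = 2 * (p1 q z * p2 (p1 w) z + q z * p1 (p2 (p1 w)) z) +
          (p1 p z * p2 (p2 w) z + p z * p1 (p2 (p2 w)) z) := by
        show fderiv ℝ (p2 (p2 (p1 w))) z (1, 0) = _
        rw [cg hO (G := fun z => 2 * (q z * p2 (p1 w) z) + p z * p2 (p2 w) z) (fun z hz => by rw [h3 z hz]; ring) hz,
          ad ((dq.fun_mul d12).const_mul 2) (dp.fun_mul d22), cm (dq.fun_mul d12), ml dq d12, ml dp d22]
        rfl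
      rw [a2, a3, t112 z hz, t122 z hz, h2 z hz, h3 z hz] at a1
      linear_combination a1
  refine ⟨fun z => (p1 p z - p z ^ 2) / p1 (p1 w) z, ?_, ?_⟩
  · exact ((sm1 hO hp).sub (hp.pow 2)).div s11 hne
  · intro z hz
    obtain ⟨-, A, B, C⟩ := key z hz
    have hn := hne z hz
    have hd := hdet z hz
    set m11 := p1 p z - p z ^ 2 with hm11
    set m12 := p2 p z - p z * q z with hm12
    set m21 := p1 q z - p z * q z with hm21
    set m22 := p2 q z - q z ^ 2 with hm22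
    set a := p1 (p1 w) z with ha
    set b := p2 (p1 w) z with hb
    set c := p2 (p2 w) z with hc
    have hD : m12 - m21 = 0 := by
      have h : (m12 - m21) * (a * c - b ^ 2) = 0 := by
        linear_combination (c / 4) * A + (a / 4) * B - (b / 2) * C
      rcases mul_eq_zero.1 h with h | h
      · exact h
      · exact absurd h hd.ne'
    have hE : m21 = m12 := by linarith
    rw [hE] at A B C
    have h12 : m12 * a = m11 * b := by linarith
    have h22 : m22 * a = m11 * c := by linarith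
    have k12 : m12 = m11 / a * b := by field_simp; linarith
    have k22 : m22 = m11 / a * c := by field_simp; linarith
    have k11 : m11 = m11 / a * a := by field_simp
    refine ⟨?_, ?_, ?_, ?_⟩
    · show _ = p z ^ 2 + m11 / a * a
      rw [← k11]; linarith
    · show _ = p z * q z + m11 / a * b
      rw [← k12]; linarith
    · show _ = p z * q z + m11 / a * b
      rw [← k12]; linarith
    · show _ = q z ^ 2 + m11 / a * c
      rw [← k22]; linarith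

end Pool.Agent.Work.MP_659252_gt.QR
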