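import Pool.Agent.Work.MP_659252_gt.QR.Q.Defs

/-!
# The integrability conditions, second part.  Size: M.

NOTATION as in `TwoA`.  `p2 (p1 p) = p1 (p2 p)` on `O`: `2 p p_2 + ρ_2 w11 + ρ w112 = p_1 q + p q_1 + ρ_1 w12 + ρ w112` (`p1 w12 = p2 w11 = w112`, symmetry), and with the four equations:
`(ρ_2 - ρ q) w11 = (ρ_1 - ρ p) w12`.  `p2 (p1 q) = p1 (p2 q)`: `p_2 q + p q_2 + ρ_2 w12 + ρ w122 = 2 q q_1 + ρ_1 w22 + ρ w122` (`p2 w12 = p1 w22`): `(ρ_2 - ρ q) w12 = (ρ_1 - ρ p) w22`.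
With `X = ρ_1 - ρ p`, `Y = ρ_2 - ρ q`: `Y w11 = X w12`, `Y w12 = X w22`, so `Y (w11 w22 - w12²) = 0`, `Y = 0`, `X w22 = 0`, `X = 0` (`w22 ≠ 0`).
-/

namespace Pool.Agent.Work.MP_659252_gt.QR

open scoped ContDiff Topology
open Pool.Agent.Work.MP_659252_gt.Z (V Ten val Tan InT IsZoll IsMetric IsGeodesic)

variable {d : ℕ}

private lemma sm1 {O : Set (ℝ × ℝ)} (hO : IsOpen O) {F : ℝ × ℝ → ℝ} (hF : ContDiffOn ℝ ∞ F O) :
    ContDiffOn ℝ ∞ (p1 F) O := by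
  have h : ContDiffOn ℝ ∞ (fderiv ℝ F) O := hF.fderiv_of_isOpen hO (by simp)
  exact h.clm_apply contDiffOn_const

private lemma sm2 {O : Set (ℝ × ℝ)} (hO : IsOpen O) {F : ℝ × ℝ → ℝ} (hF : ContDiffOn ℝ ∞ F O) :
    ContDiffOn ℝ ∞ (p2 F) O := by
  have h : ContDiffOn ℝ ∞ (fderiv ℝ F) O := hF.fderiv_of_isOpen hO (by simp)
  exact h.clm_apply contDiffOn_const

private lemma df {O : Set (ℝ × ℝ)} (hO : IsOpen O) {F : ℝ × ℝ → ℝ} (hF : ContDiffOn ℝ ∞ F O) {z : ℝ × ℝ}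
    (hz : z ∈ O) : DifferentiableAt ℝ F z :=
  (hF.contDiffAt (hO.mem_nhds hz)).differentiableAt (by simp)

private lemma cg {O : Set (ℝ × ℝ)} (hO : IsOpen O) {F G : ℝ × ℝ → ℝ} (h : ∀ z ∈ O, F z = G z) {z : ℝ × ℝ}
    (hz : z ∈ O) : fderiv ℝ F z = fderiv ℝ G z := by
  apply Filter.EventuallyEq.fderiv_eq
  filter_upwards [hO.mem_nhds hz] with y hy using h y hy

private lemma symm12 {O : Set (ℝ × ℝ)} (hO : IsOpen O) {F : ℝ × ℝ → ℝ} (hF : ContDiffOn ℝ ∞ F O) {z : ℝ × ℝ}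
    (hz : z ∈ O) : p1 (p2 F) z = p2 (p1 F) z := by
  have hc : ContDiffAt ℝ ∞ F z := hF.contDiffAt (hO.mem_nhds hz)
  have hs : IsSymmSndFDerivAt ℝ F z := hc.isSymmSndFDerivAt (by
    simp only [minSmoothness_of_isRCLikeNormedField]
    exact WithTop.coe_le_coe.2 le_top)
  have hd : DifferentiableAt ℝ (fderiv ℝ F) z := by
    have h : ContDiffOn ℝ ∞ (fderiv ℝ F) O := hF.fderiv_of_isOpen hO (by simp)
    exact (h.contDiffAt (hO.mem_nhds hz)).differentiableAt (by simp)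
  have e1 : p1 (p2 F) z = fderiv ℝ (fderiv ℝ F) z (1, 0) (0, 1) := by
    show fderiv ℝ (fun y => fderiv ℝ F y (0, 1)) z (1, 0) = _
    rw [fderiv_clm_apply hd (differentiableAt_const _)]
    simp
  have e2 : p2 (p1 F) z = fderiv ℝ (fderiv ℝ F) z (0, 1) (1, 0) := by
    show fderiv ℝ (fun y => fderiv ℝ F y (1, 0)) z (0, 1) = _
    rw [fderiv_clm_apply hd (differentiableAt_const _)]
    simp
  rw [e1, e2]
  exact hs.eq _ _

private lemma ml {F G : ℝ × ℝ → ℝ} {z : ℝ × ℝ} (hF : DifferentiableAt ℝ F z) (hG : DifferentiableAt ℝ G z)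
    (v : ℝ × ℝ) : fderiv ℝ (fun y => F y * G y) z v = fderiv ℝ F z v * G z + F z * fderiv ℝ G z v := by
  rw [fderiv_fun_mul hF hG]
  simp only [_root_.add_apply, _root_.smul_apply, smul_eq_mul]
  ring

private lemma ad {F G : ℝ × ℝ → ℝ} {z : ℝ × ℝ} (hF : DifferentiableAt ℝ F z) (hG : DifferentiableAt ℝ G z)
    (v : ℝ × ℝ) : fderiv ℝ (fun y => F y + G y) z v = fderiv ℝ F z v + fderiv ℝ G z v := by
  rw [fderiv_fun_add hF hG]
  rfl

private lemma cm {F : ℝ × ℝ → ℝ} {z : ℝ × ℝ} (hF : DifferentiableAt ℝ F z) (c : ℝ)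
    (v : ℝ × ℝ) : fderiv ℝ (fun y => c * F y) z v = c * fderiv ℝ F z v := by
  rw [fderiv_const_mul hF]
  rfl

theorem twoB (O : Set (ℝ × ℝ)) (hO : IsOpen O) (w p q ρ : ℝ × ℝ → ℝ) (hw : ContDiffOn ℝ ∞ w O)
    (hp : ContDiffOn ℝ ∞ p O) (hq : ContDiffOn ℝ ∞ q O) (hρ : ContDiffOn ℝ ∞ ρ O)
    (hdet : ∀ z ∈ O, 0 < p1 (p1 w) z * p2 (p2 w) z - p2 (p1 w) z ^ 2)
    (h : ∀ z ∈ O, p1 p z = p z ^ 2 + ρ z * p1 (p1 w) z ∧ p2 p z = p z * q z + ρ z * p2 (p1 w) z ∧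
      p1 q z = p z * q z + ρ z * p2 (p1 w) z ∧ p2 q z = q z ^ 2 + ρ z * p2 (p2 w) z) :
    ∀ z ∈ O, p1 ρ z = ρ z * p z ∧ p2 ρ z = ρ z * q z := by
  have s1 := sm1 hO hw
  have s2 := sm2 hO hw
  have s11 := sm1 hO s1
  have s12 := sm2 hO s1
  have s22 := sm2 hO s2
  have e12 : ∀ z ∈ O, p1 (p2 w) z = p2 (p1 w) z := fun z hz => symm12 hO hw hz
  have t112 : ∀ z ∈ O, p1 (p2 (p1 w)) z = p2 (p1 (p1 w)) z := fun z hz => symm12 hO s1 hz
  have t122 : ∀ z ∈ O, p1 (p2 (p2 w)) z = p2 (p2 (p1 w)) z := by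
    intro z hz
    rw [symm12 hO s2 hz]
    show fderiv ℝ (p1 (p2 w)) z (0, 1) = fderiv ℝ (p2 (p1 w)) z (0, 1)
    rw [cg hO e12 hz]
  intro z hz
  have dp := df hO hp hz
  have dq := df hO hq hz
  have dr := df hO hρ hz
  have d11 := df hO s11 hz
  have d12 := df hO s12 hz
  have d22 := df hO s22 hz
  -- mixed second derivatives of `p`
  have a1 : p1 (p2 p) z = p2 (p1 p) z := symm12 hO hp hz
  have a2 : p1 (p2 p) z = (p1 p z * q z + p z * p1 q z) + (p1 ρ z * p2 (p1 w) z + ρ z * p1 (p2 (p1 w)) z) := by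
    show fderiv ℝ (p2 p) z (1, 0) = _
    rw [cg hO (G := fun z => p z * q z + ρ z * p2 (p1 w) z) (fun z hz => (h z hz).2.1) hz,
      ad (dp.fun_mul dq) (dr.fun_mul d12), ml dp dq, ml dr d12]
    rfl
  have a3 : p2 (p1 p) z = (p2 p z * p z + p z * p2 p z) + (p2 ρ z * p1 (p1 w) z + ρ z * p2 (p1 (p1 w)) z) := by
    show fderiv ℝ (p1 p) z (0, 1) = _
    rw [cg hO (G := fun z => p z * p z + ρ z * p1 (p1 w) z) (fun z hz => by rw [(h z hz).1]; ring) hz,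
      ad (dp.fun_mul dp) (dr.fun_mul d11), ml dp dp, ml dr d11]
    rfl
  -- mixed second derivatives of `q`
  have b1 : p1 (p2 q) z = p2 (p1 q) z := symm12 hO hq hz
  have b2 : p1 (p2 q) z = (p1 q z * q z + q z * p1 q z) + (p1 ρ z * p2 (p2 w) z + ρ z * p1 (p2 (p2 w)) z) := by
    show fderiv ℝ (p2 q) z (1, 0) = _
    rw [cg hO (G := fun z => q z * q z + ρ z * p2 (p2 w) z) (fun z hz => by rw [(h z hz).2.2.2]; ring) hz,
      ad (dq.fun_mul dq) (dr.fun_mul d22), ml dq dq, ml dr d22]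
    rfl
  have b3 : p2 (p1 q) z = (p2 p z * q z + p z * p2 q z) + (p2 ρ z * p2 (p1 w) z + ρ z * p2 (p2 (p1 w)) z) := by
    show fderiv ℝ (p1 q) z (0, 1) = _
    rw [cg hO (G := fun z => p z * q z + ρ z * p2 (p1 w) z) (fun z hz => (h z hz).2.2.1) hz,
      ad (dp.fun_mul dq) (dr.fun_mul d12), ml dp dq, ml dr d12]
    rfl
  obtain ⟨k1, k2, k3, k4⟩ := h z hz
  have hd := hdet z hz
  rw [a2, a3, t112 z hz, k1, k2, k3] at a1
  rw [b2, b3, t122 z hz, k2, k3, k4] at b1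
  set X := p1 ρ z - ρ z * p z with hX
  set Y := p2 ρ z - ρ z * q z with hY
  set a := p1 (p1 w) z with ha
  set b := p2 (p1 w) z with hb
  set c := p2 (p2 w) z with hc
  have c1 : Y * a = X * b := by
    rw [hX, hY]; linear_combination -a1
  have c2 : Y * b = X * c := by
    rw [hX, hY]; linear_combination -b1
  have hY0 : Y = 0 := by
    have : Y * (a * c - b ^ 2) = 0 := by linear_combination c * c1 - b * c2
    rcases mul_eq_zero.1 this with h | h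
    · exact h
    · exact absurd h hd.ne'
  have hcne : c ≠ 0 := by
    intro h0
    rw [h0] at hd
    nlinarith [sq_nonneg b]
  have hX0 : X = 0 := by
    rw [hY0, zero_mul] at c2
    rcases mul_eq_zero.1 c2.symm with h | h
    · exact h
    · exact absurd h hcne
  constructor <;> linarith

end Pool.Agent.Work.MP_659252_gt.QR
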