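import Pool.Agent.Work.MP_659252_gt.QR.Q.BilO
import Pool.Agent.Work.MP_659252_gt.QR.Q.TwoA
import Pool.Agent.Work.MP_659252_gt.QR.Q.TwoB
import Pool.Agent.Work.MP_659252_gt.QR.Q.Ray

/-!
# The identity of the quadric along a ray.  Size: M.

PROOF.  `φ (σ, τ) = σ a + τ b`, `O = {z | φ z ∈ ball 0 r}` open, `w = u ∘ φ`.  For `z ∈ O`: `p1 w z = fderiv u (φ z) a`, `p2 w z = fderiv u (φ z) b`, `p1 (p1 w) z = DD u (φ z) a a`, `p2 (p1 w) z = DD u (φ z) a b`, `p2 (p2 w) z = DD u (φ z) b b`,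
`p1 (p1 (p1 w)) z = D3 u (φ z) a a a`, `p2 (p1 (p1 w)) z = D3 u (φ z) a a b`, `p2 (p2 (p1 w)) z = D3 u (φ z) a b b`, `p2 (p2 (p2 w)) z = D3 u (φ z) b b b` (chain rule, equalities on the open set).
`p z = lam u (φ z) a`, `q z = lam u (φ z) b`: smooth on `O` (`lam_smooth`; `DD u y a a ≠ 0` by `det`).  The hypotheses of `twoA`: `h1`, `h4` by definition of `lam`; `h2` is `rel a b`; `h3` is `rel b a` (`D3 u y b b a = D3 u y a b b`,
`DD u y b a = DD u y a b`).  Get `ρ`, and `twoB`.  At `z = 0`: `p1 p 0 = fderiv (fun y => lam u y a) 0 a`, so `chi u a = -ρ 0`; `p2 q 0 = fderiv (fun y => lam u y b) 0 b`, so `chi u b = -ρ 0`.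
If `‖a‖ < r`: choose `δ > 0` with `(1 + δ) ‖a‖ < r`; for `x ∈ (-1-δ, 1+δ)`: `x a ∈ ball 0 r`.  `ray` with `U x = u (x a)` (`iteratedDeriv 2 U x = DD u (x a) a a`, `iteratedDeriv 3 U x = D3 u (x a) a a a = 3 lam DD`), `p x = lam u (x a) a`,
`ρ x = ρ (x, 0)`, at `x = 1`: the claim (`U 0 = u 0 = 0`, `U' 0 = fderiv u 0 a = 0`).
-/

namespace Pool.Agent.Work.MP_659252_gt.QR

open scoped ContDiff Topology
open Pool.Agent.Work.MP_659252_gt.Z (V Ten val Tan InT IsZoll IsMetric IsGeodesic)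

variable {d : ℕ}

/-- The parametrisation of the plane. -/
private noncomputable def plnφ (a b : V d) : ℝ × ℝ →L[ℝ] V d :=
  (ContinuousLinearMap.fst ℝ ℝ ℝ).smulRight a + (ContinuousLinearMap.snd ℝ ℝ ℝ).smulRight b

private theorem plnφ_apply (a b : V d) (z : ℝ × ℝ) : plnφ a b z = z.1 • a + z.2 • b := rfl

private theorem pln_pp (a b : V d) (O : Set (ℝ × ℝ)) (hO : IsOpen O) (G : V d → ℝ) (W : ℝ × ℝ → ℝ)
    (hW : ∀ z ∈ O, W z = G (plnφ a b z)) (hG : ∀ z ∈ O, DifferentiableAt ℝ G (plnφ a b z)) :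
    ∀ z ∈ O, p1 W z = fderiv ℝ G (plnφ a b z) a ∧ p2 W z = fderiv ℝ G (plnφ a b z) b := by
  intro z hz
  have h1 : W =ᶠ[𝓝 z] fun z => G (plnφ a b z) := by
    filter_upwards [hO.mem_nhds hz] with y hy
    exact hW y hy
  have h2 : HasFDerivAt (fun z => G (plnφ a b z)) ((fderiv ℝ G (plnφ a b z)).comp (plnφ a b)) z :=
    (hG z hz).hasFDerivAt.comp z (plnφ a b).hasFDerivAt
  have h3 : fderiv ℝ W z = (fderiv ℝ G (plnφ a b z)).comp (plnφ a b) := by
    rw [h1.fderiv_eq, h2.fderiv]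
  unfold p1 p2
  rw [h3]
  constructor
  · show fderiv ℝ G (plnφ a b z) (plnφ a b (1, 0)) = _
    rw [plnφ_apply a b (1, 0)]
    simp
  · show fderiv ℝ G (plnφ a b z) (plnφ a b (0, 1)) = _
    rw [plnφ_apply a b (0, 1)]
    simp

private theorem pln_dd (a : V d) (J : Set ℝ) (hJ : IsOpen J) (G : V d → ℝ) (W : ℝ → ℝ)
    (hW : ∀ x ∈ J, W x = G (x • a)) (hG : ∀ x ∈ J, DifferentiableAt ℝ G (x • a)) :
    ∀ x ∈ J, HasDerivAt W (fderiv ℝ G (x • a) a) x := by
  intro x hx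
  have h1 : W =ᶠ[𝓝 x] fun x => G (x • a) := by
    filter_upwards [hJ.mem_nhds hx] with y hy
    exact hW y hy
  have h2 : HasDerivAt (fun x : ℝ => x • a) ((1 : ℝ) • a) x := (hasDerivAt_id x).smul_const a
  rw [one_smul] at h2
  exact ((hG x hx).hasFDerivAt.comp_hasDerivAt x h2).congr_of_eventuallyEq h1

theorem pln (u : V d → ℝ) (r : ℝ) (S : Submodule ℝ (V d)) (h : Apo u r S) (a b : V d) (ha : a ∈ S) (hb : b ∈ S)
    (hab : Ind a b) : chi u a = chi u b ∧ (‖a‖ < r →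
      (1 / 2) * chi u a * u a ^ 2 + (1 - lam u 0 a) * u a = (1 / 2) * DD u 0 a a) := by
  classical
  have hBo : IsOpen (Metric.ball (0 : V d) r) := Metric.isOpen_ball
  set O : Set (ℝ × ℝ) := (plnφ a b) ⁻¹' (Metric.ball (0 : V d) r) with hOdef
  have hO : IsOpen O := hBo.preimage (plnφ a b).continuous
  have hB : ∀ z ∈ O, plnφ a b z ∈ Metric.ball (0 : V d) r := fun z hz => hz
  have hS : ∀ z : ℝ × ℝ, plnφ a b z ∈ S := fun z => by
    rw [plnφ_apply]
    exact S.add_mem (S.smul_mem _ ha) (S.smul_mem _ hb)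
  have hba : Ind b a := by
    intro s t hst
    have := hab t s (by rw [add_comm]; exact hst)
    exact ⟨this.2, this.1⟩
  have hDaa : ∀ y ∈ Metric.ball (0 : V d) r, y ∈ S → DD u y a a ≠ 0 := by
    intro y hy hyS h0
    have h1 := h.det y hy hyS a ha b hb hab
    rw [h0, zero_mul] at h1
    nlinarith [sq_nonneg (DD u y a b)]
  have hDbb : ∀ y ∈ Metric.ball (0 : V d) r, y ∈ S → DD u y b b ≠ 0 := by
    intro y hy hyS h0
    have h1 := h.det y hy hyS a ha b hb hab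
    rw [h0, mul_zero] at h1
    nlinarith [sq_nonneg (DD u y a b)]
  -- smoothness
  have sm : ∀ {G : V d → ℝ}, ContDiffOn ℝ ∞ G (Metric.ball 0 r) → ∀ y ∈ Metric.ball (0 : V d) r,
      DifferentiableAt ℝ G y := fun {G} hG y hy =>
    (hG.contDiffAt (hBo.mem_nhds hy)).differentiableAt (by simp)
  have s1 : ∀ c : V d, ContDiffOn ℝ ∞ (fun y => fderiv ℝ u y c) (Metric.ball 0 r) := fun c =>
    (h.smooth.fderiv_of_isOpen hBo (by simp)).clm_apply contDiffOn_const
  have s2 : ∀ c e : V d, ContDiffOn ℝ ∞ (fun y => DD u y c e) (Metric.ball 0 r) := fun c e =>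
    DDo_smooth u _ hBo h.smooth c e
  have lsm : ∀ c : V d, ContDiffOn ℝ ∞ (fun y => lam u y c)
      (Metric.ball 0 r ∩ {y | DD u y c c ≠ 0}) := fun c => lam_smooth u _ hBo h.smooth c
  have lopen : ∀ c : V d, IsOpen (Metric.ball (0 : V d) r ∩ {y | DD u y c c ≠ 0}) := fun c =>
    (s2 c c).continuousOn.isOpen_inter_preimage hBo isOpen_ne
  have ldiff : ∀ c : V d, ∀ y ∈ Metric.ball (0 : V d) r, DD u y c c ≠ 0 →
      DifferentiableAt ℝ (fun y => lam u y c) y := fun c y hy hne =>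
    ((lsm c).contDiffAt ((lopen c).mem_nhds ⟨hy, hne⟩)).differentiableAt (by simp)
  -- the function w and its derivatives
  set w : ℝ × ℝ → ℝ := fun z => u (plnφ a b z) with hw
  have w1 := pln_pp a b O hO u w (fun z _ => rfl) (fun z hz => sm h.smooth _ (hB z hz))
  have w11 := pln_pp a b O hO (fun y => fderiv ℝ u y a) (p1 w) (fun z hz => (w1 z hz).1)
    (fun z hz => sm (s1 a) _ (hB z hz))
  have w22 := pln_pp a b O hO (fun y => fderiv ℝ u y b) (p2 w) (fun z hz => (w1 z hz).2)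
    (fun z hz => sm (s1 b) _ (hB z hz))
  have w111 := pln_pp a b O hO (fun y => DD u y a a) (p1 (p1 w)) (fun z hz => (w11 z hz).1)
    (fun z hz => sm (s2 a a) _ (hB z hz))
  have w122 := pln_pp a b O hO (fun y => DD u y a b) (p2 (p1 w)) (fun z hz => (w11 z hz).2)
    (fun z hz => sm (s2 a b) _ (hB z hz))
  have w222 := pln_pp a b O hO (fun y => DD u y b b) (p2 (p2 w)) (fun z hz => (w22 z hz).2)
    (fun z hz => sm (s2 b b) _ (hB z hz))
  set p : ℝ × ℝ → ℝ := fun z => lam u (plnφ a b z) a with hp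
  set q : ℝ × ℝ → ℝ := fun z => lam u (plnφ a b z) b with hq
  have hps : ContDiffOn ℝ ∞ p O :=
    (lsm a).comp (plnφ a b).contDiff.contDiffOn
      (fun z hz => ⟨hB z hz, hDaa _ (hB z hz) (hS z)⟩)
  have hqs : ContDiffOn ℝ ∞ q O :=
    (lsm b).comp (plnφ a b).contDiff.contDiffOn
      (fun z hz => ⟨hB z hz, hDbb _ (hB z hz) (hS z)⟩)
  have hws : ContDiffOn ℝ ∞ w O :=
    h.smooth.comp (plnφ a b).contDiff.contDiffOn (fun z hz => hB z hz)
  have e11 : ∀ z ∈ O, p1 (p1 w) z = DD u (plnφ a b z) a a := fun z hz => (w11 z hz).1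
  have e12 : ∀ z ∈ O, p2 (p1 w) z = DD u (plnφ a b z) a b := fun z hz => (w11 z hz).2
  have e22 : ∀ z ∈ O, p2 (p2 w) z = DD u (plnφ a b z) b b := fun z hz => (w22 z hz).2
  have hdet : ∀ z ∈ O, 0 < p1 (p1 w) z * p2 (p2 w) z - p2 (p1 w) z ^ 2 := by
    intro z hz
    rw [e11 z hz, e12 z hz, e22 z hz]
    exact h.det _ (hB z hz) (hS z) a ha b hb hab
  obtain ⟨ρ, hρs, hρ⟩ := twoA O hO w p q hws hps hqs
    (fun z hz => by
      rw [(w111 z hz).1, e11 z hz]
      show D3 u (plnφ a b z) a a a = 3 * (D3 u (plnφ a b z) a a a / (3 * DD u (plnφ a b z) a a)) *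
        DD u (plnφ a b z) a a
      have := hDaa _ (hB z hz) (hS z)
      field_simp)
    (fun z hz => by
      rw [(w111 z hz).2, e11 z hz, e12 z hz]
      exact h.rel _ (hB z hz) (hS z) a ha b hb hab)
    (fun z hz => by
      rw [(w122 z hz).2, e12 z hz, e22 z hz]
      show D3 u (plnφ a b z) a b b = _
      rw [D3o_comm12 u _ hBo h.smooth _ (hB z hz) a b b, D3o_comm23 u _ hBo h.smooth _ (hB z hz) b a b,
        h.rel _ (hB z hz) (hS z) b hb a ha hba, DDo_comm u _ hBo h.smooth _ (hB z hz) b a])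
    (fun z hz => by
      rw [(w222 z hz).2, e22 z hz]
      show D3 u (plnφ a b z) b b b = 3 * (D3 u (plnφ a b z) b b b / (3 * DD u (plnφ a b z) b b)) *
        DD u (plnφ a b z) b b
      have := hDbb _ (hB z hz) (hS z)
      field_simp)
    hdet
  have hρ2 := twoB O hO w p q ρ hws hps hqs hρs hdet hρ
  -- derivatives of p and q
  have dp := pln_pp a b O hO (fun y => lam u y a) p (fun z _ => rfl)
    (fun z hz => ldiff a _ (hB z hz) (hDaa _ (hB z hz) (hS z)))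
  have dq := pln_pp a b O hO (fun y => lam u y b) q (fun z _ => rfl)
    (fun z hz => ldiff b _ (hB z hz) (hDbb _ (hB z hz) (hS z)))
  have hφ0 : plnφ a b (0 : ℝ × ℝ) = 0 := map_zero _
  have h0O : (0 : ℝ × ℝ) ∈ O := by
    show plnφ a b 0 ∈ Metric.ball (0 : V d) r
    rw [hφ0]
    exact Metric.mem_ball_self h.rpos
  have h0B : (0 : V d) ∈ Metric.ball (0 : V d) r := Metric.mem_ball_self h.rpos
  have ca : chi u a = -ρ 0 := by
    have h1 := (hρ 0 h0O).1
    rw [(dp 0 h0O).1, e11 0 h0O, hφ0] at h1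
    have h2 : p 0 = lam u 0 a := by rw [hp]; simp only [hφ0]
    rw [h2] at h1
    unfold chi
    rw [h1]
    have h3 := hDaa 0 h0B S.zero_mem
    field_simp
    ring
  have cb : chi u b = -ρ 0 := by
    have h1 := (hρ 0 h0O).2.2.2
    rw [(dq 0 h0O).2, e22 0 h0O, hφ0] at h1
    have h2 : q 0 = lam u 0 b := by rw [hq]; simp only [hφ0]
    rw [h2] at h1
    unfold chi
    rw [h1]
    have h3 := hDbb 0 h0B S.zero_mem
    field_simp
    ring
  refine ⟨by rw [ca, cb], fun har => ?_⟩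
  -- the ray
  obtain ⟨δ, hδ, hδr⟩ : ∃ δ : ℝ, 0 < δ ∧ (1 + δ) * ‖a‖ < r := by
    refine ⟨(r - ‖a‖) / (‖a‖ + 1), div_pos (by linarith) (by positivity), ?_⟩
    have h1 : (r - ‖a‖) / (‖a‖ + 1) * ‖a‖ < r - ‖a‖ := by
      rw [div_mul_eq_mul_div, div_lt_iff₀ (by positivity)]
      nlinarith [norm_nonneg a]
    linarith
  have hJB : ∀ x ∈ Set.Ioo (-1 - δ) (1 + δ), x • a ∈ Metric.ball (0 : V d) r := by
    intro x hx
    rw [mem_ball_zero_iff, norm_smul, Real.norm_eq_abs]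
    have h1 : |x| ≤ 1 + δ := by
      rw [abs_le]
      exact ⟨by linarith [hx.1], hx.2.le⟩
    exact lt_of_le_of_lt (mul_le_mul_of_nonneg_right h1 (norm_nonneg a)) hδr
  have hJS : ∀ x : ℝ, x • a ∈ S := fun x => S.smul_mem _ ha
  have hφx : ∀ x : ℝ, plnφ a b (x, 0) = x • a := fun x => by rw [plnφ_apply]; simp
  have hJO : ∀ x ∈ Set.Ioo (-1 - δ) (1 + δ), ((x, 0) : ℝ × ℝ) ∈ O := by
    intro x hx
    show plnφ a b (x, 0) ∈ Metric.ball (0 : V d) r
    rw [hφx]
    exact hJB x hx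
  set U : ℝ → ℝ := fun x => u (x • a) with hU
  have hUs : ContDiffOn ℝ ∞ U (Set.Ioo (-1 - δ) (1 + δ)) :=
    h.smooth.comp (contDiff_id.smul contDiff_const).contDiffOn (fun x hx => hJB x hx)
  have U1 := pln_dd a _ isOpen_Ioo u U (fun x _ => rfl) (fun x hx => sm h.smooth _ (hJB x hx))
  have U2 := pln_dd a _ isOpen_Ioo (fun y => fderiv ℝ u y a) (deriv U)
    (fun x hx => (U1 x hx).deriv) (fun x hx => sm (s1 a) _ (hJB x hx))
  have i2 : ∀ x ∈ Set.Ioo (-1 - δ) (1 + δ), iteratedDeriv 2 U x = DD u (x • a) a a := by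
    intro x hx
    rw [iteratedDeriv_succ, iteratedDeriv_one]
    exact (U2 x hx).deriv
  have U3 := pln_dd a _ isOpen_Ioo (fun y => DD u y a a) (iteratedDeriv 2 U)
    i2 (fun x hx => sm (s2 a a) _ (hJB x hx))
  have i3 : ∀ x ∈ Set.Ioo (-1 - δ) (1 + δ), iteratedDeriv 3 U x = D3 u (x • a) a a a := by
    intro x hx
    rw [iteratedDeriv_succ]
    exact (U3 x hx).deriv
  have dP := pln_dd a _ isOpen_Ioo (fun y => lam u y a) (fun x => p (x, 0))
    (fun x _ => by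
      show lam u (plnφ a b (x, 0)) a = lam u (x • a) a
      rw [hφx]) (fun x hx => ldiff a _ (hJB x hx) (hDaa _ (hJB x hx) (hJS x)))
  have key := ray (-1 - δ) (1 + δ) (by linarith) (by linarith) U (fun x => p (x, 0))
    (fun x => ρ (x, 0)) hUs
    (fun x hx => by
      show iteratedDeriv 3 U x = 3 * lam u (plnφ a b (x, 0)) a * iteratedDeriv 2 U x
      rw [i3 x hx, i2 x hx, hφx]
      show D3 u (x • a) a a a = 3 * (D3 u (x • a) a a a / (3 * DD u (x • a) a a)) * DD u (x • a) a a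
      have := hDaa _ (hJB x hx) (hJS x)
      field_simp)
    (fun x hx => by
      have h1 := dP x hx
      have h2 := (hρ (x, 0) (hJO x hx)).1
      rw [(dp (x, 0) (hJO x hx)).1, e11 _ (hJO x hx), hφx] at h2
      show HasDerivAt (fun x => p (x, 0)) (p (x, 0) ^ 2 + ρ (x, 0) * iteratedDeriv 2 U x) x
      rw [i2 x hx, ← h2]
      exact h1)
    (fun x hx => by
      have h1 : DifferentiableAt ℝ ρ (x, 0) :=
        (hρs.contDiffAt (hO.mem_nhds (hJO x hx))).differentiableAt (by simp)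
      have h2 : HasDerivAt (fun x : ℝ => ((x, 0) : ℝ × ℝ)) ((1, 0) : ℝ × ℝ) x :=
        (hasDerivAt_id x).prodMk (hasDerivAt_const x 0)
      have h3 := h1.hasFDerivAt.comp_hasDerivAt x h2
      have h4 := (hρ2 (x, 0) (hJO x hx)).1
      show HasDerivAt (fun x => ρ (x, 0)) (ρ (x, 0) * p (x, 0)) x
      rw [← h4]
      exact h3)
    (by
      show u ((0 : ℝ) • a) = 0
      rw [zero_smul]
      exact h.zero)
    (by
      rw [(U1 0 ⟨by linarith, by linarith⟩).deriv, zero_smul]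
      exact h.dzero a ha)
    1 ⟨by linarith, by linarith⟩
  have z0 : ((0, 0) : ℝ × ℝ) = 0 := rfl
  have hp0 : p 0 = lam u 0 a := by
    show lam u (plnφ a b 0) a = _
    rw [hφ0]
  have hU1 : U 1 = u a := by
    show u ((1 : ℝ) • a) = u a
    rw [one_smul]
  have hi0 : iteratedDeriv 2 U 0 = DD u 0 a a := by
    rw [i2 0 ⟨by linarith, by linarith⟩, zero_smul]
  simp only [hU1, hi0, z0] at key
  rw [hp0] at key
  rw [ca]
  linarith

end Pool.Agent.Work.MP_659252_gt.QR
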