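import Pool.Agent.Work.MP_659252_gt.QR.Bas

/-!
# Strict convexity of the level cones.  Size: S-M.

PROOF.  (a) If `gr f x ⬝ v = 0` and `v` is not a multiple of `x` (`0 < f x < T`), then `f (x + t v) < f x` for all small `t ≠ 0`: `h t = f (x + t v)` is smooth near `0` (`f` is smooth on
`{0 < f < T}`, which is a neighbourhood of `x ≠ 0` since `f` is continuous away from `0`; `x ≠ 0` because `f 0 = 0` by `zero`), `h'(0) = fderiv f x v = gr f x ⬝ v = 0`, `h''(0) = D2 f x v < 0` (`curv`): second derivative test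
(`isLocalMax_of_deriv_deriv_neg` is not strict; so: `h'` has negative derivative at `0`, so `h' > 0` on the left and `h' < 0` on the right of `0`, `h` is strictly monotone there; or Taylor).
(b) For `x`, `y` with positive coordinate `0` and `f x ≤ f y`: `f (x + t y) ≥ min (f x) (f (t y)) = f x` for `t > 0` (`conv`, `hom`).  So `gr f x ⬝ y ≥ 0` (derivative of `t ↦ f (x + t y)` at `0`), and if it is `0` and
`y` is not a multiple of `x`, (a) gives a contradiction.  This is `sup1` (if `f y ≥ f x`).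
`uniqL`: suppose `f (P + τ v) ≥ f P`.  `P + σ τ v = (1 - σ) P + σ (P + τ v)` for `0 < σ < 1`, so `f (P + σ τ v) ≥ min (f P) (f (P + τ v)) = f P` (`conv`, `hom`), contradiction to (a) for small `σ` (`v ≠ c P` because
`v 0 = 0 < P 0`, `v ≠ 0`).
-/

namespace Pool.Agent.Work.MP_659252_gt.QR

open scoped ContDiff Topology
open Pool.Agent.Work.MP_659252_gt.Z (V Ten val Tan InT IsZoll IsMetric IsGeodesic)

variable {d : ℕ}

private theorem sup_ne (f : V d → ℝ) (T : ℝ) (hf : Layered f T) (x : V d) (h0 : 0 < f x) : x ≠ 0 := by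
  rintro rfl
  have := hf.zero 0 rfl
  linarith

private theorem sup_cda (f : V d → ℝ) (T : ℝ) (hf : Layered f T) (x : V d) (h0 : 0 < f x) (hT : f x < T) :
    ContDiffAt ℝ ∞ f x := by
  have hx := sup_ne f T hf x h0
  have hc : ContinuousAt f x := hf.cont.continuousAt (isOpen_compl_singleton.mem_nhds hx)
  have h1 : ∀ᶠ y in 𝓝 x, 0 < f y ∧ f y < T := by
    have := hc.eventually (isOpen_Ioo.mem_nhds (show f x ∈ Set.Ioo 0 T from ⟨h0, hT⟩))
    filter_upwards [this] with y hy using ⟨hy.1, hy.2⟩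
  exact hf.smooth.contDiffAt h1

private theorem sup_fg (f : V d → ℝ) (x v : V d) : fderiv ℝ f x v = gr f x ⬝ᵥ v := by
  have h : v = ∑ i, v i • (Pi.single i (1 : ℝ) : V d) := by
    funext j
    simp [Finset.sum_apply, Pi.single_apply]
  conv_lhs => rw [h]
  rw [map_sum]
  simp only [map_smul, smul_eq_mul, gr, dotProduct]
  exact Finset.sum_congr rfl fun i _ => mul_comm _ _

private theorem sup_line (x v : V d) (t : ℝ) : HasDerivAt (fun t : ℝ => x + t • v) v t := by
  have := ((hasDerivAt_id t).smul_const v).const_add x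
  simpa using this

private theorem sup_hd (f : V d → ℝ) (x v : V d) (hf : ContDiffAt ℝ ∞ f x) :
    HasDerivAt (fun t : ℝ => f (x + t • v)) (gr f x ⬝ᵥ v) 0 := by
  rw [← sup_fg]
  have h1 : HasFDerivAt f (fderiv ℝ f x) (x + (0 : ℝ) • v) := by
    simpa using (hf.differentiableAt (by simp)).hasFDerivAt
  exact h1.comp_hasDerivAt (0 : ℝ) (sup_line x v 0)

private theorem sup_conv (f : V d → ℝ) (T : ℝ) (hf : Layered f T) (x y : V d) (hx : 0 < x 0) (hy : 0 < y 0)
    (hxy : f x ≤ f y) (a b : ℝ) (ha : 0 < a) (hb : 0 < b) : f x ≤ f (a • x + b • y) := by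
  have h1 := hf.conv (a • x) (b • y) (by simpa using mul_pos ha hx) (by simpa using mul_pos hb hy)
  rw [hf.hom a x ha.ne', hf.hom b y hb.ne', min_eq_left hxy] at h1
  exact h1

theorem loc_lt (f : V d → ℝ) (T : ℝ) (hf : Layered f T) (x v : V d) (h0 : 0 < f x) (hT : f x < T)
    (hv : gr f x ⬝ᵥ v = 0) (hv' : ∀ c : ℝ, v ≠ c • x) : ∀ᶠ t : ℝ in 𝓝[≠] 0, f (x + t • v) < f x := by
  have hc := sup_cda f T hf x h0 hT
  set h : ℝ → ℝ := fun t => f (x + t • v) with hh
  have hcd : ContDiffAt ℝ ∞ h 0 := by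
    have h1 : ContDiffAt ℝ ∞ f (x + (0 : ℝ) • v) := by simpa using hc
    have h2 : ContDiff ℝ ∞ (fun t : ℝ => x + t • v) := by fun_prop
    exact h1.comp (0 : ℝ) h2.contDiffAt
  have hd0 : deriv h 0 = 0 := by rw [(sup_hd f x v hc).deriv, hv]
  have hD := hf.curv x v h0 hT hv hv'
  have h2 : D2 f x v = deriv (deriv h) 0 := by
    unfold D2
    rw [iteratedDeriv_succ, iteratedDeriv_one]
  have hcd1 : ContDiffAt ℝ 1 (deriv h) 0 := by
    have h2' : ContDiffAt ℝ 2 h 0 := contDiffAt_infty.1 hcd 2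
    have h3 : ContDiffAt ℝ 1 (fderiv ℝ h) 0 := h2'.fderiv_right (by norm_num)
    have h5 : deriv h = fun t => fderiv ℝ h t 1 := by
      funext t
      rfl
    rw [h5]
    exact h3.clm_apply contDiffAt_const
  have hdd : HasDerivAt (deriv h) (D2 f x v) 0 := by
    rw [h2]
    exact (hcd1.differentiableAt (by simp)).hasDerivAt
  have hs : ∀ᶠ t in 𝓝[≠] (0 : ℝ), slope (deriv h) 0 t < 0 :=
    (hasDerivAt_iff_tendsto_slope.1 hdd).eventually (isOpen_Iio.mem_nhds hD)
  have hdiff : ∀ᶠ t in 𝓝 (0 : ℝ), DifferentiableAt ℝ h t := by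
    have h4 : ContDiffAt ℝ 1 h 0 := contDiffAt_infty.1 hcd 1
    filter_upwards [h4.eventually (by simp)] with t ht using ht.differentiableAt (by simp)
  rw [eventually_nhdsWithin_iff] at hs
  obtain ⟨ε, hε, hball⟩ := Metric.eventually_nhds_iff_ball.1 (hs.and hdiff)
  rw [eventually_nhdsWithin_iff]
  refine Metric.eventually_nhds_iff_ball.2 ⟨ε, hε, fun t ht ht0 => ?_⟩
  have key : ∀ ξ ∈ Metric.ball (0 : ℝ) ε, ξ ≠ 0 → deriv h ξ / ξ < 0 := by
    intro ξ hξ hξ0
    have := (hball ξ hξ).1 hξ0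
    rwa [slope_def_field, hd0, sub_zero, sub_zero] at this
  have habs : |t| < ε := by simpa [Real.ball_eq_Ioo, abs_lt] using ht
  have hb : ∀ ξ, |ξ| < ε → ξ ∈ Metric.ball (0 : ℝ) ε := fun ξ hξ => by
    simpa [Real.ball_eq_Ioo, abs_lt] using hξ
  have h00 : h 0 = f x := by simp [hh]
  change h t < f x
  rw [← h00]
  rcases lt_or_gt_of_ne (show t ≠ 0 from ht0) with hneg | hpos
  · have hI : ∀ ξ ∈ Set.Icc t 0, |ξ| < ε := fun ξ hξ => by
      rw [abs_lt] at habs ⊢
      constructor <;> linarith [hξ.1, hξ.2]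
    obtain ⟨ξ, hξ, he⟩ := exists_deriv_eq_slope h hneg
      (fun ξ hξ => (hball ξ (hb ξ (hI ξ hξ))).2.continuousAt.continuousWithinAt)
      (fun ξ hξ => (hball ξ (hb ξ (hI ξ (Set.Ioo_subset_Icc_self hξ)))).2.differentiableWithinAt)
    have hk := key ξ (hb ξ (hI ξ (Set.Ioo_subset_Icc_self hξ))) hξ.2.ne
    have hpos : 0 < deriv h ξ := by
      by_contra hc
      have := div_nonneg_of_nonpos (not_lt.1 hc) hξ.2.le
      linarith
    rw [he, div_pos_iff] at hpos
    rcases hpos with h5 | h5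
    · linarith [h5.1]
    · linarith [h5.2]
  · have hI : ∀ ξ ∈ Set.Icc 0 t, |ξ| < ε := fun ξ hξ => by
      rw [abs_lt] at habs ⊢
      constructor <;> linarith [hξ.1, hξ.2]
    obtain ⟨ξ, hξ, he⟩ := exists_deriv_eq_slope h hpos
      (fun ξ hξ => (hball ξ (hb ξ (hI ξ hξ))).2.continuousAt.continuousWithinAt)
      (fun ξ hξ => (hball ξ (hb ξ (hI ξ (Set.Ioo_subset_Icc_self hξ)))).2.differentiableWithinAt)
    have hk := key ξ (hb ξ (hI ξ (Set.Ioo_subset_Icc_self hξ))) hξ.1.ne'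
    have hneg : deriv h ξ < 0 := by
      by_contra hc
      have := div_nonneg (not_lt.1 hc) hξ.1.le
      linarith
    rw [he, div_neg_iff] at hneg
    rcases hneg with h5 | h5
    · linarith [h5.2]
    · linarith [h5.1]

theorem sup1 (f : V d → ℝ) (T : ℝ) (hf : Layered f T) (x y : V d) (hx : 0 < x 0) (hy : 0 < y 0) (h0 : 0 < f x)
    (hT : f x < T) (hxy : f x ≤ f y) (h : ∀ c : ℝ, y ≠ c • x) : 0 < gr f x ⬝ᵥ y := by
  by_contra hcon
  have hle : gr f x ⬝ᵥ y ≤ 0 := not_lt.1 hcon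
  have hc := sup_cda f T hf x h0 hT
  have hge : ∀ t : ℝ, 0 < t → f x ≤ f (x + t • y) := fun t ht => by
    simpa using sup_conv f T hf x y hx hy hxy 1 t one_pos ht
  have hev : ∀ᶠ t in 𝓝[≠] (0 : ℝ), 0 < t → f (x + t • y) < f x := by
    rcases hle.lt_or_eq with hlt | heq
    · have hd := sup_hd f x y hc
      have hs : ∀ᶠ t in 𝓝[≠] (0 : ℝ), slope (fun t : ℝ => f (x + t • y)) 0 t < 0 :=
        (hasDerivAt_iff_tendsto_slope.1 hd).eventually (isOpen_Iio.mem_nhds hlt)
      filter_upwards [hs] with t ht htp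
      rw [slope_def_field, div_neg_iff] at ht
      simp only [zero_smul, add_zero, sub_zero] at ht
      rcases ht with h5 | h5
      · linarith [h5.2]
      · linarith [h5.1]
    · filter_upwards [loc_lt f T hf x y h0 hT heq h] with t ht _ using ht
  have hev2 : ∀ᶠ t in 𝓝[>] (0 : ℝ), 0 < t → f (x + t • y) < f x :=
    hev.filter_mono (nhdsWithin_mono _ fun t ht => ne_of_gt ht)
  obtain ⟨t, ht, htp⟩ := (hev2.and self_mem_nhdsWithin).exists
  have h6 := hge t htp
  have h7 := ht htp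
  linarith

theorem uniqL (f : V d → ℝ) (T : ℝ) (hf : Layered f T) (P v : V d) (hP : 0 < P 0) (h0 : 0 < f P) (hT : f P < T)
    (hv : gr f P ⬝ᵥ v = 0) (hv0 : v 0 = 0) (hv' : v ≠ 0) (τ : ℝ) (hτ : τ ≠ 0) : f (P + τ • v) < f P := by
  by_contra hcon
  have hle : f P ≤ f (P + τ • v) := not_lt.1 hcon
  have hvc : ∀ c : ℝ, v ≠ c • P := by
    intro c hc
    have h1 : v 0 = c * P 0 := by rw [hc]; rfl
    rw [hv0] at h1
    rcases mul_eq_zero.1 h1.symm with h2 | h2
    · rw [h2, zero_smul] at hc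
      exact hv' hc
    · linarith
  have hev := loc_lt f T hf P v h0 hT hv hvc
  have htend : Filter.Tendsto (fun σ : ℝ => σ * τ) (𝓝[>] 0) (𝓝[≠] 0) := by
    rw [tendsto_nhdsWithin_iff]
    constructor
    · have : Filter.Tendsto (fun σ : ℝ => σ * τ) (𝓝 0) (𝓝 (0 * τ)) := (continuous_id.mul continuous_const).tendsto 0
      rw [zero_mul] at this
      exact this.mono_left nhdsWithin_le_nhds
    · filter_upwards [self_mem_nhdsWithin] with σ hσ
      exact mul_ne_zero (ne_of_gt hσ) hτ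
  have hlt1 : ∀ᶠ σ in 𝓝[>] (0 : ℝ), σ < 1 := nhdsWithin_le_nhds (isOpen_Iio.mem_nhds (show (0 : ℝ) ∈ Set.Iio 1 by simp))
  obtain ⟨σ, ⟨hσ1, hσ2⟩, hσ0⟩ := (((htend.eventually hev).and hlt1).and self_mem_nhdsWithin).exists
  have hσ0' : 0 < σ := hσ0
  have hPv : 0 < (P + τ • v) 0 := by
    have : (P + τ • v) 0 = P 0 + τ * v 0 := rfl
    rw [this, hv0]
    linarith
  have h3 := sup_conv f T hf P (P + τ • v) hP hPv hle (1 - σ) σ (by linarith) hσ0'
  have h4 : (1 - σ) • P + σ • (P + τ • v) = P + (σ * τ) • v := by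
    rw [sub_smul, one_smul, smul_add, smul_smul]
    abel
  rw [h4] at h3
  linarith

end Pool.Agent.Work.MP_659252_gt.QR
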