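import Pool.Agent.Work.MP_659252_gt.QR.Q.Sup

/-!
# Uniqueness of the quadric.  Size: M.

PROOF.  `nrm_lem` (Lagrange multiplier): `F` has a local extremum at `x` on `{y | f y = f x}` (it is `0` there, near `x`), so `IsLocalExtrOn.exists_multipliers_of_hasStrictFDerivAt_1d` gives `(a, b) ≠ 0` with `a • f' + b • F' = 0`; `b ≠ 0` because `f' ≠ 0`.
(`f`, `F` are smooth near `x`, so they have strict derivatives.)
`uq`: for `x` near `x₀` with `f x = s` (`0 < x 0`, `f` is smooth near `x`, `gr f x ≠ 0` by `reg`; `hA`, `hA'` hold near `x` by `eventually_eventually_nhds`): `F y = bil A y y` has `fderiv F x v = 2 bil A x v`, so `bil A x v = μ x (gr f x ⬝ v)` for all `v`, and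
`bil A' x v = μ' x (gr f x ⬝ v)` with `μ' x ≠ 0` (`mul A' x ≠ 0` near `x₀`).  So `bil A x v = c x * bil A' x v`, `c x = μ x/μ' x`.  For `x`, `y` near `x₀` in the level set, not proportional: `bil A x y = c x bil A' x y` and `bil A y x = c y bil A' y x`, by
symmetry `(c x - c y) bil A' x y = 0`, and `bil A' x y = μ' x (gr f x ⬝ y) ≠ 0` (`sup1`).  So `c x = c x₀ =: c` for all `x` near `x₀` in the level set which are not proportional to `x₀`, and also for `x = t x₀` (linearity in `x`).  So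
`bil (A - c A') x v = 0` for all these `x` and all `v`.  There is such an `x₁` near `x₀` which is not proportional to `x₀`: otherwise every linear function `h ⬝ x` with `h ⬝ x₀ = 0` vanishes on the level set near `x₀`, so `h = ν gr f x₀`
(`nrm_lem`), but these `h` form a space of dimension `d ≥ 2`.  Finally for each `i` the linear function `x ↦ bil (A - c A') x (ee i)` vanishes on the level set near `x₀`, so it is `ν (gr f x₀ ⬝ x)` by `nrm_lem`, and its value at `x₁` is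
`ν (gr f x₀ ⬝ x₁) = 0` with `gr f x₀ ⬝ x₁ > 0` (`sup1`): `ν = 0`.  So `A = c A'`.
-/

namespace Pool.Agent.Work.MP_659252_gt.QR

open scoped ContDiff Topology
open Pool.Agent.Work.MP_659252_gt.Z (V Ten val Tan InT IsZoll IsMetric IsGeodesic)

variable {d : ℕ}

private theorem gr_dot' (f : V d → ℝ) (x v : V d) : gr f x ⬝ᵥ v = fderiv ℝ f x v := by
  have h : v = ∑ i, v i • (Pi.single i 1 : V d) := by
    funext j
    simp [Finset.sum_apply, Pi.single_apply]
  conv_rhs => rw [h]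
  rw [map_sum]
  simp only [gr, dotProduct, map_smul, smul_eq_mul]
  exact Finset.sum_congr rfl fun i _ => by ring

theorem nrm_lem (f F : V d → ℝ) (x : V d) (hf : ContDiffAt ℝ 1 f x) (hF : ContDiffAt ℝ 1 F x)
    (hg : gr f x ≠ 0) (h : ∀ᶠ y in 𝓝 x, f y = f x → F y = 0) :
    ∃ μ : ℝ, ∀ v : V d, fderiv ℝ F x v = μ * (gr f x ⬝ᵥ v) := by
  have hFx : F x = 0 := h.self_of_nhds rfl
  have hex : IsLocalExtrOn F {y | f y = f x} x := by
    left
    show ∀ᶠ y in 𝓝[{y | f y = f x}] x, F x ≤ F y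
    rw [eventually_nhdsWithin_iff]
    filter_upwards [h] with y hy hy'
    rw [hFx, hy hy']
  obtain ⟨a, b, hab, heq⟩ := hex.exists_multipliers_of_hasStrictFDerivAt_1d
    (hf.hasStrictFDerivAt one_ne_zero) (hF.hasStrictFDerivAt one_ne_zero)
  have hv : ∀ v : V d, a * (gr f x ⬝ᵥ v) + b * fderiv ℝ F x v = 0 := by
    intro v
    have := congrArg (fun l => l v) heq
    simpa [gr_dot'] using this
  have hb : b ≠ 0 := by
    rintro rfl
    have ha : a ≠ 0 := by
      rintro rfl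
      exact hab rfl
    apply hg
    apply vec_ext
    intro u
    have := hv u
    rw [zero_mul, add_zero] at this
    rw [zero_dotProduct]
    exact (mul_eq_zero.mp this).resolve_left ha
  refine ⟨-a / b, fun v => ?_⟩
  have := hv v
  field_simp
  linarith

private theorem bil_ee (M : Mat d) (j i : Fin (d + 1)) : bil M (ee j) (ee i) = M j i := by
  simp [bil, ee, Pi.single_apply]

private theorem fderiv_bil (M : Mat d) (hM : ∀ i j, M i j = M j i) (x : V d) :
    ContDiff ℝ 1 (fun y : V d => bil M y y) ∧ ∀ v, fderiv ℝ (fun y : V d => bil M y y) x v = 2 * bil M x v := by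
  have h1 : ContDiff ℝ 1 (fun y : V d => bil M y y) := by
    unfold bil
    fun_prop
  refine ⟨h1, fun v => ?_⟩
  have h2 : HasDerivAt (fun t : ℝ => bil M (x + t • v) (x + t • v)) (fderiv ℝ (fun y : V d => bil M y y) x v) 0 := by
    have h3 : HasFDerivAt (fun y : V d => bil M y y) (fderiv ℝ (fun y : V d => bil M y y) x) (x + (0 : ℝ) • v) := by
      rw [zero_smul, add_zero]
      exact (h1.differentiable one_ne_zero x).hasFDerivAt
    have h4 : HasDerivAt (fun t : ℝ => x + t • v) v 0 := by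
      have := ((hasDerivAt_id (0 : ℝ)).smul_const v).const_add x
      simpa using this
    have h8 := HasFDerivAt.comp_hasDerivAt (f := fun t : ℝ => x + t • v) (0 : ℝ) h3 h4
    exact h8
  have h5 : (fun t : ℝ => bil M (x + t • v) (x + t • v)) =
      fun t : ℝ => bil M x x + t * (2 * bil M x v) + t ^ 2 * bil M v v := by
    funext t
    rw [bil_add_left, bil_add_right, bil_add_right, bil_smul_left, bil_smul_left, bil_smul_right,
      bil_smul_right, bil_comm hM v x]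
    ring
  rw [h5] at h2
  have h6 : HasDerivAt (fun t : ℝ => bil M x x + t * (2 * bil M x v) + t ^ 2 * bil M v v) (2 * bil M x v) 0 := by
    have h7 := (((hasDerivAt_id (0 : ℝ)).mul_const (2 * bil M x v)).const_add (bil M x x)).add
      (((hasDerivAt_id (0 : ℝ)).pow 2).mul_const (bil M v v))
    refine (h7.congr_of_eventuallyEq (Filter.Eventually.of_forall fun t => ?_)).congr_deriv ?_
    · simp
    · simp
  exact h2.unique h6

private theorem lin_cd (h : V d) : ContDiff ℝ 1 (fun y : V d => h ⬝ᵥ y) ∧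
    ∀ x v, fderiv ℝ (fun y : V d => h ⬝ᵥ y) x v = h ⬝ᵥ v := by
  have h1 : ContDiff ℝ 1 (fun y : V d => h ⬝ᵥ y) := by
    unfold dotProduct
    fun_prop
  refine ⟨h1, fun x v => ?_⟩
  have h3 : HasFDerivAt (fun y : V d => h ⬝ᵥ y) (fderiv ℝ (fun y : V d => h ⬝ᵥ y) x) (x + (0 : ℝ) • v) := by
    rw [zero_smul, add_zero]
    exact (h1.differentiable one_ne_zero x).hasFDerivAt
  have h4 : HasDerivAt (fun t : ℝ => x + t • v) v 0 := by
    have := ((hasDerivAt_id (0 : ℝ)).smul_const v).const_add x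
    simpa using this
  have h2 := HasFDerivAt.comp_hasDerivAt (f := fun t : ℝ => x + t • v) (0 : ℝ) h3 h4
  have h5 : ((fun y : V d => h ⬝ᵥ y) ∘ fun t : ℝ => x + t • v) = fun t : ℝ => h ⬝ᵥ x + t * (h ⬝ᵥ v) := by
    funext t
    simp [dotProduct_add, dotProduct_smul]
  rw [h5] at h2
  have h6 : HasDerivAt (fun t : ℝ => h ⬝ᵥ x + t * (h ⬝ᵥ v)) (h ⬝ᵥ v) 0 := by
    have := ((hasDerivAt_id (0 : ℝ)).mul_const (h ⬝ᵥ v)).const_add (h ⬝ᵥ x)
    simpa using this
  exact h2.unique h6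

theorem uq (hd : 2 ≤ d) (f : V d → ℝ) (T : ℝ) (hf : Layered f T) (s : ℝ) (h0 : 0 < s) (hT : s < T) (x₀ : V d)
    (hx0 : 0 < x₀ 0) (hx : f x₀ = s) (A A' : Mat d) (hA : ∀ i j, A i j = A j i) (hA' : ∀ i j, A' i j = A' j i)
    (h1 : ∀ᶠ x in 𝓝 x₀, f x = s → bil A x x = 0) (h2 : ∀ᶠ x in 𝓝 x₀, f x = s → bil A' x x = 0)
    (h3 : mul A' x₀ ≠ 0) : ∃ c : ℝ, ∀ i j, A i j = c * A' i j := by
  -- smoothness near the points of the level set
  have hU : IsOpen ({0}ᶜ ∩ f ⁻¹' Set.Ioo 0 T) :=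
    hf.cont.isOpen_inter_preimage isOpen_compl_singleton isOpen_Ioo
  have hne : ∀ x : V d, 0 < x 0 → x ≠ 0 := by
    rintro x hx rfl
    simp at hx
  have hcd : ∀ x : V d, 0 < x 0 → f x = s → ContDiffAt ℝ 1 f x := by
    intro x hx0 hxs
    have hmem : x ∈ ({0}ᶜ ∩ f ⁻¹' Set.Ioo 0 T) := ⟨hne x hx0, by rw [Set.mem_preimage, hxs]; exact ⟨h0, hT⟩⟩
    have h4 : ContDiffOn ℝ ∞ f ({0}ᶜ ∩ f ⁻¹' Set.Ioo 0 T) := hf.smooth.mono fun y hy => ⟨hy.2.1, hy.2.2⟩
    exact (h4.contDiffAt (hU.mem_nhds hmem)).of_le (by exact_mod_cast le_top)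
  have hreg : ∀ x : V d, f x = s → gr f x ≠ 0 := fun x hx => hf.reg x (hx ▸ h0) (hx ▸ hT)
  have hsup : ∀ x y : V d, 0 < x 0 → 0 < y 0 → f x = s → f y = s → (∀ c : ℝ, y ≠ c • x) → 0 < gr f x ⬝ᵥ y :=
    fun x y hx hy hxs hys hxy => sup1 f T hf x y hx hy (hxs ▸ h0) (hxs ▸ hT) (by rw [hxs, hys]) hxy
  -- the good points
  have hg0 : ∀ᶠ x : V d in 𝓝 x₀, 0 < x 0 :=
    (continuous_apply (0 : Fin (d + 1))).continuousAt.eventually (lt_mem_nhds hx0)
  have hg3 : ∀ᶠ x : V d in 𝓝 x₀, mul A' x ≠ 0 := by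
    have hc : Continuous (fun x : V d => mul A' x) := by
      unfold mul
      fun_prop
    exact hc.continuousAt.eventually (isOpen_ne.mem_nhds h3)
  have key : ∀ᶠ x : V d in 𝓝 x₀, f x = s → 0 < x 0 ∧ ∃ c μ : ℝ, μ ≠ 0 ∧ (∀ v, bil A' x v = μ * (gr f x ⬝ᵥ v)) ∧
      ∀ v, bil A x v = c * bil A' x v := by
    filter_upwards [hg0, hg3, eventually_eventually_nhds.mpr h1, eventually_eventually_nhds.mpr h2] with
      x hx0' hx3 hx1 hx2 hxs
    refine ⟨hx0', ?_⟩
    obtain ⟨μ, hμ⟩ := nrm_lem f (fun y => bil A y y) x (hcd x hx0' hxs) (fderiv_bil A hA x).1.contDiffAt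
      (hreg x hxs) (by rw [hxs]; exact hx1)
    obtain ⟨μ', hμ'⟩ := nrm_lem f (fun y => bil A' y y) x (hcd x hx0' hxs) (fderiv_bil A' hA' x).1.contDiffAt
      (hreg x hxs) (by rw [hxs]; exact hx2)
    have e1 : ∀ v, bil A x v = μ / 2 * (gr f x ⬝ᵥ v) := fun v => by
      have := hμ v
      rw [(fderiv_bil A hA x).2 v] at this
      linarith
    have e2 : ∀ v, bil A' x v = μ' / 2 * (gr f x ⬝ᵥ v) := fun v => by
      have := hμ' v
      rw [(fderiv_bil A' hA' x).2 v] at this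
      linarith
    have hμ0 : μ' / 2 ≠ 0 := by
      intro hz
      apply hx3
      apply vec_ext
      intro u
      have := e2 u
      rw [hz, zero_mul, bil_comm hA', bil_eq_dot, dotProduct_comm] at this
      rw [this, zero_dotProduct]
    refine ⟨(μ / 2) / (μ' / 2), μ' / 2, hμ0, e2, fun v => ?_⟩
    rw [e1 v, e2 v, ← mul_assoc, div_mul_cancel₀ _ hμ0]
  obtain ⟨-, c, μ₀, hμ₀, hb0, hc0⟩ := key.self_of_nhds hx
  have claim : ∀ᶠ x : V d in 𝓝 x₀, f x = s → 0 < x 0 ∧ ∀ v, bil A x v = c * bil A' x v := by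
    filter_upwards [key] with x hx' hxs
    obtain ⟨hx0', c', μ', hμ', hb', hc'⟩ := hx' hxs
    refine ⟨hx0', ?_⟩
    by_cases hprop : ∀ t : ℝ, x ≠ t • x₀
    · have hpos := hsup x₀ x hx0 hx0' hx hxs hprop
      have e1 : bil A x₀ x = c * bil A' x₀ x := hc0 x
      have e2 : bil A x x₀ = c' * bil A' x x₀ := hc' x₀
      rw [bil_comm hA x x₀, bil_comm hA' x x₀, e1] at e2
      have e3 : bil A' x₀ x ≠ 0 := by
        rw [hb0 x]
        exact mul_ne_zero hμ₀ hpos.ne'
      have e4 : c = c' := mul_right_cancel₀ e3 e2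
      intro v
      rw [hc' v, e4]
    · push Not at hprop
      obtain ⟨t, rfl⟩ := hprop
      intro v
      rw [bil_smul_left, bil_smul_left, hc0 v]
      ring
  -- a point of the level set which is not proportional to `x₀`
  have hex : ∃ᶠ x : V d in 𝓝 x₀, f x = s ∧ ∀ t : ℝ, x ≠ t • x₀ := by
    by_contra hcon
    rw [Filter.not_frequently] at hcon
    have hh : ∀ h : V d, h ⬝ᵥ x₀ = 0 → ∃ ν : ℝ, ∀ v, h ⬝ᵥ v = ν * (gr f x₀ ⬝ᵥ v) := by
      intro h hh0
      obtain ⟨ν, hν⟩ := nrm_lem f (fun y => h ⬝ᵥ y) x₀ (hcd x₀ hx0 hx) (lin_cd h).1.contDiffAt (hreg x₀ hx) (by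
        filter_upwards [hcon] with y hy hys
        rw [hx] at hys
        push Not at hy
        obtain ⟨t, rfl⟩ := hy hys
        rw [dotProduct_smul, hh0, smul_zero])
      exact ⟨ν, fun v => by rw [← hν v, (lin_cd h).2]⟩
    have h1' : (1 : ℕ) < d + 1 := by omega
    have h2' : (2 : ℕ) < d + 1 := by omega
    obtain ⟨i, hi⟩ : ∃ i : Fin (d + 1), i = ⟨1, h1'⟩ := ⟨_, rfl⟩
    obtain ⟨j, hj⟩ : ∃ j : Fin (d + 1), j = ⟨2, h2'⟩ := ⟨_, rfl⟩
    have hi0 : i ≠ 0 := by
      rw [hi]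
      intro h
      simpa using congrArg Fin.val h
    have hj0 : j ≠ 0 := by
      rw [hj]
      intro h
      simpa using congrArg Fin.val h
    have hij : i ≠ j := by
      rw [hi, hj]
      intro h
      simpa using congrArg Fin.val h
    have hd1 : ∀ k : Fin (d + 1), ∀ v : V d, (x₀ k • ee 0 - x₀ 0 • ee k) ⬝ᵥ v = x₀ k * v 0 - x₀ 0 * v k := by
      intro k v
      rw [dotProduct_comm, dotProduct_sub, dotProduct_smul, dotProduct_smul, dot_ee, dot_ee, smul_eq_mul, smul_eq_mul]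
    obtain ⟨ν, hν⟩ := hh (x₀ i • ee 0 - x₀ 0 • ee i) (by rw [hd1]; ring)
    obtain ⟨ν', hν'⟩ := hh (x₀ j • ee 0 - x₀ 0 • ee j) (by rw [hd1]; ring)
    have a1 := hν (ee i)
    have a2 := hν' (ee i)
    have a3 := hν' (ee j)
    rw [hd1, dot_ee] at a1 a2 a3
    have ev : ∀ k l : Fin (d + 1), (ee k : V d) l = if l = k then 1 else 0 := by
      intro k l
      simp [ee, Pi.single_apply]
    rw [ev, ev, if_neg (Ne.symm hi0), if_pos rfl] at a1
    rw [ev, ev, if_neg (Ne.symm hi0), if_neg (Ne.symm hij)] at a2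
    rw [ev, ev, if_neg (Ne.symm hj0), if_pos rfl] at a3
    have b1 : gr f x₀ i ≠ 0 := by
      intro hz
      rw [hz] at a1
      linarith
    have b2 : ν' = 0 := by
      have : ν' * gr f x₀ i = 0 := by linarith
      exact (mul_eq_zero.mp this).resolve_right b1
    rw [b2] at a3
    linarith
  obtain ⟨x₁, ⟨hx1s, hx1p⟩, hx1c⟩ := (hex.and_eventually claim).exists
  obtain ⟨hx10, hx1b⟩ := hx1c hx1s
  have hpos := hsup x₀ x₁ hx0 hx10 hx hx1s hx1p
  refine ⟨c, fun j i => ?_⟩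
  -- the linear function with the matrix column `i`
  have hlin : ∀ v : V d, bil A v (ee i) - c * bil A' v (ee i) = (fun k => A k i - c * A' k i) ⬝ᵥ v := by
    intro v
    simp only [bil, ee, dotProduct, Pi.single_apply, mul_ite, mul_one, mul_zero, Finset.sum_ite_eq',
      Finset.mem_univ, if_true, Finset.mul_sum, ← Finset.sum_sub_distrib]
    exact Finset.sum_congr rfl fun k _ => by ring
  obtain ⟨ν, hν⟩ := nrm_lem f (fun y => (fun k => A k i - c * A' k i) ⬝ᵥ y) x₀ (hcd x₀ hx0 hx)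
    (lin_cd (fun k => A k i - c * A' k i)).1.contDiffAt (hreg x₀ hx) (by
      filter_upwards [claim] with y hy hys
      rw [hx] at hys
      rw [← hlin, (hy hys).2]
      ring)
  have hν' : ∀ v : V d, bil A v (ee i) - c * bil A' v (ee i) = ν * (gr f x₀ ⬝ᵥ v) := by
    intro v
    rw [← hν v, (lin_cd _).2, hlin]
  have hz : ν = 0 := by
    have := hν' x₁
    rw [hx1b] at this
    have h5 : ν * (gr f x₀ ⬝ᵥ x₁) = 0 := by linarith
    exact (mul_eq_zero.mp h5).resolve_right hpos.ne'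
  have := hν' (ee j)
  rw [hz, zero_mul, bil_ee, bil_ee] at this
  linarith

end Pool.Agent.Work.MP_659252_gt.QR
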